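import Mathlib

/-!
# Bounded depth circuits whose inputs and outputs are numbers: definitions
-/

namespace PAP

/-- A circuit with input variables `V`, `s` gates of unbounded fan-in, depth at most `d` and `m`
output bits. Gate `i` is an OR gate if `isOr i = true` and an AND gate otherwise. Its inputs are
the pairs `(q, c)` of `wires i`, where `q` is an input variable or another gate and `c` says
whether the value of `q` is negated. Gate `i` has the level `lev i < d` and only reads gates of
smaller level. Output bit `j` is the value of the variable or gate `(out j).1`, negated if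
`(out j).2 = true`. -/
structure Circuit (V : Type) (d s m : ℕ) where
  lev : Fin s → Fin d
  isOr : Fin s → Bool
  wires : Fin s → Finset ((V ⊕ Fin s) × Bool)
  acyclic : ∀ (i j : Fin s) (c : Bool), (Sum.inr j, c) ∈ wires i → lev j < lev i
  out : Fin m → (V ⊕ Fin s) × Bool

/-- the value carried by the wire `q`, when the variables have the values `x` and the gates the
values `g` -/
def wireVal {V : Type} {s : ℕ} (x : V → Bool) (g : Fin s → Bool) (q : (V ⊕ Fin s) × Bool) : Bool :=
  xor (Sum.elim x g q.1) q.2

/-- the values of the gates after `l` rounds of evaluation; a gate of level `< l` has then its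
final value -/
def Circuit.val {V : Type} {d s m : ℕ} (C : Circuit V d s m) (x : V → Bool) :
    ℕ → Fin s → Bool
  | 0 => fun _ => false
  | l + 1 => fun i =>
    if C.isOr i = true then decide (∃ q ∈ C.wires i, wireVal x (C.val x l) q = true)
    else decide (∀ q ∈ C.wires i, wireVal x (C.val x l) q = true)

/-- output bit number `j` on the input `x` -/
def Circuit.bit {V : Type} {d s m : ℕ} (C : Circuit V d s m) (x : V → Bool) (j : Fin m) : Bool :=
  wireVal x (C.val x d) (C.out j)

/-- the number with the binary digits `b`, least significant digit first -/
def num {k : ℕ} (b : Fin k → Bool) : ℕ := ∑ i : Fin k, if b i = true then 2 ^ (i : ℕ) else 0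

/-- the number `a` of an input `(a, n)` -/
def aOf {k : ℕ} (x : Fin k ⊕ Fin k → Bool) : ℕ := num (fun i => x (Sum.inl i))

/-- the number `n` of an input `(a, n)` -/
def nOf {k : ℕ} (x : Fin k ⊕ Fin k → Bool) : ℕ := num (fun i => x (Sum.inr i))

/-- the number written by the circuit on the input `y` -/
def Circuit.answer {V : Type} {d s m : ℕ} (C : Circuit V d s m) (y : V → Bool) : ℕ :=
  num (C.bit y)

end PAP
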