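import Pool.Agent.helper36.PAP.Circ

/-!
# Almost all small subcubes are simple for all outputs
-/

namespace PAP

open Finset

section simple

variable {V : Type} [DecidableEq V]

/-- `y` agrees with `x` outside `T` -/
def Cube (T : Finset V) (x y : V → Bool) : Prop := ∀ v, v ∉ T → y v = x v

/-- on the subcube through `x` in the directions `T`, the value of `f` depends on one coordinate -/
def Simple (f : (V → Bool) → Bool) (T : Finset V) (x : V → Bool) : Prop :=
  ∃ c ∈ T, ∀ y y', Cube T x y → Cube T x y' → y c = y' c → f y = f y'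

theorem simple_of_query {f : (V → Bool) → Bool} {T : Finset V} {x : V → Bool} (hT : T.Nonempty)
    (Q : (V → Bool) → Finset V)
    (hQ : ∀ x y, (∀ v ∈ Q x, y v = x v) → Q y = Q x ∧ f y = f x)
    (h : ∀ y, Cube T x y → (Q y ∩ T).card ≤ 1) : Simple f T x := by
  have hx : Cube T x x := fun _ _ => rfl
  rcases Finset.eq_empty_or_nonempty (Q x ∩ T) with he | ⟨c, hc⟩
  · obtain ⟨c, hc⟩ := hT
    have key : ∀ y, Cube T x y → f y = f x := by
      intro y hy
      refine (hQ x y (fun v hv => hy v (fun hvT => ?_))).2
      have : v ∈ Q x ∩ T := Finset.mem_inter.mpr ⟨hv, hvT⟩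
      rw [he] at this
      exact Finset.notMem_empty v this
    exact ⟨c, hc, fun y y' hy hy' _ => by rw [key y hy, key y' hy']⟩
  · have hcT := (Finset.mem_inter.mp hc).2
    have hcQ := (Finset.mem_inter.mp hc).1
    have only : ∀ z, Cube T x z → c ∈ Q z → ∀ v ∈ Q z, v ∈ T → v = c := by
      intro z hz hcz v hv hvT
      exact Finset.card_le_one.mp (h z hz) v (Finset.mem_inter.mpr ⟨hv, hvT⟩) c
        (Finset.mem_inter.mpr ⟨hcz, hcT⟩)
    have key : ∀ z, Cube T x z → c ∈ Q z → ∀ y, Cube T x y → y c = z c → f y = f z := by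
      intro z hz hcz y hy hyc
      refine (hQ z y (fun v hv => ?_)).2
      by_cases hvT : v ∈ T
      · rw [only z hz hcz v hv hvT]
        exact hyc
      · rw [hy v hvT, hz v hvT]
    refine ⟨c, hcT, fun y y' hy hy' hyy => ?_⟩
    by_cases hyx : y c = x c
    · rw [key x hx hcQ y hy hyx, key x hx hcQ y' hy' (hyy ▸ hyx)]
    · set x1 : V → Bool := Function.update x c (y c) with hx1
      have hx1c : Cube T x x1 := by
        intro v hv
        rw [hx1, Function.update_of_ne]
        intro e
        exact hv (by rw [e]; exact hcT)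
      have hc1 : c ∈ Q x1 := by
        by_contra hn
        have := (hQ x1 x (fun v hv => by
          rw [hx1, Function.update_of_ne]
          intro e
          exact hn (by rw [← e]; exact hv))).1
        rw [← this] at hn
        exact hn hcQ
      have e1 : x1 c = y c := by rw [hx1]; simp
      rw [key x1 hx1c hc1 y hy e1.symm, key x1 hx1c hc1 y' hy' (by rw [e1, hyy])]

theorem simple_app {f : (V → Bool) → Bool} {T : Finset V} {x : V → Bool} {ρ : PA V}
    (hρ : ∀ v ∈ T, ρ v = none) (h : Simple (fun z => f (app ρ z)) T x) :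
    Simple f T (app ρ x) := by
  obtain ⟨c, hc, hs⟩ := h
  have key : ∀ y, Cube T (app ρ x) y →
      ∃ z, Cube T x z ∧ app ρ z = y ∧ z c = y c := by
    intro y hy
    refine ⟨fun v => if v ∈ T then y v else x v, fun v hv => if_neg hv, ?_, if_pos hc⟩
    funext v
    by_cases hv : v ∈ T
    · simp [app, hρ v hv, hv]
    · rw [hy v hv]
      simp [app, hv]
  refine ⟨c, hc, fun y y' hy hy' hyy => ?_⟩
  obtain ⟨z, hz1, hz2, hz3⟩ := key y hy
  obtain ⟨z', hz1', hz2', hz3'⟩ := key y' hy'
  have := hs z z' hz1 hz1' (by rw [hz3, hz3', hyy])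
  simp only [hz2, hz2'] at this
  exact this

end simple

variable {V : Type} [Fintype V] [DecidableEq V] {d s m : ℕ}

open Classical in
theorem card_cube (T : Finset V) (ψ : (V → Bool) → Prop) [DecidablePred ψ] :
    (Finset.univ.filter (fun x => ∃ y, Cube T x y ∧ ψ y)).card ≤
      2 ^ T.card * (Finset.univ.filter (fun y => ψ y)).card := by
  have hsub : (Finset.univ.filter (fun x => ∃ y, Cube T x y ∧ ψ y)) ⊆
      (Finset.univ.filter (fun y => ψ y)).biUnion (fun y =>
        Fintype.piFinset (fun v => if v ∈ T then (Finset.univ : Finset Bool) else {y v})) := by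
    intro x hx
    obtain ⟨y, hy, hψ⟩ := (Finset.mem_filter.mp hx).2
    rw [Finset.mem_biUnion]
    refine ⟨y, Finset.mem_filter.mpr ⟨Finset.mem_univ _, hψ⟩, ?_⟩
    rw [Fintype.mem_piFinset]
    intro v
    split_ifs with hv
    · exact Finset.mem_univ _
    · rw [Finset.mem_singleton]
      exact (hy v hv).symm
  refine (Finset.card_le_card hsub).trans (Finset.card_biUnion_le.trans ?_)
  have : ∀ y : V → Bool, (Fintype.piFinset (fun v => if v ∈ T then (Finset.univ : Finset Bool)
      else {y v})).card = 2 ^ T.card := by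
    intro y
    rw [Fintype.card_piFinset]
    have h1 : ∀ v : V, (if v ∈ T then (Finset.univ : Finset Bool) else {y v}).card =
        if v ∈ T then 2 else 1 := by
      intro v
      split_ifs <;> rfl
    rw [Finset.prod_congr rfl (fun v _ => h1 v), Finset.prod_ite_mem, Finset.univ_inter,
      Finset.prod_const]
  rw [Finset.sum_congr rfl (fun y _ => this y), Finset.sum_const, smul_eq_mul, mul_comm]

end PAP
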