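import Pool.Agent.helper36.PAP.Bad

/-!
# Large random subcubes are simple for all outputs
-/

namespace PAP

open Finset

variable {V W : Type} [Fintype V] [DecidableEq V] {d s m : ℕ}

/-- the probability that all of `T` stays free -/
theorem sum_free (P : ℝ) (T : Finset V) :
    ∑ ρ : PA V, (if ∀ v ∈ T, ρ v = none then wt P ρ else 0) = P ^ T.card := by
  have h := sum_app P T (fun _ => 1)
  simp only [mul_one, Finset.sum_const, Finset.card_univ, nsmul_eq_mul] at h
  rw [← Finset.mul_sum, mul_comm] at h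
  exact mul_right_cancel₀ (by
    have : 0 < Fintype.card (V → Bool) := Fintype.card_pos
    positivity) h

open Classical in
/-- one shallow function: few pairs (subcube of the family, point) that are not simple -/
theorem count_dt2 {ι : Type} (τ : ι → Finset V) (𝒯 : Finset ι) (R : ℕ) (hR1 : 1 ≤ R)
    (hR : ∀ q ∈ 𝒯, (τ q).card = R) (t M : ℕ) (hM : ∀ S : Finset V, S.card ≤ t →
      (𝒯.filter (fun q => 2 ≤ (S ∩ τ q).card)).card ≤ M)
    (f : (V → Bool) → Bool) (hf : DT t f) :
    ∑ q ∈ 𝒯, (Finset.univ.filter (fun x => ¬ Simple f (τ q) x)).card ≤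
      2 ^ R * (Fintype.card (V → Bool) * M) := by
  obtain ⟨Q, hQ1, hQ2⟩ := hf.query_fn
  have h1 : ∀ q ∈ 𝒯, (Finset.univ.filter (fun x => ¬ Simple f (τ q) x)).card ≤
      2 ^ R * (Finset.univ.filter (fun y => 2 ≤ (Q y ∩ τ q).card)).card := by
    intro q hq
    have hT : (τ q).Nonempty := by
      rw [← Finset.card_pos, hR q hq]
      omega
    have h2 : (Finset.univ.filter (fun x => ¬ Simple f (τ q) x)) ⊆
        (Finset.univ.filter (fun x => ∃ y, Cube (τ q) x y ∧ 2 ≤ (Q y ∩ τ q).card)) := by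
      intro x hx
      rw [Finset.mem_filter] at hx ⊢
      refine ⟨hx.1, ?_⟩
      by_contra hc
      push Not at hc
      exact hx.2 (simple_of_query hT Q hQ2 (fun y hy => by
        have := hc y hy
        omega))
    have h4 := card_cube (τ q) (fun y => 2 ≤ (Q y ∩ τ q).card)
    rw [hR q hq] at h4
    exact (Finset.card_le_card h2).trans h4
  refine (Finset.sum_le_sum h1).trans ?_
  rw [← Finset.mul_sum]
  refine Nat.mul_le_mul_left (2 ^ R) ?_
  simp only [Finset.card_filter]
  rw [Finset.sum_comm]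
  have h5 : ∀ y ∈ (Finset.univ : Finset (V → Bool)),
      ∑ q ∈ 𝒯, (if 2 ≤ (Q y ∩ τ q).card then 1 else 0) ≤ M := by
    intro y _
    rw [← Finset.card_filter]
    exact hM (Q y) (hQ1 y)
  refine (Finset.sum_le_sum h5).trans ?_
  rw [Finset.sum_const, smul_eq_mul, Finset.card_univ]

open Classical in
theorem bad_sum2 {ι : Type} (τ : ι → Finset V) (𝒯 : Finset ι) (R : ℕ) (hR1 : 1 ≤ R)
    (hR : ∀ q ∈ 𝒯, (τ q).card = R) (t : ℕ) (ht : 1 ≤ t) (M : PA V → ℕ)
    (hM : ∀ ρ : PA V, ∀ S : Finset V, S.card ≤ t →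
      (𝒯.filter (fun q => (∀ v ∈ τ q, ρ v = none) ∧ 2 ≤ (S ∩ τ q).card)).card ≤ M ρ)
    (C : Circuit W d s m) (inp : (V → Bool) → (W → Bool))
    (hinp : ∀ v, DT 1 (fun x => inp x v)) :
    ((1 / (40 * (t : ℝ))) ^ d) ^ R * ∑ q ∈ 𝒯, ((Finset.univ.filter (fun x =>
        ∃ j, ¬ Simple (fun x => C.bit (inp x) j) (τ q) x)).card : ℝ) ≤
      (Fintype.card (V → Bool) : ℝ) * ((𝒯.card : ℝ) * (d * (s * ((1 / 3) * (1 / 4) ^ t))) +
        m * (2 ^ R * ∑ ρ : PA V, wt ((1 / (40 * (t : ℝ))) ^ d) ρ * M ρ)) := by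
  have ht' : (1 : ℝ) ≤ t := by exact_mod_cast ht
  have hst := stage C inp hinp t ht d
  set P : ℝ := (1 / (40 * (t : ℝ))) ^ d with hP
  have hP0 : 0 ≤ P := by rw [hP]; positivity
  have hP1 : P ≤ 1 := by
    rw [hP]
    refine pow_le_one₀ (by positivity) ?_
    rw [div_le_one (by positivity)]
    linarith
  have hw0 : ∀ ρ : PA V, 0 ≤ wt P ρ := fun ρ => wt_nonneg hP0 hP1 ρ
  have hout : ∀ ρ : PA V, Good C inp t d ρ → ∀ j, DT t (fun x => C.bit (inp (app ρ x)) j) := by
    intro ρ hG j
    exact wire_dt inp hinp (fun x => C.val (inp x) d) t ht ρ (C.out j) (fun i _ => hG i (C.lev i).isLt)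
  have e1 : ∀ q ∈ 𝒯, P ^ R * ((Finset.univ.filter (fun x =>
        ∃ j, ¬ Simple (fun x => C.bit (inp x) j) (τ q) x)).card : ℝ) =
      ∑ ρ : PA V, ∑ x : V → Bool, (if ∀ v ∈ τ q, ρ v = none then wt P ρ *
        (if ∃ j, ¬ Simple (fun x => C.bit (inp x) j) (τ q) (app ρ x) then 1 else 0) else 0) := by
    intro q hq
    rw [sum_app P (τ q) (fun x => if ∃ j, ¬ Simple (fun x => C.bit (inp x) j) (τ q) x then 1 else 0),
      hR q hq, Finset.sum_boole]
  have e2 : ∀ q ∈ 𝒯, ∀ ρ : PA V, ∑ x : V → Bool, (if ∀ v ∈ τ q, ρ v = none then wt P ρ *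
        (if ∃ j, ¬ Simple (fun x => C.bit (inp x) j) (τ q) (app ρ x) then 1 else 0) else 0) ≤
      (Fintype.card (V → Bool) : ℝ) * (if Good C inp t d ρ then 0 else wt P ρ) +
        (if Good C inp t d ρ then wt P ρ * (if ∀ v ∈ τ q, ρ v = none then ∑ j : Fin m,
          ((Finset.univ.filter (fun x =>
            ¬ Simple (fun x => C.bit (inp (app ρ x)) j) (τ q) x)).card : ℝ) else 0) else 0) := by
    intro q hq ρ
    by_cases hG : Good C inp t d ρ
    · rw [if_pos hG, if_pos hG, mul_zero, zero_add]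
      by_cases hs : ∀ v ∈ τ q, ρ v = none
      · simp only [if_pos hs]
        have h4 : ∀ x : V → Bool, wt P ρ *
            (if ∃ j, ¬ Simple (fun x => C.bit (inp x) j) (τ q) (app ρ x) then 1 else 0) ≤
            wt P ρ * ∑ j : Fin m,
              (if ¬ Simple (fun x => C.bit (inp (app ρ x)) j) (τ q) x then 1 else 0) := by
          intro x
          have hnn : ∀ j ∈ (Finset.univ : Finset (Fin m)), (0 : ℝ) ≤
              (if ¬ Simple (fun x => C.bit (inp (app ρ x)) j) (τ q) x then 1 else 0) := by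
            intro j _
            split_ifs <;> norm_num
          refine mul_le_mul_of_nonneg_left ?_ (hw0 ρ)
          by_cases hj : ∃ j, ¬ Simple (fun x => C.bit (inp x) j) (τ q) (app ρ x)
          · rw [if_pos hj]
            obtain ⟨j, hj⟩ := hj
            refine le_trans ?_ (Finset.single_le_sum hnn (Finset.mem_univ j))
            rw [if_pos]
            intro hc
            exact hj (simple_app (f := fun x => C.bit (inp x) j) hs hc)
          · rw [if_neg hj]
            exact Finset.sum_nonneg hnn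
        refine (Finset.sum_le_sum fun x _ => h4 x).trans (le_of_eq ?_)
        rw [← Finset.mul_sum, Finset.sum_comm]
        congr 1
        refine Finset.sum_congr rfl fun j _ => ?_
        rw [Finset.sum_boole]
      · simp only [if_neg hs, Finset.sum_const_zero, mul_zero, le_refl]
    · rw [if_neg hG, if_neg hG, add_zero]
      have h4 : ∀ x ∈ (Finset.univ : Finset (V → Bool)),
          (if ∀ v ∈ τ q, ρ v = none then wt P ρ *
          (if ∃ j, ¬ Simple (fun x => C.bit (inp x) j) (τ q) (app ρ x) then 1 else 0) else 0) ≤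
          wt P ρ := by
        intro x _
        split_ifs
        · rw [mul_one]
        · rw [mul_zero]
          exact hw0 ρ
        · exact hw0 ρ
      refine (Finset.sum_le_sum h4).trans (le_of_eq ?_)
      rw [Finset.sum_const, Finset.card_univ, nsmul_eq_mul]
  rw [Finset.mul_sum, Finset.sum_congr rfl e1]
  refine (Finset.sum_le_sum fun q hq => Finset.sum_le_sum fun ρ _ => e2 q hq ρ).trans ?_
  rw [Finset.sum_comm]
  have e3 : ∀ ρ : PA V, ∑ q ∈ 𝒯, ((Fintype.card (V → Bool) : ℝ) *
        (if Good C inp t d ρ then 0 else wt P ρ) +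
        (if Good C inp t d ρ then wt P ρ * (if ∀ v ∈ τ q, ρ v = none then ∑ j : Fin m,
          ((Finset.univ.filter (fun x =>
            ¬ Simple (fun x => C.bit (inp (app ρ x)) j) (τ q) x)).card : ℝ) else 0) else 0)) ≤
      (𝒯.card : ℝ) * ((Fintype.card (V → Bool) : ℝ) * (if Good C inp t d ρ then 0 else wt P ρ)) +
        (m * (2 ^ R * (Fintype.card (V → Bool) : ℝ))) * (wt P ρ * M ρ) := by
    intro ρ
    rw [Finset.sum_add_distrib, Finset.sum_const, nsmul_eq_mul]
    have : ∑ q ∈ 𝒯, (if Good C inp t d ρ then wt P ρ * (if ∀ v ∈ τ q, ρ v = none then ∑ j : Fin m,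
          ((Finset.univ.filter (fun x =>
            ¬ Simple (fun x => C.bit (inp (app ρ x)) j) (τ q) x)).card : ℝ) else 0) else 0) ≤
        (m * (2 ^ R * (Fintype.card (V → Bool) : ℝ))) * (wt P ρ * M ρ) := by
      by_cases hG : Good C inp t d ρ
      · simp only [if_pos hG]
        rw [← Finset.mul_sum, ← Finset.sum_filter, Finset.sum_comm]
        have h5 : ∀ j ∈ (Finset.univ : Finset (Fin m)),
            ∑ q ∈ 𝒯.filter (fun q => ∀ v ∈ τ q, ρ v = none), ((Finset.univ.filter (fun x =>
              ¬ Simple (fun x => C.bit (inp (app ρ x)) j) (τ q) x)).card : ℝ) ≤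
            2 ^ R * ((Fintype.card (V → Bool) : ℝ) * M ρ) := by
          intro j _
          have h6 := count_dt2 τ (𝒯.filter (fun q => ∀ v ∈ τ q, ρ v = none)) R hR1
            (fun q hq => hR q (Finset.mem_filter.mp hq).1) t (M ρ) (fun S hS => by
              rw [Finset.filter_filter]
              exact hM ρ S hS) _ (hout ρ hG j)
          exact_mod_cast h6
        calc wt P ρ * ∑ j : Fin m, ∑ q ∈ 𝒯.filter (fun q => ∀ v ∈ τ q, ρ v = none),
              ((Finset.univ.filter (fun x =>
                ¬ Simple (fun x => C.bit (inp (app ρ x)) j) (τ q) x)).card : ℝ)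
            ≤ wt P ρ * ∑ j : Fin m, 2 ^ R * ((Fintype.card (V → Bool) : ℝ) * M ρ) :=
              mul_le_mul_of_nonneg_left (Finset.sum_le_sum h5) (hw0 ρ)
          _ = _ := by
              rw [Finset.sum_const, Finset.card_univ, Fintype.card_fin, nsmul_eq_mul]
              ring
      · simp only [if_neg hG, Finset.sum_const_zero]
        have := hw0 ρ
        positivity
    linarith
  refine (Finset.sum_le_sum fun ρ _ => e3 ρ).trans ?_
  rw [Finset.sum_add_distrib, ← Finset.mul_sum, ← Finset.mul_sum, ← Finset.mul_sum]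
  have h6 : (𝒯.card : ℝ) * ((Fintype.card (V → Bool) : ℝ) *
      ∑ ρ : PA V, (if Good C inp t d ρ then 0 else wt P ρ)) ≤
      (𝒯.card : ℝ) * ((Fintype.card (V → Bool) : ℝ) *
        (d * (s * ((1 / 3) * (1 / 4) ^ t)))) := by
    refine mul_le_mul_of_nonneg_left (mul_le_mul_of_nonneg_left hst (by positivity))
      (by positivity)
  refine (add_le_add_left h6 _).trans (le_of_eq ?_)
  ring

/-! ### Transversals -/

variable {Λ : Type} [Fintype Λ] [DecidableEq Λ]

/-- the directions chosen by a transversal -/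
def dirs (w : Λ → V) : Finset V := Finset.univ.image w

theorem transversal_inj {E : Λ → Finset V} (hE : ∀ l l', l ≠ l' → Disjoint (E l) (E l'))
    {w : Λ → V} (hw : ∀ l, w l ∈ E l) : Function.Injective w := by
  intro l l' h
  by_contra hne
  exact Finset.disjoint_left.mp (hE l l' hne) (hw l) (h ▸ hw l')

theorem card_dirs {E : Λ → Finset V} (hE : ∀ l l', l ≠ l' → Disjoint (E l) (E l'))
    {w : Λ → V} (hw : w ∈ Fintype.piFinset E) : (dirs w).card = Fintype.card Λ := by
  unfold dirs
  rw [Finset.card_image_of_injective _ (transversal_inj hE (Fintype.mem_piFinset.mp hw)),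
    Finset.card_univ]

/-- transversals with two fixed entries -/
def W2 (E : Λ → Finset V) (e : Λ → V) (p : Λ × Λ) : Finset (Λ → V) :=
  Fintype.piFinset (fun l => if l = p.1 ∨ l = p.2 then {e l} else E l)

open Classical in
theorem hM_trans {E : Λ → Finset V}
    (e : Λ → V) (t : ℕ) (ρ : PA V) (S : Finset V) (hS : S.card ≤ t) :
    ((Fintype.piFinset E).filter (fun w => (∀ v ∈ dirs w, ρ v = none) ∧
      2 ≤ (S ∩ dirs w).card)).card ≤
    ∑ p ∈ (Finset.univ : Finset Λ).offDiag, t ^ 2 *
      ((W2 E e p).filter (fun w => ∀ l, l ≠ p.1 → l ≠ p.2 → ρ (w l) = none)).card := by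
  have hsub : ((Fintype.piFinset E).filter (fun w => (∀ v ∈ dirs w, ρ v = none) ∧
      2 ≤ (S ∩ dirs w).card)) ⊆ (Finset.univ : Finset Λ).offDiag.biUnion (fun p =>
        (Fintype.piFinset E).filter (fun w => w p.1 ∈ S ∧ w p.2 ∈ S ∧
          ∀ l, l ≠ p.1 → l ≠ p.2 → ρ (w l) = none)) := by
    intro w hw
    rw [Finset.mem_filter] at hw
    obtain ⟨hwE, hρ, h2⟩ := hw
    obtain ⟨a, ha, b, hb, hab⟩ := Finset.one_lt_card.mp h2
    rw [Finset.mem_inter] at ha hb
    obtain ⟨l1, _, h1⟩ := Finset.mem_image.mp ha.2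
    obtain ⟨l2, _, h2⟩ := Finset.mem_image.mp hb.2
    have hne : l1 ≠ l2 := by
      intro h
      apply hab
      rw [← h1, ← h2, h]
    rw [Finset.mem_biUnion]
    refine ⟨(l1, l2), ?_, ?_⟩
    · rw [Finset.mem_offDiag]
      exact ⟨Finset.mem_univ _, Finset.mem_univ _, hne⟩
    · rw [Finset.mem_filter]
      refine ⟨hwE, ?_, ?_, fun l _ _ => hρ _ (Finset.mem_image_of_mem w (Finset.mem_univ l))⟩
      · show w l1 ∈ S
        rw [h1]
        exact ha.1
      · show w l2 ∈ S
        rw [h2]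
        exact hb.1
  refine (Finset.card_le_card hsub).trans (Finset.card_biUnion_le.trans ?_)
  refine Finset.sum_le_sum fun p hp => ?_
  rw [Finset.mem_offDiag] at hp
  have hne := hp.2.2
  have hinj : ((Fintype.piFinset E).filter (fun w => w p.1 ∈ S ∧ w p.2 ∈ S ∧
          ∀ l, l ≠ p.1 → l ≠ p.2 → ρ (w l) = none)).card ≤
      (S ×ˢ (S ×ˢ ((W2 E e p).filter
        (fun w => ∀ l, l ≠ p.1 → l ≠ p.2 → ρ (w l) = none)))).card := by
    refine Finset.card_le_card_of_injOn (fun w => (w p.1, w p.2,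
      fun l => if l = p.1 ∨ l = p.2 then e l else w l)) ?_ ?_
    · intro w hw
      rw [Finset.mem_coe, Finset.mem_filter] at hw
      obtain ⟨hwE, h1, h2, h3⟩ := hw
      rw [Finset.mem_coe, Finset.mem_product, Finset.mem_product, Finset.mem_filter]
      refine ⟨h1, h2, ?_, fun l hl1 hl2 => ?_⟩
      · unfold W2
        rw [Fintype.mem_piFinset]
        intro l
        simp only
        split_ifs with h
        · exact Finset.mem_singleton_self _
        · exact Fintype.mem_piFinset.mp hwE l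
      · simp only
        rw [if_neg (by tauto)]
        exact h3 l hl1 hl2
    · intro w _ w' _ heq
      simp only [Prod.mk.injEq] at heq
      obtain ⟨h1, h2, h3⟩ := heq
      funext l
      by_cases hl1 : l = p.1
      · rw [hl1, h1]
      · by_cases hl2 : l = p.2
        · rw [hl2, h2]
        · have := congrFun h3 l
          simp only [hl1, hl2, or_self, if_false] at this
          exact this
  refine hinj.trans ?_
  rw [Finset.card_product, Finset.card_product, ← mul_assoc, pow_two]
  exact Nat.mul_le_mul_right _ (Nat.mul_le_mul hS hS)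

open Classical in
theorem sum_W2 {E : Λ → Finset V} (hE : ∀ l l', l ≠ l' → Disjoint (E l) (E l'))
    (e : Λ → V) (P : ℝ) (p : Λ × Λ) (hp : p.1 ≠ p.2) :
    ∑ ρ : PA V, wt P ρ * (((W2 E e p).filter
      (fun w => ∀ l, l ≠ p.1 → l ≠ p.2 → ρ (w l) = none)).card : ℝ) =
    (W2 E e p).card * P ^ (Fintype.card Λ - 2) := by
  have h1 : ∀ ρ : PA V, wt P ρ * (((W2 E e p).filter
      (fun w => ∀ l, l ≠ p.1 → l ≠ p.2 → ρ (w l) = none)).card : ℝ) =
      ∑ w ∈ W2 E e p, (if ∀ l, l ≠ p.1 → l ≠ p.2 → ρ (w l) = none then wt P ρ else 0) := by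
    intro ρ
    rw [← Finset.sum_filter, Finset.sum_const, nsmul_eq_mul, mul_comm]
  rw [Finset.sum_congr rfl (fun ρ _ => h1 ρ), Finset.sum_comm]
  have h2 : ∀ w ∈ W2 E e p, ∑ ρ : PA V,
      (if ∀ l, l ≠ p.1 → l ≠ p.2 → ρ (w l) = none then wt P ρ else 0) =
      P ^ (Fintype.card Λ - 2) := by
    intro w hw
    have hcard : ((((Finset.univ : Finset Λ).erase p.1).erase p.2).image w).card =
        Fintype.card Λ - 2 := by
      rw [Finset.card_image_of_injOn]
      · rw [Finset.card_erase_of_mem, Finset.card_erase_of_mem (Finset.mem_univ _),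
          Finset.card_univ]
        · omega
        · exact Finset.mem_erase.mpr ⟨fun h => hp h.symm, Finset.mem_univ _⟩
      · intro l hl l' hl' h
        rw [Finset.mem_coe, Finset.mem_erase, Finset.mem_erase] at hl hl'
        by_contra hne
        have m1 := Fintype.mem_piFinset.mp hw l
        have m2 := Fintype.mem_piFinset.mp hw l'
        rw [if_neg (by tauto)] at m1 m2
        exact Finset.disjoint_left.mp (hE l l' hne) m1 (h ▸ m2)
    rw [← hcard, ← sum_free]
    refine Finset.sum_congr rfl fun ρ _ => ?_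
    have hiff : (∀ l, l ≠ p.1 → l ≠ p.2 → ρ (w l) = none) ↔
        (∀ v ∈ (((Finset.univ : Finset Λ).erase p.1).erase p.2).image w, ρ v = none) := by
      constructor
      · intro h v hv
        obtain ⟨l, hl, rfl⟩ := Finset.mem_image.mp hv
        rw [Finset.mem_erase, Finset.mem_erase] at hl
        exact h l hl.2.1 hl.1
      · intro h l h1 h2
        exact h _ (Finset.mem_image_of_mem w (by
          rw [Finset.mem_erase, Finset.mem_erase]
          exact ⟨h2, h1, Finset.mem_univ _⟩))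
    by_cases hc : ∀ l, l ≠ p.1 → l ≠ p.2 → ρ (w l) = none
    · rw [if_pos hc, if_pos (hiff.mp hc)]
    · rw [if_neg hc, if_neg (fun h => hc (hiff.mpr h))]
  rw [Finset.sum_congr rfl h2, Finset.sum_const, nsmul_eq_mul]

theorem card_W2 {E : Λ → Finset V} (e : Λ → V) (p : Λ × Λ) (hp : p.1 ≠ p.2) (e0 : ℕ)
    (he0 : ∀ l, e0 ≤ (E l).card) :
    (W2 E e p).card * e0 ^ 2 ≤ (Fintype.piFinset E).card := by
  unfold W2
  rw [Fintype.card_piFinset, Fintype.card_piFinset]
  have h1 : ∏ l, (E l).card = (∏ l, (if l = p.1 ∨ l = p.2 then ({e l} : Finset V)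
      else E l).card) * ∏ l, (if l ∈ ({p.1, p.2} : Finset Λ) then (E l).card else 1) := by
    rw [← Finset.prod_mul_distrib]
    refine Finset.prod_congr rfl fun l _ => ?_
    by_cases h : l = p.1 ∨ l = p.2
    · have h' : l ∈ ({p.1, p.2} : Finset Λ) := by simpa using h
      rw [if_pos h, if_pos h', Finset.card_singleton, one_mul]
    · have h' : l ∉ ({p.1, p.2} : Finset Λ) := by simpa using h
      rw [if_neg h, if_neg h', mul_one]
  rw [h1]
  refine Nat.mul_le_mul_left _ ?_
  rw [Finset.prod_ite_mem, Finset.univ_inter, Finset.prod_pair hp, pow_two]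
  exact Nat.mul_le_mul (he0 _) (he0 _)

end PAP
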