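import Pool.Agent.helper36.PAP.Switch

/-!
# The switching lemma, conclusion
-/

namespace PAP

open Finset

variable {V : Type} [Fintype V] [DecidableEq V]

/-- `x` extends the partial assignment `τ` -/
def Sat (τ : PA V) (x : V → Bool) : Prop := ∀ v, τ v = none ∨ τ v = some (x v)

/-- the canonical tree -/
theorem tree (L : List (PA V)) (F : (V → Bool) → Bool)
    (hF : ∀ x, F x = true ↔ ∃ τ ∈ L, Sat τ x) :
    ∀ (t : ℕ) (ρ : PA V), (∀ t' ρs, Enc L t' ρ ρs → t' ≤ t) → DT t (fun x => F (app ρ x)) := by
  intro t
  induction t using Nat.strong_induction_on with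
  | _ t ih =>
  intro ρ hρ
  cases hn : nxt L ρ with
  | none =>
    refine DT.const _ _ false (fun x => ?_)
    rw [← Bool.not_eq_true]
    intro hx
    obtain ⟨τ, hτ, hs⟩ := (hF _).mp hx
    unfold nxt at hn
    rw [List.find?_eq_none] at hn
    apply hn τ hτ
    rw [compatb_iff]
    intro v
    rcases hs v with h | h
    · exact Or.inr (Or.inl h)
    · cases h2 : ρ v with
      | none => exact Or.inl rfl
      | some b =>
        right; right
        rw [h]
        simp [app, h2]
  | some τ =>
    have hτL : τ ∈ L := List.mem_of_find?_eq_some hn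
    have hc : compatb ρ τ = true := by
      have := hn
      unfold nxt at this
      exact (List.find?_eq_some_iff_append.mp this).1
    rw [compatb_iff] at hc
    set β : Finset V := Finset.univ.filter (fun v => τ v ≠ none ∧ ρ v = none) with hβ
    have hβm : ∀ v, v ∈ β ↔ (τ v ≠ none ∧ ρ v = none) := by
      intro v
      rw [hβ, Finset.mem_filter]
      exact ⟨fun h => h.2, fun h => ⟨Finset.mem_univ _, h⟩⟩
    rcases Finset.eq_empty_or_nonempty β with he | hne
    · refine DT.const _ _ true (fun x => ?_)
      rw [hF]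
      refine ⟨τ, hτL, fun v => ?_⟩
      by_cases h1 : τ v = none
      · exact Or.inl h1
      · right
        have h2 : ρ v ≠ none := by
          intro h3
          have := (hβm v).mpr ⟨h1, h3⟩
          rw [he] at this
          exact Finset.notMem_empty v this
        have h4 : ρ v = τ v := by
          rcases hc v with h | h | h
          · exact absurd h h2
          · exact absurd h h1
          · exact h
        cases h5 : ρ v with
        | none => exact absurd h5 h2
        | some b => rw [← h4]; simp [app, h5]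
    · have hstep : ∀ (ρ1 : PA V), (∀ v, v ∉ β → ρ1 v = ρ v) → (∀ v ∈ β, ρ1 v ≠ none) →
          ∀ t' ρs, Enc L t' ρ1 ρs → t' + β.card ≤ t := by
        intro ρ1 h1 h2 t' ρs hE
        exact hρ (t' + β.card) (fun v => if v ∈ β then τ v else ρs v)
          (Enc.cons t' _ ρ τ ρ1 ρs _ β hn hβm hne h1 h2 hE rfl (fun v => rfl))
      have hcard : β.card ≤ t := by
        have := hstep (fun v => if v ∈ β then some true else ρ v)
          (fun v hv => if_neg hv) (fun v hv => by
            show (if v ∈ β then some true else ρ v) ≠ none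
            rw [if_pos hv]
            simp) 0 _ (Enc.nil _)
        omega
      have hpos := hne.card_pos
      have hb := DT.block F (t - β.card) β ρ (fun v hv => ((hβm v).mp hv).2)
        (fun ρ1 h1 h2 => ih (t - β.card) (by omega) ρ1 (fun t' ρs hE => by
          have := hstep ρ1 h1 h2 t' ρs hE
          omega))
      rwa [Nat.sub_add_cancel hcard] at hb

theorem geo (t N : ℕ) : ∑ i ∈ Finset.range N, (1 / 4 : ℝ) ^ (t + 1 + i) ≤
    (1 / 3) * (1 / 4) ^ t := by
  have h : ∑ i ∈ Finset.range N, (1 / 4 : ℝ) ^ (t + 1 + i) =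
      (1 / 3) * (1 / 4) ^ t * (1 - (1 / 4) ^ N) := by
    induction N with
    | zero => simp
    | succ n ih =>
      rw [Finset.sum_range_succ, ih]
      ring
  rw [h]
  have h1 : (0 : ℝ) ≤ (1 / 4) ^ N := by positivity
  have h2 : (0 : ℝ) ≤ (1 / 3) * (1 / 4) ^ t := by positivity
  nlinarith

open Classical in
/-- the switching lemma -/
theorem switching (w t : ℕ) (hw : 1 ≤ w) (F : (V → Bool) → Bool)
    (hF : ∀ x, F x = true → ∃ A : Finset V, A.card ≤ w ∧
      ∀ y, (∀ v ∈ A, y v = x v) → F y = true) :
    ∑ ρ : PA V, (if DT t (fun x => F (app ρ x)) then 0 else wt (1 / (40 * (w : ℝ))) ρ) ≤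
      (1 / 3) * (1 / 4) ^ t := by
  have hw' : (1 : ℝ) ≤ w := by exact_mod_cast hw
  set p : ℝ := 1 / (40 * (w : ℝ)) with hp
  have hp0 : 0 < p := by rw [hp]; positivity
  have hp1 : p ≤ 1 / 40 := by
    rw [hp]
    apply one_div_le_one_div_of_le (by norm_num)
    linarith
  have hpw : 4 * (w : ℝ) * p = 1 / 10 := by
    rw [hp]
    field_simp
    norm_num
  set q : ℝ := (1 - p) / 2 with hq
  have hq0 : 39 / 80 ≤ q := by rw [hq]; linarith
  have hqpos : 0 < q := by linarith
  -- the terms
  set L : List (PA V) := (Finset.univ.filter (fun τ : PA V =>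
    (dom τ).card ≤ w ∧ ∀ y, Sat τ y → F y = true)).toList with hL
  have hLm : ∀ τ, τ ∈ L ↔ ((dom τ).card ≤ w ∧ ∀ y, Sat τ y → F y = true) := by
    intro τ
    rw [hL, Finset.mem_toList, Finset.mem_filter]
    exact ⟨fun h => h.2, fun h => ⟨Finset.mem_univ _, h⟩⟩
  have hFL : ∀ x, F x = true ↔ ∃ τ ∈ L, Sat τ x := by
    intro x
    constructor
    · intro hx
      obtain ⟨A, hA, hy⟩ := hF x hx
      refine ⟨fun v => if v ∈ A then some (x v) else none, ?_, ?_⟩
      · rw [hLm]
        refine ⟨?_, fun y hys => hy y (fun v hv => ?_)⟩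
        · refine (Finset.card_le_card ?_).trans hA
          intro v hv
          rw [dom, Finset.mem_filter] at hv
          by_contra hc
          exact hv.2 (if_neg hc)
        · rcases hys v with h | h
          · simp only [if_pos hv] at h
            cases h
          · simp only [if_pos hv] at h
            exact (Option.some.inj h).symm
      · intro v
        by_cases hv : v ∈ A
        · exact Or.inr (if_pos hv)
        · exact Or.inl (if_neg hv)
    · rintro ⟨τ, hτ, hs⟩
      exact ((hLm τ).mp hτ).2 x hs
  have hLw : ∀ τ ∈ L, (dom τ).card ≤ w := fun τ hτ => ((hLm τ).mp hτ).1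
  -- the weight of the restrictions with a path of length `t'`
  have hlen : ∀ t' : ℕ, ∑ ρ : PA V, ∑ ρs : PA V, (if Enc L t' ρ ρs then wt p ρ else 0) ≤
      (1 / 4) ^ t' := by
    intro t'
    rw [Finset.sum_comm]
    have e1 : ∀ ρs : PA V, ∑ ρ : PA V, (if Enc L t' ρ ρs then wt p ρ else 0) ≤
        wt p ρs * (1 / 4) ^ t' := by
      intro ρs
      have e2 : ∀ ρ : PA V, (if Enc L t' ρ ρs then wt p ρ else 0) =
          if Enc L t' ρ ρs then wt p ρs * (p / q) ^ t' else 0 := by
        intro ρ
        split_ifs with h
        · have := h.wt_eq p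
          rw [div_pow, ← mul_div_assoc, eq_div_iff (by positivity)]
          exact this
        · rfl
      rw [Finset.sum_congr rfl (fun ρ _ => e2 ρ), ← Finset.sum_filter, Finset.sum_const,
        nsmul_eq_mul]
      have h1 := card_enc L w hw hLw t' ρs
      have h0 : 0 ≤ wt p ρs := wt_nonneg hp0.le (by linarith) _
      calc ((Finset.univ.filter (fun ρ => Enc L t' ρ ρs)).card : ℝ) *
            (wt p ρs * (p / q) ^ t')
          ≤ (4 * (w : ℝ)) ^ t' * (wt p ρs * (p / q) ^ t') :=
            mul_le_mul_of_nonneg_right h1 (by positivity)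
        _ = wt p ρs * (4 * (w : ℝ) * (p / q)) ^ t' := by rw [mul_pow _ (p / q)]; ring
        _ ≤ wt p ρs * (1 / 4) ^ t' := by
            refine mul_le_mul_of_nonneg_left ?_ h0
            refine pow_le_pow_left₀ (by positivity) ?_ _
            rw [← mul_div_assoc, hpw, div_le_iff₀ hqpos]
            linarith
    refine (Finset.sum_le_sum fun ρs _ => e1 ρs).trans ?_
    rw [← Finset.sum_mul, sum_wt, one_mul]
  -- the bad restrictions
  have hbad : ∀ ρ : PA V, (if DT t (fun x => F (app ρ x)) then 0 else wt p ρ) ≤
      ∑ i ∈ Finset.range (Fintype.card V), ∑ ρs : PA V,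
        (if Enc L (t + 1 + i) ρ ρs then wt p ρ else 0) := by
    intro ρ
    have h0 : 0 ≤ wt p ρ := wt_nonneg hp0.le (by linarith) _
    have hnn : ∀ i ∈ Finset.range (Fintype.card V), 0 ≤ ∑ ρs : PA V,
        (if Enc L (t + 1 + i) ρ ρs then wt p ρ else 0) := by
      intro i _
      refine Finset.sum_nonneg fun ρs _ => ?_
      split_ifs
      · exact h0
      · exact le_refl _
    split_ifs with hd
    · exact Finset.sum_nonneg hnn
    · have : ∃ t' ρs, Enc L t' ρ ρs ∧ t < t' := by
        by_contra hc
        push Not at hc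
        exact hd (tree L F hFL t ρ (fun t' ρs hE => hc t' ρs hE))
      obtain ⟨t', ρs, hE, ht'⟩ := this
      have hcard := hE.le_card
      have hi : t' - (t + 1) ∈ Finset.range (Fintype.card V) := by
        rw [Finset.mem_range]
        omega
      refine le_trans ?_ (Finset.single_le_sum hnn hi)
      have e : t + 1 + (t' - (t + 1)) = t' := by omega
      rw [e]
      have h2 : ∀ ρs' ∈ (Finset.univ : Finset (PA V)),
          0 ≤ (if Enc L t' ρ ρs' then wt p ρ else 0) := by
        intro ρs' _
        split_ifs
        · exact h0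
        · exact le_refl _
      refine le_trans ?_ (Finset.single_le_sum h2 (Finset.mem_univ ρs))
      rw [if_pos hE]
  refine (Finset.sum_le_sum fun ρ _ => hbad ρ).trans ?_
  rw [Finset.sum_comm]
  exact (Finset.sum_le_sum fun i _ => hlen _).trans (geo t _)

end PAP
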