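import Pool.Agent.helper36.PAP.Defs
import Pool.Agent.helper36.PAP.SwitchB

/-!
# Bounded depth circuits and their restrictions
-/

namespace PAP

open Finset

variable {V W : Type} [Fintype V] [DecidableEq V] {d s m : ℕ}

/-- all gates of level `< l` are shallow decision trees under `ρ`; the inputs of the circuit are
the functions `inp` of the variables `V` -/
def Good (C : Circuit W d s m) (inp : (V → Bool) → (W → Bool)) (t l : ℕ) (ρ : PA V) : Prop :=
  ∀ i, (C.lev i : ℕ) < l → DT t (fun x => C.val (inp (app ρ x)) l i)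

omit [Fintype V] in
theorem xor_dt {f : (V → Bool) → Bool} {t : ℕ} (h : DT t f) (c : Bool) :
    DT t (fun x => xor (f x) c) := by
  cases c
  · simpa using h
  · simpa using h.neg

omit [Fintype V] in
theorem wire_dt (inp : (V → Bool) → (W → Bool)) (hinp : ∀ v, DT 1 (fun x => inp x v))
    (g : (V → Bool) → Fin s → Bool) (t : ℕ) (ht : 1 ≤ t) (ρ : PA V)
    (q : (W ⊕ Fin s) × Bool)
    (hq : ∀ j, q.1 = Sum.inr j → DT t (fun x => g (app ρ x) j)) :
    DT t (fun x => wireVal (inp (app ρ x)) (g (app ρ x)) q) := by
  obtain ⟨q1, c⟩ := q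
  rcases q1 with v | j
  · exact xor_dt (((hinp v).restrict ρ).mono ht) c
  · exact xor_dt (hq j rfl) c

open Classical in
theorem gate_step (C : Circuit W d s m) (inp : (V → Bool) → (W → Bool))
    (hinp : ∀ v, DT 1 (fun x => inp x v)) (t : ℕ) (ht : 1 ≤ t) (l : ℕ) (ρ : PA V)
    (hG : Good C inp t l ρ) (i : Fin s) (hi : (C.lev i : ℕ) < l + 1) :
    ∑ σ : PA V, (if DT t (fun x => C.val (inp (app ρ (app σ x))) (l + 1) i) then 0
      else wt (1 / (40 * (t : ℝ))) σ) ≤ (1 / 3) * (1 / 4) ^ t := by
  have hchild : ∀ q ∈ C.wires i, DT t (fun x => wireVal (inp (app ρ x)) (C.val (inp (app ρ x)) l) q) := by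
    intro q hq
    refine wire_dt inp hinp (fun x => C.val (inp x) l) t ht ρ q (fun j hj => hG j ?_)
    have h1 : (Sum.inr j, q.2) ∈ C.wires i := by
      rw [← hj]
      exact hq
    have h2 := C.acyclic i j q.2 h1
    have h3 : (C.lev j : ℕ) < (C.lev i : ℕ) := h2
    omega
  cases ho : C.isOr i with
  | true =>
    refine switching t t ht (fun x => C.val (inp (app ρ x)) (l + 1) i) (fun x hx => ?_)
    have e : ∀ y, C.val (inp (app ρ y)) (l + 1) i =
        decide (∃ q ∈ C.wires i, wireVal (inp (app ρ y)) (C.val (inp (app ρ y)) l) q = true) := by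
      intro y
      simp only [Circuit.val]
      rw [if_pos ho]
    have hx' := hx
    simp only [e] at hx'
    rw [decide_eq_true_iff] at hx'
    obtain ⟨q, hq, hqx⟩ := hx'
    obtain ⟨A, hA, hy⟩ := (hchild q hq).cert x
    refine ⟨A, hA, fun y hyA => ?_⟩
    show C.val (inp (app ρ y)) (l + 1) i = true
    rw [e y, decide_eq_true_iff]
    refine ⟨q, hq, ?_⟩
    have := hy y hyA
    rw [hqx] at this
    exact this
  | false =>
    have e : ∀ y, C.val (inp (app ρ y)) (l + 1) i =
        decide (∀ q ∈ C.wires i, wireVal (inp (app ρ y)) (C.val (inp (app ρ y)) l) q = true) := by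
      intro y
      simp only [Circuit.val]
      rw [if_neg (by rw [ho]; simp)]
    have hsw := switching t t ht (fun x => !(C.val (inp (app ρ x)) (l + 1) i)) (fun x hx => by
      have hx' := hx
      rw [Bool.not_eq_true', e x, decide_eq_false_iff_not] at hx'
      push Not at hx'
      obtain ⟨q, hq, hqx⟩ := hx'
      obtain ⟨A, hA, hy⟩ := (hchild q hq).cert x
      refine ⟨A, hA, fun y hyA => ?_⟩
      show (!(C.val (inp (app ρ y)) (l + 1) i)) = true
      rw [Bool.not_eq_true', e y, decide_eq_false_iff_not]
      push Not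
      refine ⟨q, hq, ?_⟩
      have := hy y hyA
      intro hc
      apply hqx
      rw [← this]
      exact hc)
    refine le_trans (Finset.sum_le_sum fun σ _ => ?_) hsw
    have h0 : 0 ≤ wt (1 / (40 * (t : ℝ))) σ := by
      have ht' : (1 : ℝ) ≤ t := by exact_mod_cast ht
      refine wt_nonneg (by positivity) ?_ σ
      rw [div_le_one (by positivity)]
      linarith
    by_cases h1 : DT t (fun x => !(C.val (inp (app ρ (app σ x))) (l + 1) i))
    · rw [if_pos h1, if_pos]
      have := h1.neg
      simpa using this
    · rw [if_neg h1]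
      split_ifs
      · exact h0
      · exact le_refl _

open Classical in
theorem stage (C : Circuit W d s m) (inp : (V → Bool) → (W → Bool))
    (hinp : ∀ v, DT 1 (fun x => inp x v)) (t : ℕ) (ht : 1 ≤ t) (l : ℕ) :
    ∑ ρ : PA V, (if Good C inp t l ρ then 0 else wt ((1 / (40 * (t : ℝ))) ^ l) ρ) ≤
      l * (s * ((1 / 3) * (1 / 4) ^ t)) := by
  have ht' : (1 : ℝ) ≤ t := by exact_mod_cast ht
  have hp0 : 0 ≤ 1 / (40 * (t : ℝ)) := by positivity
  have hp1 : 1 / (40 * (t : ℝ)) ≤ 1 := by
    rw [div_le_one (by positivity)]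
    linarith
  induction l with
  | zero =>
    rw [Nat.cast_zero, zero_mul]
    refine le_of_eq (Finset.sum_eq_zero fun ρ _ => ?_)
    rw [if_pos]
    intro i hi
    exact absurd hi (Nat.not_lt_zero _)
  | succ l ih =>
    set p : ℝ := 1 / (40 * (t : ℝ)) with hp
    have h1 : ∑ ρ : PA V, (if Good C inp t (l + 1) ρ then 0 else wt (p ^ (l + 1)) ρ) =
        ∑ ρ : PA V, ∑ σ : PA V, wt (p ^ l) ρ * wt p σ *
          (if Good C inp t (l + 1) (cmp ρ σ) then 0 else 1) := by
      rw [sum_cmp (p ^ l) p (fun τ => if Good C inp t (l + 1) τ then 0 else 1), pow_succ]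
      refine Finset.sum_congr rfl fun τ _ => ?_
      split_ifs <;> simp
    rw [h1]
    have h2 : ∀ ρ : PA V, ∑ σ : PA V, wt (p ^ l) ρ * wt p σ *
          (if Good C inp t (l + 1) (cmp ρ σ) then 0 else 1) ≤
        (if Good C inp t l ρ then 0 else wt (p ^ l) ρ) +
          wt (p ^ l) ρ * (s * ((1 / 3) * (1 / 4) ^ t)) := by
      intro ρ
      have hw0 : 0 ≤ wt (p ^ l) ρ := wt_nonneg (by positivity) (pow_le_one₀ hp0 hp1) ρ
      have hwσ : ∀ σ : PA V, 0 ≤ wt p σ := fun σ => wt_nonneg hp0 hp1 σ
      by_cases hG : Good C inp t l ρ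
      · rw [if_pos hG, zero_add]
        have h3 : ∀ σ : PA V, wt (p ^ l) ρ * wt p σ *
              (if Good C inp t (l + 1) (cmp ρ σ) then 0 else 1) ≤
            wt (p ^ l) ρ * ∑ i : Fin s, (if (C.lev i : ℕ) < l + 1 then
              (if DT t (fun x => C.val (inp (app ρ (app σ x))) (l + 1) i) then 0 else wt p σ)
              else 0) := by
          intro σ
          rw [mul_assoc]
          refine mul_le_mul_of_nonneg_left ?_ hw0
          have hnn : ∀ i ∈ (Finset.univ : Finset (Fin s)), 0 ≤ (if (C.lev i : ℕ) < l + 1 then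
              (if DT t (fun x => C.val (inp (app ρ (app σ x))) (l + 1) i) then 0 else wt p σ)
              else 0) := by
            intro i _
            split_ifs
            · exact le_refl _
            · exact hwσ σ
            · exact le_refl _
          by_cases hg : Good C inp t (l + 1) (cmp ρ σ)
          · rw [if_pos hg, mul_zero]
            exact Finset.sum_nonneg hnn
          · rw [if_neg hg, mul_one]
            unfold Good at hg
            push Not at hg
            obtain ⟨i, hi, hd⟩ := hg
            refine le_trans ?_ (Finset.single_le_sum hnn (Finset.mem_univ i))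
            rw [if_pos hi, if_neg]
            intro hc
            apply hd
            simp only [app_cmp]
            exact hc
        refine (Finset.sum_le_sum fun σ _ => h3 σ).trans ?_
        rw [← Finset.mul_sum]
        refine mul_le_mul_of_nonneg_left ?_ hw0
        rw [Finset.sum_comm]
        have h4 : ∀ i ∈ (Finset.univ : Finset (Fin s)), ∑ σ : PA V,
            (if (C.lev i : ℕ) < l + 1 then
              (if DT t (fun x => C.val (inp (app ρ (app σ x))) (l + 1) i) then 0 else wt p σ)
              else 0) ≤ (1 / 3) * (1 / 4) ^ t := by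
          intro i _
          by_cases hi : (C.lev i : ℕ) < l + 1
          · have := gate_step C inp hinp t ht l ρ hG i hi
            refine le_trans (le_of_eq ?_) this
            refine Finset.sum_congr rfl fun σ _ => ?_
            rw [if_pos hi]
          · rw [Finset.sum_eq_zero (fun σ _ => if_neg hi)]
            positivity
        refine (Finset.sum_le_sum h4).trans ?_
        rw [Finset.sum_const, Finset.card_univ, Fintype.card_fin, nsmul_eq_mul]
      · rw [if_neg hG]
        have h5 : ∑ σ : PA V, wt (p ^ l) ρ * wt p σ *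
              (if Good C inp t (l + 1) (cmp ρ σ) then 0 else 1) ≤
            ∑ σ : PA V, wt (p ^ l) ρ * wt p σ := by
          refine Finset.sum_le_sum fun σ _ => ?_
          have := mul_nonneg hw0 (hwσ σ)
          split_ifs
          · simpa using this
          · rw [mul_one]
        rw [← Finset.mul_sum, sum_wt, mul_one] at h5
        refine h5.trans ?_
        have : 0 ≤ wt (p ^ l) ρ * (s * ((1 / 3) * (1 / 4) ^ t)) := by positivity
        linarith
    refine (Finset.sum_le_sum fun ρ _ => h2 ρ).trans ?_
    rw [Finset.sum_add_distrib, ← Finset.sum_mul, sum_wt, one_mul]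
    push_cast
    linarith

end PAP
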