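import Mathlib

/-!
# Counting pairs without common prime factor at least `5`
-/

namespace PAP

open Finset

theorem card_resid (X D : ℕ) (_hD : 0 < D) (S : Finset ℕ) (hS : ∀ x ∈ S, x < X)
    (h : ∀ x ∈ S, ∀ y ∈ S, x ≡ y [MOD D]) : (S.card : ℝ) ≤ X / D + 1 := by
  have h1 : S.card ≤ (Finset.range (X / D + 1)).card := by
    refine Finset.card_le_card_of_injOn (fun x => x / D) ?_ ?_
    · intro x hx
      have := hS x hx
      simp only [Finset.coe_range, Set.mem_Iio]
      exact Nat.lt_succ_of_le (Nat.div_le_div_right this.le)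
    · intro x hx y hy hxy
      have h2 : x % D = y % D := h x hx y hy
      have h3 : x / D = y / D := hxy
      rw [← Nat.div_add_mod x D, ← Nat.div_add_mod y D, h2, h3]
  rw [Finset.card_range] at h1
  calc (S.card : ℝ) ≤ ((X / D + 1 : ℕ) : ℝ) := by exact_mod_cast h1
    _ ≤ X / D + 1 := by
      push_cast
      have := @Nat.cast_div_le ℝ _ _ _ X D
      linarith

theorem card_class (X D : ℕ) (hD : 0 < D) (α r : ℕ) (hr : r < D) :
    (X : ℝ) / D - 1 ≤ (((Finset.range X).filter (fun u => (α + u) % D = r)).card : ℝ) := by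
  have h1 : (Finset.range (X / D)).card ≤
      ((Finset.range X).filter (fun u => (α + u) % D = r)).card := by
    refine Finset.card_le_card_of_injOn (fun i => D * i + (r + (D - α % D)) % D) ?_ ?_
    · intro i hi
      simp only [Finset.coe_range, Set.mem_Iio] at hi
      simp only [Finset.coe_filter, Finset.mem_range, Set.mem_ofPred_eq]
      have h2 : (r + (D - α % D)) % D < D := Nat.mod_lt _ hD
      have h3 : D * (i + 1) ≤ D * (X / D) := Nat.mul_le_mul_left D hi
      have h4 : D * (X / D) ≤ X := Nat.mul_div_le X D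
      refine ⟨by rw [mul_add] at h3; omega, ?_⟩
      have h5 : α + (D * i + (r + (D - α % D)) % D) ≡ r [MOD D] := by
        have h6 : α % D < D := Nat.mod_lt _ hD
        calc α + (D * i + (r + (D - α % D)) % D)
            ≡ α % D + (0 + (r + (D - α % D))) [MOD D] := by
              refine Nat.ModEq.add (Nat.mod_modEq α D).symm (Nat.ModEq.add ?_ (Nat.mod_modEq _ _))
              exact (Nat.modEq_zero_iff_dvd.mpr (Dvd.intro _ rfl))
          _ = r + D := by omega
          _ ≡ r [MOD D] := Nat.add_modEq_right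
      have h7 : (α + (D * i + (r + (D - α % D)) % D)) % D = r % D := h5
      rw [h7, Nat.mod_eq_of_lt hr]
    · intro i _ j _ hij
      simp only [add_left_inj] at hij
      exact Nat.eq_of_mul_eq_mul_left hD hij
  rw [Finset.card_range] at h1
  have h2 : (X : ℝ) / D - 1 ≤ ((X / D : ℕ) : ℝ) := by
    have h3 : (X : ℝ) / D < (X / D : ℕ) + 1 := by
      rw [div_lt_iff₀ (by exact_mod_cast hD)]
      have h4 := Nat.div_add_mod X D
      have h5 := Nat.mod_lt X hD
      have h6 : X < (X / D + 1) * D := by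
        rw [add_mul, one_mul, mul_comm]
        omega
      exact_mod_cast h6
    linarith
  calc (X : ℝ) / D - 1 ≤ ((X / D : ℕ) : ℝ) := h2
    _ ≤ _ := by exact_mod_cast h1

theorem sum_odd (n : ℕ) : ∑ i ∈ Finset.range n, (1 : ℝ) / ((2 * i + 5 : ℝ) ^ 2) ≤ 1 / 8 := by
  have h : ∑ i ∈ Finset.range n, (1 : ℝ) / ((2 * i + 5 : ℝ) ^ 2) ≤
      (1 / 2) * (1 / 4 - 1 / (2 * n + 4)) := by
    induction n with
    | zero => norm_num
    | succ n ih =>
      rw [Finset.sum_range_succ]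
      have h1 : (1 : ℝ) / ((2 * n + 5 : ℝ) ^ 2) ≤
          (1 / 2) * (1 / (2 * n + 4) - 1 / (2 * (n + 1) + 4)) := by
        have e : (1 / 2 : ℝ) * (1 / (2 * n + 4) - 1 / (2 * (n + 1) + 4)) =
            1 / ((2 * n + 4) * (2 * n + 6)) := by
          field_simp
          ring
        rw [e]
        apply one_div_le_one_div_of_le
        · positivity
        · nlinarith
      push_cast
      linarith
  have h2 : (0 : ℝ) ≤ 1 / (2 * n + 4) := by positivity
  linarith

open Classical in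
/-- pairs with a common prime factor `q`, `5 ≤ q`, `q = 2 i + 5` -/
theorem small_primes (X α0 ν0 α ν : ℕ) :
    (((Finset.range X ×ˢ Finset.range X).filter (fun p : ℕ × ℕ => (α0 + p.1) % 3 = 1 ∧
      (ν0 + p.2) % 6 = 3 ∧ ∃ q : ℕ, q.Prime ∧ 5 ≤ q ∧ q ≤ X ∧ q ∣ α + p.1 ∧ q ∣ ν + p.2)).card : ℝ) ≤
      (21 / 2880) * (X : ℝ) ^ 2 + (47 / 2) * X := by
  set Y : ℕ → Finset (ℕ × ℕ) := fun i =>
    if (2 * i + 5).Prime then
      ((Finset.range X).filter (fun u => (α0 + u) % 3 = 1 ∧ (2 * i + 5) ∣ α + u)) ×ˢ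
      ((Finset.range X).filter (fun v => (ν0 + v) % 6 = 3 ∧ (2 * i + 5) ∣ ν + v)) else ∅ with hY
  have hsub : ((Finset.range X ×ˢ Finset.range X).filter (fun p : ℕ × ℕ => (α0 + p.1) % 3 = 1 ∧
      (ν0 + p.2) % 6 = 3 ∧ ∃ q : ℕ, q.Prime ∧ 5 ≤ q ∧ q ≤ X ∧ q ∣ α + p.1 ∧ q ∣ ν + p.2)) ⊆
      (Finset.range X).biUnion Y := by
    intro p hp
    rw [Finset.mem_filter, Finset.mem_product] at hp
    obtain ⟨⟨hu, hv⟩, h3, h6, q, hq, h5, hqX, hqu, hqv⟩ := hp
    have hodd : q % 2 = 1 := by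
      rcases hq.eq_two_or_odd with h | h
      · omega
      · exact h
    rw [Finset.mem_biUnion]
    refine ⟨(q - 5) / 2, Finset.mem_range.mpr (by omega), ?_⟩
    have e : 2 * ((q - 5) / 2) + 5 = q := by omega
    rw [hY]
    simp only
    rw [e, if_pos hq, Finset.mem_product, Finset.mem_filter, Finset.mem_filter]
    exact ⟨⟨hu, h3, hqu⟩, ⟨hv, h6, hqv⟩⟩
  have hcard : ∀ i ∈ Finset.range X, ((Y i).card : ℝ) ≤
      (21 / 360) * (X : ℝ) ^ 2 * (1 / ((2 * i + 5 : ℝ) ^ 2)) + 47 / 2 := by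
    intro i _
    have hq0 : (0 : ℝ) < 2 * i + 5 := by positivity
    have hX0 : (0 : ℝ) ≤ X := by positivity
    rw [hY]
    simp only
    by_cases hp : (2 * i + 5).Prime
    · rw [if_pos hp, Finset.card_product]
      have c3 : Nat.Coprime 3 (2 * i + 5) := by
        rw [Nat.coprime_primes Nat.prime_three hp]
        omega
      have c6 : Nat.Coprime 6 (2 * i + 5) := by
        have c2 : Nat.Coprime 2 (2 * i + 5) := by
          rw [Nat.coprime_primes Nat.prime_two hp]
          omega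
        have := Nat.Coprime.mul_left c2 c3
        simpa using this
      have b1 := card_resid X (3 * (2 * i + 5)) (by omega)
        ((Finset.range X).filter (fun u => (α0 + u) % 3 = 1 ∧ (2 * i + 5) ∣ α + u))
        (fun x hx => Finset.mem_range.mp (Finset.mem_filter.mp hx).1) (fun x hx y hy => by
          obtain ⟨_, hx1, hx2⟩ := Finset.mem_filter.mp hx
          obtain ⟨_, hy1, hy2⟩ := Finset.mem_filter.mp hy
          refine (Nat.modEq_and_modEq_iff_modEq_mul c3).mp ⟨?_, ?_⟩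
          · have : α0 + x ≡ α0 + y [MOD 3] := by
              show (α0 + x) % 3 = (α0 + y) % 3
              rw [hx1, hy1]
            exact Nat.ModEq.add_left_cancel' α0 this
          · have : α + x ≡ α + y [MOD (2 * i + 5)] :=
              (Nat.modEq_zero_iff_dvd.mpr hx2).trans (Nat.modEq_zero_iff_dvd.mpr hy2).symm
            exact Nat.ModEq.add_left_cancel' α this)
      have b2 := card_resid X (6 * (2 * i + 5)) (by omega)
        ((Finset.range X).filter (fun v => (ν0 + v) % 6 = 3 ∧ (2 * i + 5) ∣ ν + v))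
        (fun x hx => Finset.mem_range.mp (Finset.mem_filter.mp hx).1) (fun x hx y hy => by
          obtain ⟨_, hx1, hx2⟩ := Finset.mem_filter.mp hx
          obtain ⟨_, hy1, hy2⟩ := Finset.mem_filter.mp hy
          refine (Nat.modEq_and_modEq_iff_modEq_mul c6).mp ⟨?_, ?_⟩
          · have : ν0 + x ≡ ν0 + y [MOD 6] := by
              show (ν0 + x) % 6 = (ν0 + y) % 6
              rw [hx1, hy1]
            exact Nat.ModEq.add_left_cancel' ν0 this
          · have : ν + x ≡ ν + y [MOD (2 * i + 5)] :=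
              (Nat.modEq_zero_iff_dvd.mpr hx2).trans (Nat.modEq_zero_iff_dvd.mpr hy2).symm
            exact Nat.ModEq.add_left_cancel' ν this)
      push_cast at b1 b2 ⊢
      set Z : ℝ := X / (2 * i + 5) with hZ
      have e1 : (X : ℝ) / (3 * (2 * i + 5)) = Z / 3 := by
        rw [hZ]
        field_simp
      have e2 : (X : ℝ) / (6 * (2 * i + 5)) = Z / 6 := by
        rw [hZ]
        field_simp
      have e3 : (21 / 360) * (X : ℝ) ^ 2 * (1 / ((2 * i + 5 : ℝ) ^ 2)) = (21 / 360) * Z ^ 2 := by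
        rw [hZ, div_pow]
        ring
      have hZ0 : 0 ≤ Z := by rw [hZ]; positivity
      rw [e1] at b1
      rw [e2] at b2
      rw [e3]
      refine (mul_le_mul b1 b2 (by positivity) (by positivity)).trans ?_
      nlinarith [sq_nonneg (Z / 90 - 1)]
    · rw [if_neg hp, Finset.card_empty, Nat.cast_zero]
      positivity
  calc (((Finset.range X ×ˢ Finset.range X).filter (fun p : ℕ × ℕ => (α0 + p.1) % 3 = 1 ∧
      (ν0 + p.2) % 6 = 3 ∧ ∃ q : ℕ, q.Prime ∧ 5 ≤ q ∧ q ≤ X ∧ q ∣ α + p.1 ∧ q ∣ ν + p.2)).card : ℝ)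
      ≤ ((∑ i ∈ Finset.range X, (Y i).card : ℕ) : ℝ) := by
        exact_mod_cast (Finset.card_le_card hsub).trans Finset.card_biUnion_le
    _ = ∑ i ∈ Finset.range X, ((Y i).card : ℝ) := by push_cast; rfl
    _ ≤ ∑ i ∈ Finset.range X,
        ((21 / 360) * (X : ℝ) ^ 2 * (1 / ((2 * i + 5 : ℝ) ^ 2)) + 47 / 2) :=
        Finset.sum_le_sum hcard
    _ = (21 / 360) * (X : ℝ) ^ 2 * (∑ i ∈ Finset.range X, 1 / ((2 * i + 5 : ℝ) ^ 2)) +
        (47 / 2) * X := by
        rw [Finset.sum_add_distrib, ← Finset.mul_sum, Finset.sum_const, Finset.card_range,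
          nsmul_eq_mul]
        ring
    _ ≤ (21 / 360) * (X : ℝ) ^ 2 * (1 / 8) + (47 / 2) * X := by
        have := mul_le_mul_of_nonneg_left (sum_odd X)
          (show (0 : ℝ) ≤ (21 / 360) * (X : ℝ) ^ 2 by positivity)
        linarith
    _ = _ := by ring

open Classical in
theorem large_primes (X α ν : ℕ) (hα : 1 ≤ α) (hX : 1 ≤ X) (hα2 : α + X ≤ X ^ 3) :
    ((Finset.range X ×ˢ Finset.range X).filter (fun p : ℕ × ℕ =>
      ∃ q : ℕ, q.Prime ∧ X < q ∧ q ∣ α + p.1 ∧ q ∣ ν + p.2)).card ≤ 2 * X := by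
  set W : ℕ → Finset ℕ := fun u => (α + u).primeFactors.filter (fun q => X < q) with hW
  have hsub : ((Finset.range X ×ˢ Finset.range X).filter (fun p : ℕ × ℕ =>
      ∃ q : ℕ, q.Prime ∧ X < q ∧ q ∣ α + p.1 ∧ q ∣ ν + p.2)) ⊆
      (Finset.range X).biUnion (fun u => (W u).biUnion (fun q =>
        ((Finset.range X).filter (fun v => q ∣ ν + v)).image (fun v => (u, v)))) := by
    intro p hp
    rw [Finset.mem_filter, Finset.mem_product] at hp
    obtain ⟨⟨hu, hv⟩, q, hq, hXq, hqu, hqv⟩ := hp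
    rw [Finset.mem_biUnion]
    refine ⟨p.1, hu, ?_⟩
    rw [Finset.mem_biUnion]
    refine ⟨q, ?_, ?_⟩
    · rw [hW, Finset.mem_filter, Nat.mem_primeFactors]
      exact ⟨⟨hq, hqu, by omega⟩, hXq⟩
    · rw [Finset.mem_image]
      exact ⟨p.2, Finset.mem_filter.mpr ⟨hv, hqv⟩, rfl⟩
  have hWc : ∀ u ∈ Finset.range X, (W u).card ≤ 2 := by
    intro u hu
    rw [Finset.mem_range] at hu
    by_contra hc
    push Not at hc
    have h1 : X ^ (W u).card ≤ ∏ q ∈ W u, q :=
      Finset.pow_card_le_prod (W u) (fun q => q) X (fun q hq => (Finset.mem_filter.mp hq).2.le)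
    have h2 : ∏ q ∈ W u, q ∣ ∏ q ∈ (α + u).primeFactors, q :=
      Finset.prod_dvd_prod_of_subset _ _ _ (Finset.filter_subset _ _)
    have h3 := (h2.trans (Nat.prod_primeFactors_dvd (α + u)))
    have h4 := Nat.le_of_dvd (by omega) h3
    have h5 : X ^ 3 ≤ X ^ (W u).card := Nat.pow_le_pow_right hX hc
    omega
  refine (Finset.card_le_card hsub).trans (Finset.card_biUnion_le.trans ?_)
  have h6 : ∀ u ∈ Finset.range X, ((W u).biUnion (fun q =>
        ((Finset.range X).filter (fun v => q ∣ ν + v)).image (fun v => (u, v)))).card ≤ 2 := by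
    intro u hu
    refine Finset.card_biUnion_le.trans ?_
    have h7 : ∀ q ∈ W u, (((Finset.range X).filter (fun v => q ∣ ν + v)).image
        (fun v => (u, v))).card ≤ 1 := by
      intro q hq
      refine Finset.card_image_le.trans ?_
      rw [Finset.card_le_one]
      intro v hv w hw
      rw [Finset.mem_filter, Finset.mem_range] at hv hw
      have hXq : X < q := (Finset.mem_filter.mp hq).2
      have h8 : ν + v ≡ ν + w [MOD q] :=
        (Nat.modEq_zero_iff_dvd.mpr hv.2).trans (Nat.modEq_zero_iff_dvd.mpr hw.2).symm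
      have h9 := Nat.ModEq.add_left_cancel' ν h8
      exact Nat.ModEq.eq_of_lt_of_lt h9 (by omega) (by omega)
    refine (Finset.sum_le_sum h7).trans ?_
    rw [Finset.sum_const, smul_eq_mul, mul_one]
    exact hWc u hu
  refine (Finset.sum_le_sum h6).trans ?_
  rw [Finset.sum_const, Finset.card_range, smul_eq_mul, mul_comm]

open Classical in
theorem cnt (X : ℕ) (hX : 2 ^ 17 ≤ X) (α0 ν0 : ℕ) (I : Finset (ℕ × ℕ)) (hI : I.card ≤ 6)
    (hα : ∀ p ∈ I, 1 ≤ p.1 ∧ p.1 + X ≤ X ^ 3) :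
    (X : ℝ) ^ 2 / 100 ≤ (((Finset.range X ×ˢ Finset.range X).filter (fun w : ℕ × ℕ =>
      (α0 + w.1) % 3 = 1 ∧ (ν0 + w.2) % 6 = 3 ∧
        ∀ p ∈ I, ∀ q : ℕ, q.Prime → 5 ≤ q → ¬ (q ∣ p.1 + w.1 ∧ q ∣ p.2 + w.2))).card : ℝ) := by
  set Good := (Finset.range X ×ˢ Finset.range X).filter (fun w : ℕ × ℕ =>
      (α0 + w.1) % 3 = 1 ∧ (ν0 + w.2) % 6 = 3 ∧
        ∀ p ∈ I, ∀ q : ℕ, q.Prime → 5 ≤ q → ¬ (q ∣ p.1 + w.1 ∧ q ∣ p.2 + w.2)) with hGood
  set All := (((Finset.range X).filter (fun u => (α0 + u) % 3 = 1)) ×ˢ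
      ((Finset.range X).filter (fun v => (ν0 + v) % 6 = 3))) with hAll
  set B1 : ℕ × ℕ → Finset (ℕ × ℕ) := fun p => (Finset.range X ×ˢ Finset.range X).filter
    (fun w : ℕ × ℕ => (α0 + w.1) % 3 = 1 ∧ (ν0 + w.2) % 6 = 3 ∧
      ∃ q : ℕ, q.Prime ∧ 5 ≤ q ∧ q ≤ X ∧ q ∣ p.1 + w.1 ∧ q ∣ p.2 + w.2) with hB1
  set B2 : ℕ × ℕ → Finset (ℕ × ℕ) := fun p => (Finset.range X ×ˢ Finset.range X).filter
    (fun w : ℕ × ℕ => ∃ q : ℕ, q.Prime ∧ X < q ∧ q ∣ p.1 + w.1 ∧ q ∣ p.2 + w.2) with hB2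
  have hsub : All ⊆ Good ∪ I.biUnion (fun p => B1 p ∪ B2 p) := by
    intro w hw
    rw [hAll, Finset.mem_product, Finset.mem_filter, Finset.mem_filter] at hw
    obtain ⟨⟨hu, h3⟩, hv, h6⟩ := hw
    rw [Finset.mem_union]
    by_cases hg : ∀ p ∈ I, ∀ q : ℕ, q.Prime → 5 ≤ q → ¬ (q ∣ p.1 + w.1 ∧ q ∣ p.2 + w.2)
    · left
      rw [hGood, Finset.mem_filter, Finset.mem_product]
      exact ⟨⟨hu, hv⟩, h3, h6, hg⟩
    · right
      push Not at hg
      obtain ⟨p, hp, q, hq, h5, hq1, hq2⟩ := hg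
      rw [Finset.mem_biUnion]
      refine ⟨p, hp, ?_⟩
      rw [Finset.mem_union]
      by_cases hqX : q ≤ X
      · left
        rw [hB1, Finset.mem_filter, Finset.mem_product]
        exact ⟨⟨hu, hv⟩, h3, h6, q, hq, h5, hqX, hq1, hq2⟩
      · right
        rw [hB2, Finset.mem_filter, Finset.mem_product]
        exact ⟨⟨hu, hv⟩, q, hq, by omega, hq1, hq2⟩
  have h1 : (All.card : ℝ) ≤ Good.card + ∑ p ∈ I, (((B1 p).card : ℝ) + ((B2 p).card : ℝ)) := by
    have h2 : All.card ≤ Good.card + ∑ p ∈ I, ((B1 p).card + (B2 p).card) := by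
      refine (Finset.card_le_card hsub).trans ((Finset.card_union_le _ _).trans ?_)
      refine Nat.add_le_add_left (Finset.card_biUnion_le.trans ?_) _
      exact Finset.sum_le_sum fun p _ => Finset.card_union_le _ _
    exact_mod_cast h2
  have hX1 : (131072 : ℝ) ≤ X := by
    have : 131072 ≤ X := le_trans (by norm_num) hX
    exact_mod_cast this
  have h2 : ∀ p ∈ I, (((B1 p).card : ℝ) + ((B2 p).card : ℝ)) ≤
      (21 / 2880) * (X : ℝ) ^ 2 + (51 / 2) * X := by
    intro p hp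
    have c1 := small_primes X α0 ν0 p.1 p.2
    have c2 : ((B2 p).card : ℝ) ≤ 2 * X := by
      exact_mod_cast large_primes X p.1 p.2 (hα p hp).1 (by omega) (hα p hp).2
    linarith
  have h3 : ∑ p ∈ I, (((B1 p).card : ℝ) + ((B2 p).card : ℝ)) ≤
      6 * ((21 / 2880) * (X : ℝ) ^ 2 + (51 / 2) * X) := by
    refine (Finset.sum_le_sum h2).trans ?_
    rw [Finset.sum_const, nsmul_eq_mul]
    refine mul_le_mul_of_nonneg_right ?_ (by positivity)
    exact_mod_cast hI
  have h4 : ((X : ℝ) / 3 - 1) * ((X : ℝ) / 6 - 1) ≤ All.card := by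
    have d1 := card_class X 3 (by norm_num) α0 1 (by norm_num)
    have d2 := card_class X 6 (by norm_num) ν0 3 (by norm_num)
    rw [hAll, Finset.card_product]
    push_cast at d1 d2 ⊢
    exact mul_le_mul d1 d2 (by linarith) (by positivity)
  nlinarith [h1, h3, h4]

end PAP
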