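import Pool.Agent.helper36.PAP.Bad

/-!
# The core argument

If all output bits are simple on a subcube in the directions `a_i`, `a_i'`, `n_j`, then the output
is an additive function on the subcube, and this contradicts correctness modulo `3`.
-/

namespace PAP

open Finset

theorem num_update_true {k : ℕ} (b : Fin k → Bool) (i : Fin k) :
    num (Function.update b i true) = num (Function.update b i false) + 2 ^ (i : ℕ) := by
  unfold num
  rw [← Finset.add_sum_erase _ _ (Finset.mem_univ i), ← Finset.add_sum_erase _ _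
    (Finset.mem_univ i)]
  have h : ∀ c : Bool, ∑ j ∈ Finset.univ.erase i,
      (if Function.update b i c j = true then 2 ^ (j : ℕ) else 0) =
      ∑ j ∈ Finset.univ.erase i, (if b j = true then 2 ^ (j : ℕ) else 0) := by
    intro c
    refine Finset.sum_congr rfl fun j hj => ?_
    rw [Function.update_of_ne (Finset.mem_erase.mp hj).1]
  rw [h, h]
  simp
  ring

theorem num_lt {k : ℕ} (b : Fin k → Bool) : num b < 2 ^ k := by
  unfold num
  have h1 : ∑ i : Fin k, (if b i = true then 2 ^ (i : ℕ) else 0) ≤ ∑ i : Fin k, 2 ^ (i : ℕ) := by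
    refine Finset.sum_le_sum fun i _ => ?_
    split_ifs
    · exact le_refl _
    · exact Nat.zero_le _
  have h2 : ∑ i : Fin k, 2 ^ (i : ℕ) < 2 ^ k := by
    rw [Fin.sum_univ_eq_sum_range (fun i => 2 ^ i) k]
    exact Nat.geomSum_lt (le_refl 2) (fun i hi => Finset.mem_range.mp hi)
  omega

/-- the three directions -/
def tri {k : ℕ} (q : Fin k × Fin k × Fin k) : Finset (Fin k ⊕ Fin k) :=
  {Sum.inl q.1, Sum.inl q.2.1, Sum.inr q.2.2}

theorem card_tri {k : ℕ} (q : Fin k × Fin k × Fin k) (h : q.1 ≠ q.2.1) : (tri q).card = 3 := by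
  unfold tri
  rw [Finset.card_eq_three]
  exact ⟨_, _, _, by simpa using h, by simp, by simp, rfl⟩

/-- the points of the subcube -/
def pt {k : ℕ} (q : Fin k × Fin k × Fin k) (x : Fin k ⊕ Fin k → Bool) (e1 e2 z : Bool) :
    Fin k ⊕ Fin k → Bool :=
  Function.update (Function.update (Function.update x (Sum.inl q.1) e1) (Sum.inl q.2.1) e2)
    (Sum.inr q.2.2) z

theorem pt_cube {k : ℕ} (q : Fin k × Fin k × Fin k) (x : Fin k ⊕ Fin k → Bool)
    (e1 e2 z : Bool) : Cube (tri q) x (pt q x e1 e2 z) := by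
  intro v hv
  simp only [tri, Finset.mem_insert, Finset.mem_singleton, not_or] at hv
  unfold pt
  rw [Function.update_of_ne hv.2.2, Function.update_of_ne hv.2.1, Function.update_of_ne hv.1]

theorem pt_a {k : ℕ} (q : Fin k × Fin k × Fin k) (x : Fin k ⊕ Fin k → Bool) (e1 e2 z : Bool) :
    (fun i => pt q x e1 e2 z (Sum.inl i)) =
      Function.update (Function.update (fun i => x (Sum.inl i)) q.1 e1) q.2.1 e2 := by
  funext i
  unfold pt
  rw [Function.update_of_ne (by simp)]
  simp [Function.update_apply]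

theorem pt_n {k : ℕ} (q : Fin k × Fin k × Fin k) (x : Fin k ⊕ Fin k → Bool) (e1 e2 z : Bool) :
    (fun i => pt q x e1 e2 z (Sum.inr i)) =
      Function.update (fun i => x (Sum.inr i)) q.2.2 z := by
  funext i
  unfold pt
  simp [Function.update_apply]

/-- the value of a bit -/
def bv (c : Bool) : ℕ := if c = true then 1 else 0

theorem aOf_pt {k : ℕ} (q : Fin k × Fin k × Fin k) (h : q.1 ≠ q.2.1)
    (x : Fin k ⊕ Fin k → Bool) (e1 e2 z : Bool) :
    aOf (pt q x e1 e2 z) =
      aOf (pt q x false false false) + bv e1 * 2 ^ (q.1 : ℕ) + bv e2 * 2 ^ (q.2.1 : ℕ) := by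
  unfold aOf
  rw [pt_a, pt_a]
  set b : Fin k → Bool := fun i => x (Sum.inl i)
  have h2 : ∀ e, num (Function.update (Function.update b q.1 e) q.2.1 false) =
      num (Function.update (Function.update b q.1 false) q.2.1 false) + bv e * 2 ^ (q.1 : ℕ) := by
    intro e
    cases e
    · simp [bv]
    · rw [Function.update_comm h, num_update_true, Function.update_comm h]
      simp [bv]
  cases e2
  · rw [h2 e1]
    simp [bv]
  · rw [num_update_true, h2 e1]
    simp [bv]

theorem nOf_pt {k : ℕ} (q : Fin k × Fin k × Fin k)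
    (x : Fin k ⊕ Fin k → Bool) (e1 e2 z : Bool) :
    nOf (pt q x e1 e2 z) = nOf (pt q x false false false) + bv z * 2 ^ (q.2.2 : ℕ) := by
  unfold nOf
  rw [pt_n, pt_n]
  cases z
  · simp [bv]
  · rw [num_update_true]
    simp [bv]

/-- the six pairs that are used -/
def offs {k : ℕ} (q : Fin k × Fin k × Fin k) : Finset (ℕ × ℕ) :=
  {(0, 0), (2 ^ (q.1 : ℕ), 0), (2 ^ (q.2.1 : ℕ), 0), (0, 2 ^ (q.2.2 : ℕ)),
    (2 ^ (q.1 : ℕ), 2 ^ (q.2.2 : ℕ)), (2 ^ (q.1 : ℕ) + 2 ^ (q.2.1 : ℕ), 2 ^ (q.2.2 : ℕ))}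

theorem card_offs {k : ℕ} (q : Fin k × Fin k × Fin k) : (offs q).card ≤ 6 := by
  unfold offs
  exact Finset.card_le_six

/-- the subcube is useful -/
def Valid {k : ℕ} (q : Fin k × Fin k × Fin k) (x : Fin k ⊕ Fin k → Bool) : Prop :=
  (∀ e1 e2 z, 3 < aOf (pt q x e1 e2 z) ∧ aOf (pt q x e1 e2 z) < nOf (pt q x e1 e2 z)) ∧
  aOf (pt q x false false false) % 3 = 1 ∧ nOf (pt q x false false false) % 6 = 3 ∧
  ∀ p ∈ offs q, ∀ r : ℕ, r.Prime → 5 ≤ r →
    ¬ (r ∣ p.1 + aOf (pt q x false false false) ∧ r ∣ p.2 + nOf (pt q x false false false))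

theorem two_pow_even (i : ℕ) (h : i % 2 = 0) : 2 ^ i % 3 = 1 := by
  obtain ⟨j, rfl⟩ : ∃ j, i = 2 * j := ⟨i / 2, by omega⟩
  rw [pow_mul, Nat.pow_mod]
  simp

theorem two_pow_ne (i : ℕ) : 2 ^ i % 3 ≠ 0 := by
  intro h
  have := Nat.Prime.dvd_of_dvd_pow Nat.prime_three (Nat.dvd_of_mod_eq_zero h)
  omega

theorem coprime_of {a n : ℕ} (h2 : ¬ (2 ∣ n)) (h3 : ¬ (3 ∣ a ∧ 3 ∣ n))
    (h5 : ∀ r : ℕ, r.Prime → 5 ≤ r → ¬ (r ∣ a ∧ r ∣ n)) : Nat.Coprime a n := by
  rw [Nat.coprime_iff_gcd_eq_one]
  by_contra hg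
  obtain ⟨r, hr, hrd⟩ := Nat.exists_prime_and_dvd hg
  have ha := hrd.trans (Nat.gcd_dvd_left a n)
  have hn := hrd.trans (Nat.gcd_dvd_right a n)
  rcases Nat.lt_or_ge r 5 with h | h
  · interval_cases r
    · exact absurd hr (by norm_num)
    · exact absurd hr (by norm_num)
    · exact h2 hn
    · exact h3 ⟨ha, hn⟩
    · exact absurd hr (by norm_num)
  · exact h5 r hr h ⟨ha, hn⟩

/-- the bits of a simple function are additive on the subcube -/
theorem simple_add {k : ℕ} (q : Fin k × Fin k × Fin k) (h : q.1 ≠ q.2.1)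
    (x : Fin k ⊕ Fin k → Bool) (f : (Fin k ⊕ Fin k → Bool) → Bool) (hs : Simple f (tri q) x) :
    bv (f (pt q x true false true)) + bv (f (pt q x false false false)) =
        bv (f (pt q x true false false)) + bv (f (pt q x false false true)) ∧
    bv (f (pt q x true true true)) + 2 * bv (f (pt q x false false false)) =
        bv (f (pt q x true false false)) + bv (f (pt q x false true false)) +
          bv (f (pt q x false false true)) := by
  obtain ⟨c, hc, hf⟩ := hs
  have v1 : ∀ e1 e2 z, pt q x e1 e2 z (Sum.inl q.1) = e1 := by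
    intro e1 e2 z
    unfold pt
    rw [Function.update_of_ne (by simp), Function.update_of_ne (by simpa using h)]
    simp
  have v2 : ∀ e1 e2 z, pt q x e1 e2 z (Sum.inl q.2.1) = e2 := by
    intro e1 e2 z
    unfold pt
    rw [Function.update_of_ne (by simp)]
    simp
  have v3 : ∀ e1 e2 z, pt q x e1 e2 z (Sum.inr q.2.2) = z := by
    intro e1 e2 z
    unfold pt
    simp
  simp only [tri, Finset.mem_insert, Finset.mem_singleton] at hc
  rcases hc with rfl | rfl | rfl
  · have key : ∀ e1 e2 z, f (pt q x e1 e2 z) = f (pt q x e1 false false) := fun e1 e2 z =>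
      hf _ _ (pt_cube _ _ _ _ _) (pt_cube _ _ _ _ _) (by rw [v1, v1])
    rw [key true false true, key false false true, key true true true, key false true false]
    constructor <;> ring
  · have key : ∀ e1 e2 z, f (pt q x e1 e2 z) = f (pt q x false e2 false) := fun e1 e2 z =>
      hf _ _ (pt_cube _ _ _ _ _) (pt_cube _ _ _ _ _) (by rw [v2, v2])
    rw [key true false true, key false false true, key true true true, key true false false]
    constructor <;> ring
  · have key : ∀ e1 e2 z, f (pt q x e1 e2 z) = f (pt q x false false z) := fun e1 e2 z =>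
      hf _ _ (pt_cube _ _ _ _ _) (pt_cube _ _ _ _ _) (by rw [v3, v3])
    rw [key true false true, key true false false, key true true true, key false true false]
    constructor <;> ring

theorem num_add {m : ℕ} (b1 b2 b3 b4 : Fin m → Bool)
    (h : ∀ j, bv (b1 j) + bv (b2 j) = bv (b3 j) + bv (b4 j)) :
    num b1 + num b2 = num b3 + num b4 := by
  have e : ∀ b : Fin m → Bool, num b = ∑ j : Fin m, bv (b j) * 2 ^ (j : ℕ) := by
    intro b
    unfold num bv
    refine Finset.sum_congr rfl fun j _ => ?_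
    split_ifs <;> simp
  rw [e, e, e, e, ← Finset.sum_add_distrib, ← Finset.sum_add_distrib]
  refine Finset.sum_congr rfl fun j _ => ?_
  rw [← add_mul, ← add_mul, h j]

theorem num_add' {m : ℕ} (b1 b2 b3 b4 b5 : Fin m → Bool)
    (h : ∀ j, bv (b1 j) + 2 * bv (b2 j) = bv (b3 j) + bv (b4 j) + bv (b5 j)) :
    num b1 + 2 * num b2 = num b3 + num b4 + num b5 := by
  have e : ∀ b : Fin m → Bool, num b = ∑ j : Fin m, bv (b j) * 2 ^ (j : ℕ) := by
    intro b
    unfold num bv
    refine Finset.sum_congr rfl fun j _ => ?_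
    split_ifs <;> simp
  rw [e, e, e, e, e, Finset.mul_sum, ← Finset.sum_add_distrib, ← Finset.sum_add_distrib,
    ← Finset.sum_add_distrib]
  refine Finset.sum_congr rfl fun j _ => ?_
  rw [← mul_assoc, ← add_mul, ← add_mul, ← add_mul, h j]

/-- an input on which the answer `F` is wrong -/
def Wrong {k : ℕ} (F : (Fin k ⊕ Fin k → Bool) → ℕ) (x : Fin k ⊕ Fin k → Bool) : Prop :=
  aOf x < nOf x ∧ Nat.Coprime (aOf x) (nOf x) ∧ ¬ ((F x).Prime ∧ F x ≡ aOf x [MOD nOf x])

theorem core {k m : ℕ} (q : Fin k × Fin k × Fin k) (h : q.1 ≠ q.2.1)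
    (p1 : (q.1 : ℕ) % 2 = 0) (p2 : (q.2.1 : ℕ) % 2 = 0) (p3 : 1 ≤ (q.2.2 : ℕ))
    (x : Fin k ⊕ Fin k → Bool) (hv : Valid q x) (b : (Fin k ⊕ Fin k → Bool) → Fin m → Bool)
    (hs : ∀ j, Simple (fun y => b y j) (tri q) x) :
    ∃ y, Cube (tri q) x y ∧ Wrong (fun y => num (b y)) y := by
  by_contra hc
  push Not at hc
  obtain ⟨hlt, hA, hN, hr⟩ := hv
  set A := aOf (pt q x false false false) with hAd
  set N := nOf (pt q x false false false) with hNd
  have m1 := two_pow_even _ p1
  have m2 := two_pow_even _ p2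
  have m3 := two_pow_ne (q.2.2 : ℕ)
  have m4 : 2 ^ (q.2.2 : ℕ) % 2 = 0 := by
    obtain ⟨j, hj⟩ : ∃ j, (q.2.2 : ℕ) = j + 1 := ⟨(q.2.2 : ℕ) - 1, by omega⟩
    rw [hj, pow_succ]
    omega
  set P1 := 2 ^ (q.1 : ℕ) with hP1
  set P2 := 2 ^ (q.2.1 : ℕ) with hP2
  set P3 := 2 ^ (q.2.2 : ℕ) with hP3
  have ha : ∀ e1 e2 z, aOf (pt q x e1 e2 z) = A + bv e1 * P1 + bv e2 * P2 :=
    fun e1 e2 z => aOf_pt q h x e1 e2 z
  have hn : ∀ e1 e2 z, nOf (pt q x e1 e2 z) = N + bv z * P3 := fun e1 e2 z => nOf_pt q x e1 e2 z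
  -- correctness at a point whose pair is coprime
  have ok : ∀ e1 e2 z, Nat.Coprime (aOf (pt q x e1 e2 z)) (nOf (pt q x e1 e2 z)) →
      (num (b (pt q x e1 e2 z))).Prime ∧
        num (b (pt q x e1 e2 z)) ≡ aOf (pt q x e1 e2 z) [MOD nOf (pt q x e1 e2 z)] := by
    intro e1 e2 z hcop
    by_contra hcon
    exact hc _ (pt_cube q x e1 e2 z) ⟨(hlt e1 e2 z).2, hcop, hcon⟩
  have big : ∀ e1 e2 z, num (b (pt q x e1 e2 z)) ≡ aOf (pt q x e1 e2 z)
      [MOD nOf (pt q x e1 e2 z)] → 3 < num (b (pt q x e1 e2 z)) := by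
    intro e1 e2 z hmod
    have h1 := hlt e1 e2 z
    have h2 : num (b (pt q x e1 e2 z)) % nOf (pt q x e1 e2 z) = aOf (pt q x e1 e2 z) := by
      have h3 : num (b (pt q x e1 e2 z)) % nOf (pt q x e1 e2 z) =
        aOf (pt q x e1 e2 z) % nOf (pt q x e1 e2 z) := hmod
      rw [h3, Nat.mod_eq_of_lt h1.2]
    have h4 := Nat.mod_le (num (b (pt q x e1 e2 z))) (nOf (pt q x e1 e2 z))
    omega
  have t0 : bv false = 0 := rfl
  have t1 : bv true = 1 := rfl
  -- the six coprimalities
  have cop : ∀ e1 e2 z, (bv e1 * P1 + bv e2 * P2, bv z * P3) ∈ offs q →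
      ¬ (3 ∣ A + bv e1 * P1 + bv e2 * P2 ∧ 3 ∣ N + bv z * P3) →
      Nat.Coprime (aOf (pt q x e1 e2 z)) (nOf (pt q x e1 e2 z)) := by
    intro e1 e2 z hmem h3
    rw [ha, hn]
    refine coprime_of ?_ h3 (fun r hrp h5 hrd => ?_)
    · intro h2
      have : (N + bv z * P3) % 2 = 0 := Nat.mod_eq_zero_of_dvd h2
      cases z
      · rw [t0] at this
        omega
      · rw [t1] at this
        omega
    · have := hr _ hmem r hrp h5
      apply this
      simp only
      rw [add_comm _ A, ← add_assoc, add_comm _ N]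
      exact hrd
  have mem : ∀ p : ℕ × ℕ, p ∈ offs q ↔ p = (0, 0) ∨ p = (P1, 0) ∨ p = (P2, 0) ∨ p = (0, P3) ∨
      p = (P1, P3) ∨ p = (P1 + P2, P3) := by
    intro p
    unfold offs
    simp only [Finset.mem_insert, Finset.mem_singleton]
    rw [← hP1, ← hP2, ← hP3]
  have c000 := cop false false false (by rw [mem]; left; simp [t0])
    (by rw [t0]; omega)
  have c100 := cop true false false (by rw [mem]; right; left; simp [t0, t1])
    (by rw [t0, t1]; omega)
  have c010 := cop false true false (by rw [mem]; right; right; left; simp [t0, t1])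
    (by rw [t0, t1]; omega)
  have c001 := cop false false true (by rw [mem]; right; right; right; left; simp [t0, t1])
    (by rw [t0, t1]; omega)
  have c101 := cop true false true (by rw [mem]; right; right; right; right; left; simp [t0, t1])
    (by rw [t0, t1]; omega)
  have c111 := cop true true true (by rw [mem]; right; right; right; right; right; simp [t1])
    (by rw [t1]; omega)
  have o000 := ok _ _ _ c000
  have o100 := ok _ _ _ c100
  have o010 := ok _ _ _ c010
  have o001 := ok _ _ _ c001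
  have o101 := ok _ _ _ c101
  have o111 := ok _ _ _ c111
  -- residues modulo three
  have hN3 : 3 ∣ N := by omega
  have r3 : ∀ e1 e2, num (b (pt q x e1 e2 false)) ≡ aOf (pt q x e1 e2 false)
      [MOD nOf (pt q x e1 e2 false)] →
      num (b (pt q x e1 e2 false)) % 3 = (A + bv e1 * P1 + bv e2 * P2) % 3 := by
    intro e1 e2 hmod
    rw [ha, hn, t0, zero_mul, add_zero] at hmod
    exact hmod.of_dvd hN3
  have r000 := r3 _ _ o000.2
  have r100 := r3 _ _ o100.2
  have r010 := r3 _ _ o010.2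
  have s1 := num_add (b (pt q x true false true)) (b (pt q x false false false))
    (b (pt q x true false false)) (b (pt q x false false true))
    (fun j => (simple_add q h x _ (hs j)).1)
  have s2 := num_add' (b (pt q x true true true)) (b (pt q x false false false))
    (b (pt q x true false false)) (b (pt q x false true false)) (b (pt q x false false true))
    (fun j => (simple_add q h x _ (hs j)).2)
  have three : ∀ e1 e2 z, (num (b (pt q x e1 e2 z))).Prime ∧
      num (b (pt q x e1 e2 z)) ≡ aOf (pt q x e1 e2 z) [MOD nOf (pt q x e1 e2 z)] →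
      num (b (pt q x e1 e2 z)) % 3 ≠ 0 := by
    intro e1 e2 z ho h0
    have h1 := big e1 e2 z ho.2
    have h2 := (Nat.prime_dvd_prime_iff_eq Nat.prime_three ho.1).mp (Nat.dvd_of_mod_eq_zero h0)
    omega
  have u001 := three _ _ _ o001
  have u101 := three _ _ _ o101
  have u111 := three _ _ _ o111
  rw [t0] at r000 r100 r010
  rw [t1] at r100 r010
  omega

end PAP
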