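import Pool.Agent.helper36.PAP.Restr

/-!
# Decision trees

`DT t f` : the Boolean function `f` has a decision tree of depth at most `t`.
-/

namespace PAP

open Finset

variable {V : Type} [DecidableEq V]

/-- `f` has a decision tree of depth at most `t` -/
inductive DT : ℕ → ((V → Bool) → Bool) → Prop
  | const (t : ℕ) (f : (V → Bool) → Bool) (b : Bool) (h : ∀ x, f x = b) : DT t f
  | query (t : ℕ) (v : V) (f : (V → Bool) → Bool)
      (h : ∀ b, DT t (fun x => f (Function.update x v b))) : DT (t + 1) f

theorem DT.succ {t : ℕ} {f : (V → Bool) → Bool} (h : DT t f) : DT (t + 1) f := by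
  induction h with
  | const t f b h => exact DT.const _ f b h
  | query t v f _ ih => exact DT.query _ v f ih

theorem DT.mono {t t' : ℕ} (ht : t ≤ t') {f : (V → Bool) → Bool} (h : DT t f) : DT t' f := by
  induction t', ht using Nat.le_induction with
  | base => exact h
  | succ n _ ih => exact ih.succ

theorem DT.neg {t : ℕ} {f : (V → Bool) → Bool} (h : DT t f) : DT t (fun x => !(f x)) := by
  induction h with
  | const t f b h => exact DT.const _ _ (!b) (fun x => by rw [h x])
  | query t v f _ ih => exact DT.query _ v _ ih

theorem app_update_some (ρ : PA V) (x : V → Bool) (v : V) {b : Bool} (h : ρ v = some b) :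
    Function.update (app ρ x) v b = app ρ x := by
  funext w
  by_cases hw : w = v
  · subst hw
    simp [app, h]
  · simp [Function.update_of_ne hw]

theorem app_update_none (ρ : PA V) (x : V → Bool) (v : V) (b : Bool) (h : ρ v = none) :
    app ρ (Function.update x v b) = Function.update (app ρ x) v b := by
  funext w
  by_cases hw : w = v
  · subst hw
    simp [app, h]
  · simp [app, Function.update_of_ne hw]

theorem app_update_rho (ρ : PA V) (x : V → Bool) (v : V) (b : Bool) (h : ρ v = none) :
    app ρ (Function.update x v b) = app (Function.update ρ v (some b)) x := by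
  funext w
  by_cases hw : w = v
  · subst hw
    simp [app, h]
  · simp [app, Function.update_of_ne hw]

theorem DT.restrict {t : ℕ} {f : (V → Bool) → Bool} (h : DT t f) (ρ : PA V) :
    DT t (fun x => f (app ρ x)) := by
  induction h with
  | const t f b h => exact DT.const _ _ b (fun x => h _)
  | query t v f _ ih =>
    cases hv : ρ v with
    | some b =>
      have e : (fun x => f (app ρ x)) = (fun x => f (Function.update (app ρ x) v b)) := by
        funext x
        rw [app_update_some ρ x v hv]
      rw [e]
      exact (ih b).succ
    | none =>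
      refine DT.query _ v _ (fun b => ?_)
      have e : (fun x => f (app ρ (Function.update x v b))) =
          (fun x => f (Function.update (app ρ x) v b)) := by
        funext x
        rw [app_update_none ρ x v b hv]
      rw [e]
      exact ih b

/-- the query set along the path of `x` -/
theorem DT.query_fn {t : ℕ} {f : (V → Bool) → Bool} (h : DT t f) :
    ∃ Q : (V → Bool) → Finset V, (∀ x, (Q x).card ≤ t) ∧
      ∀ x y, (∀ v ∈ Q x, y v = x v) → Q y = Q x ∧ f y = f x := by
  induction h with
  | const t f b h => exact ⟨fun _ => ∅, fun _ => by simp, fun x y _ => ⟨rfl, by rw [h, h]⟩⟩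
  | query t v f _ ih =>
    choose Q hQ1 hQ2 using ih
    refine ⟨fun x => insert v (Q (x v) x), fun x => ?_, fun x y hxy => ?_⟩
    · exact (Finset.card_insert_le _ _).trans (Nat.add_le_add_right (hQ1 _ _) 1)
    · have hv : y v = x v := hxy v (Finset.mem_insert_self _ _)
      have h2 := hQ2 (x v) x y (fun w hw => hxy w (Finset.mem_insert_of_mem hw))
      refine ⟨?_, ?_⟩
      · show insert v (Q (y v) y) = insert v (Q (x v) x)
        rw [hv, h2.1]
      · have h3 := h2.2
        have e1 : Function.update y v (x v) = y := by rw [← hv]; simp
        have e2 : Function.update x v (x v) = x := by simp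
        simp only [e1, e2] at h3
        exact h3

theorem DT.cert {t : ℕ} {f : (V → Bool) → Bool} (h : DT t f) (x : V → Bool) :
    ∃ A : Finset V, A.card ≤ t ∧ ∀ y, (∀ v ∈ A, y v = x v) → f y = f x := by
  obtain ⟨Q, h1, h2⟩ := h.query_fn
  exact ⟨Q x, h1 x, fun y hy => (h2 x y hy).2⟩

/-- literals have depth one -/
theorem DT.lit (v : V) (c : Bool) : DT 1 (fun x : V → Bool => xor (x v) c) :=
  DT.query 0 v _ (fun b => DT.const 0 _ (xor b c) (fun x => by simp))

/-- querying a block of free variables -/
theorem DT.block (F : (V → Bool) → Bool) (r : ℕ) (β : Finset V) :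
    ∀ ρ : PA V, (∀ v ∈ β, ρ v = none) →
      (∀ ρ1 : PA V, (∀ v, v ∉ β → ρ1 v = ρ v) → (∀ v ∈ β, ρ1 v ≠ none) →
        DT r (fun x => F (app ρ1 x))) →
      DT (r + β.card) (fun x => F (app ρ x)) := by
  induction β using Finset.induction_on with
  | empty =>
    intro ρ _ h
    simpa using h ρ (fun _ _ => rfl) (fun v hv => absurd hv (Finset.notMem_empty v))
  | insert a β ha ih =>
    intro ρ h0 h
    rw [Finset.card_insert_of_notMem ha, ← add_assoc]
    refine DT.query _ a _ (fun b => ?_)
    have key := ih (Function.update ρ a (some b)) (fun v hv => by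
        rw [Function.update_of_ne (fun e => ha (by rw [← e]; exact hv))]
        exact h0 v (Finset.mem_insert_of_mem hv)) (fun ρ1 h1 h2 => by
        refine h ρ1 (fun v hv => ?_) (fun v hv => ?_)
        · rw [Finset.mem_insert, not_or] at hv
          rw [h1 v hv.2, Function.update_of_ne hv.1]
        · rcases Finset.mem_insert.mp hv with rfl | hv
          · rw [h1 v ha]
            simp
          · exact h2 v hv)
    have e : (fun x => F (app ρ (Function.update x a b))) =
        (fun x => F (app (Function.update ρ a (some b)) x)) := by
      funext x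
      rw [app_update_rho ρ x a b (h0 a (Finset.mem_insert_self _ _))]
    rw [e]
    exact key

end PAP
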