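import Pool.Agent.helper36.PAP.Bad

/-!
# Equidistribution of sums of random bits in a finite ring generated by one
-/

namespace PAP

open Finset

/-! ### Resampling a set of coordinates -/

section mix

variable {V : Type} [Fintype V] [DecidableEq V]

/-- take the coordinates in `T` from `y` and the others from `x` -/
def mix (T : Finset V) (y x : V → Bool) : V → Bool := fun v => if v ∈ T then y v else x v

omit [Fintype V] in
theorem mix_cube (T : Finset V) (y x : V → Bool) : Cube T x (mix T y x) :=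
  fun _ hv => if_neg hv

omit [Fintype V] in
theorem mix_mix {T T' : Finset V} (h : T' ⊆ T) (y y' x : V → Bool) :
    mix T' y' (mix T y x) = mix T (mix T' y' y) x := by
  funext v
  unfold mix
  by_cases h1 : v ∈ T'
  · simp [h1, h h1]
  · simp [h1]

/-- resampling does not change the distribution -/
theorem sum_mix (T : Finset V) (ψ : (V → Bool) → ℝ) :
    ∑ x : V → Bool, ∑ y : V → Bool, ψ (mix T y x) =
      (Fintype.card (V → Bool) : ℝ) * ∑ x : V → Bool, ψ x := by
  rw [← Fintype.sum_prod_type' (f := fun (x y : V → Bool) => ψ (mix T y x))]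
  have hinv : Function.Involutive
      (fun p : (V → Bool) × (V → Bool) => (mix T p.2 p.1, mix T p.1 p.2)) := by
    rintro ⟨x, y⟩
    simp only [Prod.mk.injEq]
    constructor <;> funext v <;> unfold mix <;> by_cases hv : v ∈ T <;> simp [hv]
  have h := Fintype.sum_equiv hinv.toPerm
    (fun p : (V → Bool) × (V → Bool) => ψ (mix T p.2 p.1)) (fun p => ψ p.1) (fun p => rfl)
  rw [h, Fintype.sum_prod_type]
  simp only [Finset.sum_const, Finset.card_univ, nsmul_eq_mul]
  rw [Finset.mul_sum]

theorem sum_half (v : V) (ψ : Bool → (V → Bool) → ℝ)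
    (hψ : ∀ b y b', ψ b (Function.update y v b') = ψ b y) :
    ∑ y : V → Bool, ψ (y v) y = ∑ y : V → Bool, (ψ true y + ψ false y) / 2 := by
  have hinv : Function.Involutive (fun y : V → Bool => Function.update y v (!(y v))) := by
    intro y
    simp
  have h := Fintype.sum_equiv hinv.toPerm (fun y => ψ (!(y v)) y) (fun y => ψ (y v) y)
    (fun y => by
      show ψ (!(y v)) y = ψ (Function.update y v (!(y v)) v) (Function.update y v (!(y v)))
      rw [Function.update_self, hψ])
  have h2 : ∑ y : V → Bool, ψ (y v) y + ∑ y : V → Bool, ψ (y v) y =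
      ∑ y : V → Bool, (ψ true y + ψ false y) := by
    nth_rw 2 [← h]
    rw [← Finset.sum_add_distrib]
    refine Finset.sum_congr rfl fun y _ => ?_
    cases y v
    · simp [add_comm]
    · simp
  rw [← Finset.sum_div]
  linarith

end mix

section ring

variable {A : Type} [CommRing A] [Fintype A]

/-- one random bit -/
noncomputable def step (g : A → ℝ) : A → ℝ := fun c => (g c + g (c + 1)) / 2

/-- the mean -/
noncomputable def mean (g : A → ℝ) : ℝ := (∑ c, g c) / Fintype.card A

theorem mean_step (g : A → ℝ) : mean (step g) = mean g := by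
  unfold mean step
  congr 1
  rw [← Finset.sum_div, Finset.sum_add_distrib]
  have := Fintype.sum_equiv (Equiv.addRight (1 : A)) (fun c => g (c + 1)) g (fun c => rfl)
  rw [this]
  ring

theorem mean_iter (g : A → ℝ) (n : ℕ) : mean (step^[n] g) = mean g := by
  induction n generalizing g with
  | zero => rfl
  | succ n ih => rw [Function.iterate_succ_apply, ih, mean_step]

theorem iter_le (g : A → ℝ) (B : ℝ) (h : ∀ c, g c ≤ B) (n : ℕ) :
    ∀ c, (step^[n] g) c ≤ B := by
  induction n generalizing g with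
  | zero => exact h
  | succ n ih =>
    rw [Function.iterate_succ_apply]
    exact ih (step g) (fun c => by
      have h1 := h c
      have h2 := h (c + 1)
      unfold step
      linarith)

theorem iter_mix (g : A → ℝ) (B : ℝ) (h : ∀ c, g c ≤ B) (n : ℕ) :
    ∀ (c : A) (j : ℕ), j ≤ n →
      (step^[n] g) c ≤ (1 / 2) ^ n * g (c + j) + (1 - (1 / 2) ^ n) * B := by
  induction n with
  | zero =>
    intro c j hj
    have : j = 0 := by omega
    subst this
    simp
  | succ n ih =>
    intro c j hj
    rw [Function.iterate_succ_apply']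
    have e : (1 / 2 : ℝ) ^ (n + 1) = (1 / 2) ^ n / 2 := by ring
    show ((step^[n] g) c + (step^[n] g) (c + 1)) / 2 ≤ _
    rcases Nat.lt_or_ge n j with hlt | hle
    · obtain ⟨i, rfl⟩ : ∃ i, j = i + 1 := ⟨j - 1, by omega⟩
      have h1 := ih (c + 1) i (by omega)
      have h2 := iter_le g B h n c
      have e2 : c + ((i + 1 : ℕ) : A) = c + 1 + (i : A) := by push_cast; ring
      rw [e2, e]
      linarith
    · have h1 := ih c j hle
      have h2 := iter_le g B h n (c + 1)
      rw [e]
      linarith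

theorem exists_le_mean [Nonempty A] (g : A → ℝ) : ∃ c, g c ≤ mean g := by
  by_contra hc
  push Not at hc
  have h1 : ∑ _c : A, mean g < ∑ c : A, g c :=
    Finset.sum_lt_sum_of_nonempty Finset.univ_nonempty (fun c _ => hc c)
  rw [Finset.sum_const, Finset.card_univ, nsmul_eq_mul] at h1
  unfold mean at h1
  have h2 : (0 : ℝ) < Fintype.card A := by exact_mod_cast Fintype.card_pos
  rw [mul_div_cancel₀ _ h2.ne'] at h1
  exact lt_irrefl _ h1

/-- equidistribution -/
theorem equi (hA : ∀ a : A, ∃ j : ℕ, (j : A) = a) (δ : ℝ) (hδ : 0 < δ) :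
    ∃ r0 : ℕ, ∀ r, r0 ≤ r → ∀ g : A → ℝ, (∀ c, 0 ≤ g c) → (∀ c, g c ≤ 1) →
      ∀ c, (step^[r] g) c ≤ mean g + δ := by
  choose jf hjf using hA
  set M := ∑ a : A, jf a with hM
  have hjM : ∀ a, jf a ≤ M := fun a =>
    Finset.single_le_sum (f := jf) (fun _ _ => Nat.zero_le _) (Finset.mem_univ a)
  set θ : ℝ := 1 - (1 / 2) ^ M with hθ
  have hp : (0 : ℝ) < (1 / 2) ^ M := by positivity
  have hp1 : (1 / 2 : ℝ) ^ M ≤ 1 := pow_le_one₀ (by norm_num) (by norm_num)
  have hθ0 : 0 ≤ θ := by rw [hθ]; linarith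
  have hθ1 : θ < 1 := by rw [hθ]; linarith
  obtain ⟨n0, hn0⟩ := exists_pow_lt_of_lt_one hδ hθ1
  have hstep : ∀ (g : A → ℝ) (δ' : ℝ), (∀ c, g c ≤ mean g + δ') →
      ∀ c, (step^[M] g) c ≤ mean g + θ * δ' := by
    intro g δ' hg c
    obtain ⟨a, ha⟩ := exists_le_mean g
    have h1 := iter_mix g _ hg M c (jf (a - c)) (hjM _)
    rw [hjf, add_sub_cancel] at h1
    have h2 : (1 / 2 : ℝ) ^ M * g a ≤ (1 / 2) ^ M * mean g :=
      mul_le_mul_of_nonneg_left ha hp.le
    rw [hθ]
    linarith
  have hiter : ∀ (n : ℕ) (g : A → ℝ), (∀ c, 0 ≤ g c) → (∀ c, g c ≤ 1) →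
      ∀ c, (step^[M * n] g) c ≤ mean g + θ ^ n := by
    intro n
    induction n with
    | zero =>
      intro g h0 h1 c
      have : 0 ≤ mean g := div_nonneg (Finset.sum_nonneg fun c _ => h0 c) (by positivity)
      simp only [mul_zero, Function.iterate_zero, id_eq, pow_zero]
      linarith [h1 c]
    | succ n ih =>
      intro g h0 h1 c
      have h2 := ih g h0 h1
      have h3 := hstep (step^[M * n] g) (θ ^ n) (by rw [mean_iter]; exact h2) c
      rw [mean_iter, ← Function.iterate_add_apply] at h3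
      rw [mul_add, mul_one, add_comm (M * n) M, pow_succ, mul_comm (θ ^ n) θ]
      exact h3
  refine ⟨M * n0, fun r hr g h0 h1 c => ?_⟩
  obtain ⟨i, rfl⟩ : ∃ i, r = i + M * n0 := ⟨r - M * n0, by omega⟩
  rw [Function.iterate_add_apply]
  refine iter_le _ _ (fun c => ?_) i c
  have := hiter n0 g h0 h1 c
  linarith

variable {V : Type} [Fintype V] [DecidableEq V]

/-- the number of true coordinates in `S`, in the ring -/
def cnts (A : Type) [CommRing A] (S : Finset V) (y : V → Bool) : A :=
  ∑ v ∈ S, if y v = true then 1 else 0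

theorem bin_avg (S : Finset V) : ∀ (G : (V → Bool) → A → ℝ) (c0 : A),
    (∀ v ∈ S, ∀ y b c, G (Function.update y v b) c = G y c) →
    ∑ y : V → Bool, G y (c0 + cnts A S y) = ∑ y : V → Bool, (step^[S.card] (G y)) c0 := by
  induction S using Finset.induction_on with
  | empty =>
    intro G c0 _
    simp [cnts]
  | insert v S hv ih =>
    intro G c0 hG
    rw [Finset.card_insert_of_notMem hv]
    have hcn : ∀ y b, cnts A S (Function.update y v b) = cnts A S y := by
      intro y b
      unfold cnts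
      refine Finset.sum_congr rfl fun w hw => ?_
      rw [Function.update_of_ne (fun h => hv (by rw [← h]; exact hw))]
    have h1 := sum_half v (fun (b : Bool) y => G y (c0 + ((if b = true then 1 else 0) +
      cnts A S y))) (fun b y b' => by
        rw [hcn, hG v (Finset.mem_insert_self _ _)])
    have h2 : ∀ y : V → Bool, cnts A (insert v S) y =
        (if y v = true then 1 else 0) + cnts A S y := by
      intro y
      unfold cnts
      rw [Finset.sum_insert hv]
    simp only [h2]
    refine h1.trans ?_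
    have h3 : ∀ y : V → Bool, (G y (c0 + ((if true = true then 1 else 0) + cnts A S y)) +
        G y (c0 + ((if false = true then 1 else 0) + cnts A S y))) / 2 =
        step (G y) (c0 + cnts A S y) := by
      intro y
      unfold step
      simp only [if_true, Bool.false_eq_true, if_false, zero_add]
      rw [add_comm, add_comm 1 (cnts A S y), ← add_assoc]
    rw [Finset.sum_congr rfl (fun y _ => h3 y)]
    refine (ih (fun y => step (G y)) c0 (fun w hw y b c => ?_)).trans ?_
    · unfold step
      rw [hG w (Finset.mem_insert_of_mem hw), hG w (Finset.mem_insert_of_mem hw)]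
    · refine Finset.sum_congr rfl fun y _ => ?_
      rw [Function.iterate_succ_apply]

/-- two independent blocks of bits -/
theorem two_blocks {δ : ℝ} {r0 : ℕ}
    (hr : ∀ r, r0 ≤ r → ∀ g : A → ℝ, (∀ c, 0 ≤ g c) → (∀ c, g c ≤ 1) →
      ∀ c, (step^[r] g) c ≤ mean g + δ)
    (Y Z : Finset V) (hd : Disjoint Y Z) (hY : r0 ≤ Y.card) (hZ : r0 ≤ Z.card)
    (Ψ : A → A → ℝ) (h0 : ∀ a b, 0 ≤ Ψ a b) (h1 : ∀ a b, Ψ a b ≤ 1) :
    ∑ y : V → Bool, Ψ (cnts A Y y) (cnts A Z y) ≤
      (Fintype.card (V → Bool) : ℝ) *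
        ((∑ a : A, ∑ b : A, Ψ a b) / ((Fintype.card A : ℝ) * Fintype.card A) + 2 * δ) := by
  have hA : (0 : ℝ) < Fintype.card A := by exact_mod_cast Fintype.card_pos
  have e1 := bin_avg Y (fun y c => Ψ c (cnts A Z y)) 0 (fun v hv y b c => by
    have : cnts A Z (Function.update y v b) = cnts A Z y := by
      unfold cnts
      refine Finset.sum_congr rfl fun w hw => ?_
      rw [Function.update_of_ne]
      intro h
      exact Finset.disjoint_left.mp hd hv (h ▸ hw)
    rw [this])
  simp only [zero_add] at e1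
  rw [e1]
  set g2 : A → ℝ := fun b => mean (fun a => Ψ a b) with hg2
  have b1 : ∀ y : V → Bool, (step^[Y.card] (fun c => Ψ c (cnts A Z y))) 0 ≤
      g2 (cnts A Z y) + δ := fun y =>
    hr _ hY _ (fun c => h0 _ _) (fun c => h1 _ _) 0
  have hg0 : ∀ b, 0 ≤ g2 b := fun b =>
    div_nonneg (Finset.sum_nonneg fun c _ => h0 _ _) hA.le
  have hg1 : ∀ b, g2 b ≤ 1 := by
    intro b
    rw [hg2]
    unfold mean
    rw [div_le_one hA]
    refine (Finset.sum_le_sum fun c _ => h1 c b).trans ?_
    rw [Finset.sum_const, Finset.card_univ, nsmul_eq_mul, mul_one]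
  have e2 := bin_avg Z (fun (_ : V → Bool) c => g2 c) 0 (fun _ _ _ _ _ => rfl)
  simp only [zero_add] at e2
  have b2 : ∀ y : V → Bool, (step^[Z.card] g2) 0 ≤ mean g2 + δ := fun _ =>
    hr _ hZ g2 hg0 hg1 0
  have b3 : ∑ y : V → Bool, g2 (cnts A Z y) ≤ (Fintype.card (V → Bool) : ℝ) * (mean g2 + δ) := by
    rw [e2]
    refine (Finset.sum_le_sum fun y _ => b2 y).trans (le_of_eq ?_)
    rw [Finset.sum_const, Finset.card_univ, nsmul_eq_mul]
  have e3 : mean g2 = (∑ a : A, ∑ b : A, Ψ a b) / ((Fintype.card A : ℝ) * Fintype.card A) := by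
    rw [hg2]
    unfold mean
    rw [← Finset.sum_div, div_div, Finset.sum_comm]
  calc ∑ y : V → Bool, (step^[Y.card] (fun c => Ψ c (cnts A Z y))) 0
      ≤ ∑ y : V → Bool, (g2 (cnts A Z y) + δ) := Finset.sum_le_sum fun y _ => b1 y
    _ = ∑ y : V → Bool, g2 (cnts A Z y) + (Fintype.card (V → Bool) : ℝ) * δ := by
        rw [Finset.sum_add_distrib, Finset.sum_const, Finset.card_univ, nsmul_eq_mul]
    _ ≤ (Fintype.card (V → Bool) : ℝ) * (mean g2 + δ) + (Fintype.card (V → Bool) : ℝ) * δ := by
        linarith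
    _ = _ := by rw [e3]; ring

end ring

end PAP
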