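import Mathlib

/-!
# The arithmetic of the small primes
-/

namespace PAP

open Finset

/-- the product of the residue rings -/
abbrev RQ (Q : Finset ℕ) : Type := (i : {q // q ∈ Q}) → ZMod (i : ℕ)

theorem rq_gen (Q : Finset ℕ) [hF : ∀ i : {q // q ∈ Q}, Fact (Nat.Prime (i : ℕ))]
    (r : RQ Q) : ∃ j : ℕ, (j : RQ Q) = r := by
  classical
  obtain ⟨k, hk⟩ := Nat.chineseRemainderOfFinset
    (fun q => if h : q ∈ Q then (r ⟨q, h⟩).val else 0) id Q
    (fun q hq => (hF ⟨q, hq⟩).out.ne_zero)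
    (fun p hp q hq hne => (Nat.coprime_primes (hF ⟨p, hp⟩).out (hF ⟨q, hq⟩).out).mpr hne)
  refine ⟨k, ?_⟩
  funext i
  have h1 := hk i.1 i.2
  simp only [id_eq, i.2, dif_pos] at h1
  have h2 := (ZMod.natCast_eq_natCast_iff _ _ _).mpr h1
  rw [Pi.natCast_apply, h2, ZMod.natCast_val, ZMod.cast_id', id_eq]

theorem count_prime (q : ℕ) [Fact (Nat.Prime q)] (γ γ' f0 a0 n0 : ZMod q) :
    (Finset.univ.filter (fun p : ZMod q × ZMod q => f0 + γ * p.1 + γ' * p.2 ≠ 0 ∧
      (n0 + p.2 = 0 → f0 + γ * p.1 + γ' * p.2 = a0 + p.1))).card ≤ q * (q - 1) + 1 := by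
  have hq1 : 1 ≤ q := (Fact.out : Nat.Prime q).one_lt.le
  have hfib : (Finset.univ.filter (fun p : ZMod q × ZMod q => f0 + γ * p.1 + γ' * p.2 ≠ 0 ∧
      (n0 + p.2 = 0 → f0 + γ * p.1 + γ' * p.2 = a0 + p.1))).card =
      ∑ u : ZMod q, (Finset.univ.filter (fun s : ZMod q => f0 + γ * s + γ' * u ≠ 0 ∧
        (n0 + u = 0 → f0 + γ * s + γ' * u = a0 + s))).card := by
    rw [Finset.card_filter, Fintype.sum_prod_type, Finset.sum_comm]
    refine Finset.sum_congr rfl fun u _ => ?_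
    rw [Finset.card_filter]
  rw [hfib]
  by_cases hγ : γ = 0
  · subst hγ
    rw [← Finset.add_sum_erase _ _ (Finset.mem_univ (-n0))]
    have h1 : (Finset.univ.filter (fun s : ZMod q => f0 + 0 * s + γ' * (-n0) ≠ 0 ∧
        (n0 + (-n0) = 0 → f0 + 0 * s + γ' * (-n0) = a0 + s))).card ≤ 1 := by
      rw [Finset.card_le_one]
      intro s hs s' hs'
      rw [Finset.mem_filter] at hs hs'
      have e1 := hs.2.2 (by ring)
      have e2 := hs'.2.2 (by ring)
      simp only [zero_mul] at e1 e2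
      rw [e1] at e2
      exact add_left_cancel e2
    have h2 : ∀ u ∈ (Finset.univ : Finset (ZMod q)).erase (-n0),
        (Finset.univ.filter (fun s : ZMod q => f0 + 0 * s + γ' * u ≠ 0 ∧
        (n0 + u = 0 → f0 + 0 * s + γ' * u = a0 + s))).card ≤ q := by
      intro u _
      refine (Finset.card_le_univ _).trans (le_of_eq ?_)
      rw [ZMod.card]
    have h3 := Finset.sum_le_sum h2
    rw [Finset.sum_const, Finset.card_erase_of_mem (Finset.mem_univ _), Finset.card_univ,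
      ZMod.card, smul_eq_mul] at h3
    have e : (q - 1) * q = q * (q - 1) := Nat.mul_comm _ _
    omega
  · have h2 : ∀ u ∈ (Finset.univ : Finset (ZMod q)),
        (Finset.univ.filter (fun s : ZMod q => f0 + γ * s + γ' * u ≠ 0 ∧
        (n0 + u = 0 → f0 + γ * s + γ' * u = a0 + s))).card ≤ q - 1 := by
      intro u _
      have h4 : (Finset.univ.filter (fun s : ZMod q => f0 + γ * s + γ' * u ≠ 0 ∧
        (n0 + u = 0 → f0 + γ * s + γ' * u = a0 + s))) ⊆
          (Finset.univ : Finset (ZMod q)).erase (-(f0 + γ' * u) / γ) := by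
        intro s hs
        rw [Finset.mem_erase]
        refine ⟨fun h => ?_, Finset.mem_univ _⟩
        rw [Finset.mem_filter] at hs
        apply hs.2.1
        rw [h]
        field_simp
        ring
      refine (Finset.card_le_card h4).trans (le_of_eq ?_)
      rw [Finset.card_erase_of_mem (Finset.mem_univ _), Finset.card_univ, ZMod.card]
    have h3 := Finset.sum_le_sum h2
    rw [Finset.sum_const, Finset.card_univ, ZMod.card, smul_eq_mul] at h3
    omega

/-- the test function: `f` is divisible by no prime of `Q` and agrees with `a` modulo the primes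
of `Q` that divide `n` -/
noncomputable def Psi (Q : Finset ℕ) (f a n : RQ Q) : ℝ :=
  open Classical in if ∀ i, f i ≠ 0 ∧ (n i = 0 → f i = a i) then 1 else 0

/-- the density -/
noncomputable def dens (Q : Finset ℕ) : ℝ := ∏ q ∈ Q, (1 - 1 / (q : ℝ) + 1 / (q : ℝ) ^ 2)

theorem psi_sum (Q : Finset ℕ) [hF : ∀ i : {q // q ∈ Q}, Fact (Nat.Prime (i : ℕ))]
    (γ γ' f0 a0 n0 : RQ Q) :
    ∑ s : RQ Q, ∑ u : RQ Q, Psi Q (f0 + γ * s + γ' * u) (a0 + s) (n0 + u) ≤
      dens Q * ((Fintype.card (RQ Q) : ℝ) * Fintype.card (RQ Q)) := by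
  classical
  have h1 : ∑ s : RQ Q, ∑ u : RQ Q, Psi Q (f0 + γ * s + γ' * u) (a0 + s) (n0 + u) =
      ((Finset.univ.filter (fun p : RQ Q × RQ Q => ∀ i, (f0 i + γ i * p.1 i + γ' i * p.2 i ≠ 0 ∧
        (n0 i + p.2 i = 0 → f0 i + γ i * p.1 i + γ' i * p.2 i = a0 i + p.1 i)))).card : ℝ) := by
    rw [← Finset.sum_boole, Fintype.sum_prod_type]
    rfl
  rw [h1]
  set F : (i : {q // q ∈ Q}) → Finset (ZMod (i : ℕ) × ZMod (i : ℕ)) := fun i =>
    Finset.univ.filter (fun p : ZMod (i : ℕ) × ZMod (i : ℕ) => f0 i + γ i * p.1 + γ' i * p.2 ≠ 0 ∧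
      (n0 i + p.2 = 0 → f0 i + γ i * p.1 + γ' i * p.2 = a0 i + p.1)) with hFdef
  have h2 : (Finset.univ.filter (fun p : RQ Q × RQ Q => ∀ i, (f0 i + γ i * p.1 i + γ' i * p.2 i ≠ 0
        ∧ (n0 i + p.2 i = 0 → f0 i + γ i * p.1 i + γ' i * p.2 i = a0 i + p.1 i)))).card ≤
      (Fintype.piFinset F).card := by
    refine Finset.card_le_card_of_injOn (fun p i => (p.1 i, p.2 i)) ?_ ?_
    · intro p hp
      rw [Finset.mem_coe, Finset.mem_filter] at hp
      rw [Finset.mem_coe, Fintype.mem_piFinset]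
      intro i
      rw [hFdef, Finset.mem_filter]
      exact ⟨Finset.mem_univ _, hp.2 i⟩
    · intro p _ p' _ h
      have h3 : ∀ i, p.1 i = p'.1 i ∧ p.2 i = p'.2 i := by
        intro i
        have := congrFun h i
        simp only [Prod.mk.injEq] at this
        exact this
      exact Prod.ext (funext fun i => (h3 i).1) (funext fun i => (h3 i).2)
  have h3 : ((Fintype.piFinset F).card : ℝ) ≤
      ∏ i : {q // q ∈ Q}, ((1 - 1 / ((i : ℕ) : ℝ) + 1 / ((i : ℕ) : ℝ) ^ 2) *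
        (((i : ℕ) : ℝ) * ((i : ℕ) : ℝ))) := by
    rw [Fintype.card_piFinset]
    push_cast
    refine Finset.prod_le_prod (fun i _ => by positivity) (fun i _ => ?_)
    have h4 := count_prime (i : ℕ) (γ i) (γ' i) (f0 i) (a0 i) (n0 i)
    have hq : 1 ≤ (i : ℕ) := (hF i).out.one_lt.le
    have hq' : (0 : ℝ) < ((i : ℕ) : ℝ) := by exact_mod_cast hq
    have h5 : ((F i).card : ℝ) ≤ ((i : ℕ) : ℝ) * (((i : ℕ) : ℝ) - 1) + 1 := by
      have h6 : ((F i).card : ℝ) ≤ (((i : ℕ) * ((i : ℕ) - 1) + 1 : ℕ) : ℝ) := by exact_mod_cast h4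
      rw [Nat.cast_add, Nat.cast_mul, Nat.cast_sub hq] at h6
      simpa using h6
    refine h5.trans (le_of_eq ?_)
    field_simp
  have h4 : (Fintype.card (RQ Q) : ℝ) = ∏ i : {q // q ∈ Q}, ((i : ℕ) : ℝ) := by
    rw [Fintype.card_pi]
    push_cast
    refine Finset.prod_congr rfl fun i _ => ?_
    rw [ZMod.card]
  have h5 : dens Q = ∏ i : {q // q ∈ Q}, (1 - 1 / ((i : ℕ) : ℝ) + 1 / ((i : ℕ) : ℝ) ^ 2) := by
    unfold dens
    exact (Finset.prod_coe_sort Q (fun q => (1 - 1 / (q : ℝ) + 1 / (q : ℝ) ^ 2))).symm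
  rw [h4, h5, ← Finset.prod_mul_distrib, ← Finset.prod_mul_distrib]
  refine le_trans ?_ h3
  exact_mod_cast h2

theorem dens_le_exp (Q : Finset ℕ) (hQ : ∀ q ∈ Q, 2 ≤ q) :
    dens Q ≤ Real.exp (-(1 / 2) * ∑ q ∈ Q, 1 / (q : ℝ)) := by
  unfold dens
  rw [Finset.mul_sum, Real.exp_sum]
  refine Finset.prod_le_prod (fun q hq => ?_) (fun q hq => ?_)
  · have h2 : (2 : ℝ) ≤ q := by exact_mod_cast hQ q hq
    have h3 : 1 / (q : ℝ) ≤ 1 := by
      rw [div_le_one (by linarith)]
      linarith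
    have h4 : 0 ≤ 1 / (q : ℝ) ^ 2 := by positivity
    linarith
  · have h2 : (2 : ℝ) ≤ q := by exact_mod_cast hQ q hq
    have h3 : 1 / (q : ℝ) ^ 2 ≤ (1 / 2) * (1 / (q : ℝ)) := by
      rw [pow_two, one_div_mul_eq_div, ← one_div_mul_one_div]
      have h5 : 1 / (q : ℝ) ≤ 1 / 2 := one_div_le_one_div_of_le (by norm_num) h2
      have h6 : 0 ≤ 1 / (q : ℝ) := by positivity
      nlinarith
    have h4 := Real.add_one_le_exp (-(1 / 2) * (1 / (q : ℝ)))
    linarith

/-- finitely many odd primes make the density small -/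
theorem exists_Q (ε : ℝ) (hε : 0 < ε) :
    ∃ Q : Finset ℕ, (∀ q ∈ Q, q.Prime ∧ q ≠ 2) ∧ dens Q ≤ ε := by
  have h1 := not_summable_one_div_on_primes
  have h2 : Filter.Tendsto (fun n => ∑ i ∈ Finset.range n,
      (Set.indicator {p : ℕ | p.Prime} (fun n : ℕ => (1 : ℝ) / n)) i) Filter.atTop Filter.atTop := by
    rw [← not_summable_iff_tendsto_nat_atTop_of_nonneg]
    · exact h1
    · intro n
      refine Set.indicator_nonneg (fun n _ => by positivity) n
  obtain ⟨n, hn⟩ := (h2.eventually (Filter.eventually_ge_atTop (1 + 2 * |Real.log ε|))).exists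
  refine ⟨(Finset.range n).filter (fun q => q.Prime ∧ q ≠ 2), fun q hq =>
    (Finset.mem_filter.mp hq).2, ?_⟩
  refine (dens_le_exp _ (fun q hq => (Finset.mem_filter.mp hq).2.1.two_le)).trans ?_
  have h3 : ∑ i ∈ Finset.range n,
      (Set.indicator {p : ℕ | p.Prime} (fun n : ℕ => (1 : ℝ) / n)) i ≤
      1 / 2 + ∑ q ∈ (Finset.range n).filter (fun q => q.Prime ∧ q ≠ 2), 1 / (q : ℝ) := by
    have h4 : ∑ i ∈ Finset.range n,
        (Set.indicator {p : ℕ | p.Prime} (fun n : ℕ => (1 : ℝ) / n)) i =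
        ∑ q ∈ (Finset.range n).filter (fun q => q.Prime), 1 / (q : ℝ) := by
      rw [Finset.sum_filter]
      refine Finset.sum_congr rfl fun i _ => ?_
      rw [Set.indicator_apply]
      rfl
    have h5 : (Finset.range n).filter (fun q => q.Prime) ⊆
        insert 2 ((Finset.range n).filter (fun q => q.Prime ∧ q ≠ 2)) := by
      intro q hq
      rw [Finset.mem_filter] at hq
      by_cases h : q = 2
      · rw [h]
        exact Finset.mem_insert_self _ _
      · exact Finset.mem_insert_of_mem (Finset.mem_filter.mpr ⟨hq.1, hq.2, h⟩)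
    rw [h4]
    refine (Finset.sum_le_sum_of_subset_of_nonneg h5 (fun _ _ _ => by positivity)).trans ?_
    rw [Finset.sum_insert]
    · norm_num
    · simp
  have h6 : |Real.log ε| ≤ (1 / 2) * ∑ q ∈ (Finset.range n).filter
      (fun q => q.Prime ∧ q ≠ 2), 1 / (q : ℝ) := by
    linarith
  calc Real.exp (-(1 / 2) * ∑ q ∈ (Finset.range n).filter (fun q => q.Prime ∧ q ≠ 2),
        1 / (q : ℝ)) ≤ Real.exp (Real.log ε) := by
        refine Real.exp_le_exp.mpr ?_
        have := neg_abs_le (Real.log ε)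
        linarith
    _ = ε := Real.exp_log hε

end PAP
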