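import Pool.Agent.helper36.PAP.Core
import Pool.Agent.helper36.PAP.Cnt

/-!
# Many points lie on useful subcubes
-/

namespace PAP

open Finset

theorem sum_testBit (h : ℕ) : ∀ u : ℕ, u < 2 ^ h →
    ∑ i ∈ Finset.range h, (if u.testBit i = true then 2 ^ i else 0) = u := by
  induction h with
  | zero =>
    intro u hu
    simp at hu
    simp [hu]
  | succ h ih =>
    intro u hu
    rw [Finset.sum_range_succ']
    have h1 : ∀ i, u.testBit (i + 1) = (u / 2).testBit i := fun i => Nat.testBit_succ u i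
    have h2 := ih (u / 2) (by rw [pow_succ] at hu; omega)
    have h3 : ∑ i ∈ Finset.range h, (if u.testBit (i + 1) = true then 2 ^ (i + 1) else 0) =
        2 * ∑ i ∈ Finset.range h, (if (u / 2).testBit i = true then 2 ^ i else 0) := by
      rw [Finset.mul_sum]
      refine Finset.sum_congr rfl fun i _ => ?_
      rw [h1 i]
      split_ifs
      · rw [pow_succ]
        ring
      · rfl
    rw [h3, h2, Nat.testBit_zero]
    rcases Nat.mod_two_eq_zero_or_one u with h4 | h4
    · simp [h4]
      omega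
    · simp [h4]
      omega

/-- replace the low bits of `b` by the digits of `u` -/
def putb {k : ℕ} (h : ℕ) (b : Fin k → Bool) (u : ℕ) : Fin k → Bool :=
  fun i => if (i : ℕ) < h then u.testBit i else b i

theorem num_putb {k h : ℕ} (hk : h ≤ k) (b : Fin k → Bool) (u : ℕ) (hu : u < 2 ^ h)
    (hb : ∀ i : Fin k, (i : ℕ) < h → b i = false) : num (putb h b u) = u + num b := by
  unfold num putb
  have h1 : ∀ i : Fin k, (if (if (i : ℕ) < h then u.testBit i else b i) = true then
      2 ^ (i : ℕ) else 0) = (if (i : ℕ) < h then (if u.testBit i = true then 2 ^ (i : ℕ) else 0)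
        else 0) + (if b i = true then 2 ^ (i : ℕ) else 0) := by
    intro i
    by_cases hi : (i : ℕ) < h
    · simp [hi, hb i hi]
    · simp [hi]
  rw [Finset.sum_congr rfl (fun i _ => h1 i), Finset.sum_add_distrib]
  congr 1
  rw [Fin.sum_univ_eq_sum_range (fun i => if i < h then (if u.testBit i = true then 2 ^ i else 0)
    else 0) k, ← Finset.sum_filter]
  have h2 : (Finset.range k).filter (fun i => i < h) = Finset.range h := by
    ext i
    simp only [Finset.mem_filter, Finset.mem_range]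
    omega
  rw [h2]
  exact sum_testBit h u hu

theorem num_ge {k : ℕ} (b : Fin k → Bool) (i : Fin k) (hi : b i = true) :
    2 ^ (i : ℕ) ≤ num b := by
  unfold num
  have := Finset.single_le_sum (f := fun i : Fin k => if b i = true then 2 ^ (i : ℕ) else 0)
    (fun _ _ => Nat.zero_le _) (Finset.mem_univ i)
  simp only [if_pos hi] at this
  exact this

theorem num_lt_top {k : ℕ} (b : Fin k → Bool) (i : Fin k) (hi : (i : ℕ) + 1 = k)
    (h : b i = false) : num b < 2 ^ (i : ℕ) := by
  obtain ⟨k', rfl⟩ : ∃ k', k = k' + 1 := ⟨k - 1, by omega⟩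
  have hil : i = Fin.last k' := Fin.ext (by simp; omega)
  subst hil
  unfold num
  rw [Fin.sum_univ_castSucc, h]
  simp only [Fin.val_castSucc, Bool.false_eq_true, if_false, add_zero, Fin.val_last]
  exact num_lt (fun i : Fin k' => b (Fin.castSucc i))

/-- replace the low bits of both numbers -/
def put {k : ℕ} (h : ℕ) (z : Fin k ⊕ Fin k → Bool) (u v : ℕ) : Fin k ⊕ Fin k → Bool :=
  Sum.elim (putb h (fun i => z (Sum.inl i)) u) (putb h (fun i => z (Sum.inr i)) v)

theorem put_update_l {k h : ℕ} (z : Fin k ⊕ Fin k → Bool) (u v : ℕ) (i : Fin k)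
    (hi : h ≤ (i : ℕ)) (c : Bool) :
    Function.update (put h z u v) (Sum.inl i) c = put h (Function.update z (Sum.inl i) c) u v := by
  funext w
  rcases w with j | j
  · by_cases hj : j = i
    · subst hj
      simp [put, putb, not_lt.mpr hi]
    · have h1 : (Sum.inl j : Fin k ⊕ Fin k) ≠ Sum.inl i := by simpa using hj
      rw [Function.update_of_ne h1]
      simp [put, putb, Function.update_of_ne hj]
  · rw [Function.update_of_ne (by simp)]
    simp [put, putb, Function.update_apply]

theorem put_update_r {k h : ℕ} (z : Fin k ⊕ Fin k → Bool) (u v : ℕ) (i : Fin k)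
    (hi : h ≤ (i : ℕ)) (c : Bool) :
    Function.update (put h z u v) (Sum.inr i) c = put h (Function.update z (Sum.inr i) c) u v := by
  funext w
  rcases w with j | j
  · rw [Function.update_of_ne (by simp)]
    simp [put, putb, Function.update_apply]
  · by_cases hj : j = i
    · subst hj
      simp [put, putb, not_lt.mpr hi]
    · have h1 : (Sum.inr j : Fin k ⊕ Fin k) ≠ Sum.inr i := by simpa using hj
      rw [Function.update_of_ne h1]
      simp [put, putb, Function.update_of_ne hj]

theorem pt_put {k h : ℕ} (q : Fin k × Fin k × Fin k) (h1 : h ≤ (q.1 : ℕ)) (h2 : h ≤ (q.2.1 : ℕ))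
    (h3 : h ≤ (q.2.2 : ℕ)) (z : Fin k ⊕ Fin k → Bool) (u v : ℕ) (e1 e2 c : Bool) :
    pt q (put h z u v) e1 e2 c = put h (pt q z e1 e2 c) u v := by
  unfold pt
  rw [put_update_l _ _ _ _ h1, put_update_l _ _ _ _ h2, put_update_r _ _ _ _ h3]

/-- the admissible values of the high bits -/
def Zset (k h : ℕ) : Finset (Fin k ⊕ Fin k → Bool) :=
  Fintype.piFinset (Sum.elim
    (fun i : Fin k => if (i : ℕ) < h then {false} else if (i : ℕ) + 1 = k then {false} else
      if (i : ℕ) + 2 = k then {true} else Finset.univ)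
    (fun i : Fin k => if (i : ℕ) < h then {false} else if (i : ℕ) + 1 = k then {true} else
      Finset.univ))

theorem card_Zset (k h : ℕ) (hk : h + 3 ≤ k) : (Zset k h).card = 2 ^ (2 * k - 2 * h - 3) := by
  unfold Zset
  rw [Fintype.card_piFinset, Fintype.prod_sum_type]
  simp only [Sum.elim_inl, Sum.elim_inr]
  have h1 : ∀ i : Fin k, (if (i : ℕ) < h then ({false} : Finset Bool) else
      if (i : ℕ) + 1 = k then {false} else if (i : ℕ) + 2 = k then {true}
        else Finset.univ).card = if (i : ℕ) ∈ Finset.Ico h (k - 2) then 2 else 1 := by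
    intro i
    have := i.isLt
    simp only [Finset.mem_Ico]
    split_ifs <;> first | rfl | omega
  have h2 : ∀ i : Fin k, (if (i : ℕ) < h then ({false} : Finset Bool) else
      if (i : ℕ) + 1 = k then {true} else Finset.univ).card =
        if (i : ℕ) ∈ Finset.Ico h (k - 1) then 2 else 1 := by
    intro i
    have := i.isLt
    simp only [Finset.mem_Ico]
    split_ifs <;> first | rfl | omega
  rw [Finset.prod_congr rfl (fun i _ => h1 i), Finset.prod_congr rfl (fun i _ => h2 i),
    Fin.prod_univ_eq_prod_range (fun i => if i ∈ Finset.Ico h (k - 2) then 2 else 1) k,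
    Fin.prod_univ_eq_prod_range (fun i => if i ∈ Finset.Ico h (k - 1) then 2 else 1) k,
    Finset.prod_ite_mem, Finset.prod_ite_mem, Finset.prod_const, Finset.prod_const]
  have h3 : Finset.range k ∩ Finset.Ico h (k - 2) = Finset.Ico h (k - 2) := by
    rw [Finset.inter_eq_right]
    intro i hi
    rw [Finset.mem_Ico] at hi
    rw [Finset.mem_range]
    omega
  have h4 : Finset.range k ∩ Finset.Ico h (k - 1) = Finset.Ico h (k - 1) := by
    rw [Finset.inter_eq_right]
    intro i hi
    rw [Finset.mem_Ico] at hi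
    rw [Finset.mem_range]
    omega
  rw [h3, h4, Nat.card_Ico, Nat.card_Ico, ← pow_add]
  congr 1
  omega

theorem mem_Zset {k h : ℕ} {z : Fin k ⊕ Fin k → Bool} (hz : z ∈ Zset k h) :
    (∀ i : Fin k, (i : ℕ) < h → z (Sum.inl i) = false) ∧
    (∀ i : Fin k, (i : ℕ) < h → z (Sum.inr i) = false) ∧
    (∀ i : Fin k, h ≤ (i : ℕ) → (i : ℕ) + 1 = k → z (Sum.inl i) = false) ∧
    (∀ i : Fin k, h ≤ (i : ℕ) → (i : ℕ) + 2 = k → z (Sum.inl i) = true) ∧
    (∀ i : Fin k, h ≤ (i : ℕ) → (i : ℕ) + 1 = k → z (Sum.inr i) = true) := by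
  unfold Zset at hz
  rw [Fintype.mem_piFinset] at hz
  refine ⟨fun i hi => ?_, fun i hi => ?_, fun i hi hi2 => ?_, fun i hi hi2 => ?_,
    fun i hi hi2 => ?_⟩
  · have := hz (Sum.inl i)
    rw [Sum.elim_inl, if_pos hi] at this
    exact Finset.mem_singleton.mp this
  · have := hz (Sum.inr i)
    rw [Sum.elim_inr, if_pos hi] at this
    exact Finset.mem_singleton.mp this
  · have := hz (Sum.inl i)
    rw [Sum.elim_inl, if_neg (not_lt.mpr hi), if_pos hi2] at this
    exact Finset.mem_singleton.mp this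
  · have := hz (Sum.inl i)
    rw [Sum.elim_inl, if_neg (not_lt.mpr hi), if_neg (by omega), if_pos hi2] at this
    exact Finset.mem_singleton.mp this
  · have := hz (Sum.inr i)
    rw [Sum.elim_inr, if_neg (not_lt.mpr hi), if_pos hi2] at this
    exact Finset.mem_singleton.mp this

theorem aOf_put {k h : ℕ} (hk : h ≤ k) (z : Fin k ⊕ Fin k → Bool) (u v : ℕ) (hu : u < 2 ^ h)
    (hz : ∀ i : Fin k, (i : ℕ) < h → z (Sum.inl i) = false) :
    aOf (put h z u v) = u + aOf z :=
  num_putb hk (fun i => z (Sum.inl i)) u hu hz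

theorem nOf_put {k h : ℕ} (hk : h ≤ k) (z : Fin k ⊕ Fin k → Bool) (u v : ℕ) (hv : v < 2 ^ h)
    (hz : ∀ i : Fin k, (i : ℕ) < h → z (Sum.inr i) = false) :
    nOf (put h z u v) = v + nOf z :=
  num_putb hk (fun i => z (Sum.inr i)) v hv hz

theorem pt_far {k : ℕ} (q : Fin k × Fin k × Fin k) (z : Fin k ⊕ Fin k → Bool) (e1 e2 c : Bool)
    (w : Fin k ⊕ Fin k) (h1 : w ≠ Sum.inl q.1) (h2 : w ≠ Sum.inl q.2.1)
    (h3 : w ≠ Sum.inr q.2.2) : pt q z e1 e2 c w = z w := by
  unfold pt
  rw [Function.update_of_ne h3, Function.update_of_ne h2, Function.update_of_ne h1]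

open Classical in
theorem card_valid {k h : ℕ} (hk1 : 2 * h ≤ k) (hk2 : k ≤ 2 * h + 1) (hh : 17 ≤ h)
    (q : Fin k × Fin k × Fin k)
    (h1 : h ≤ (q.1 : ℕ)) (h2 : h ≤ (q.2.1 : ℕ)) (h3 : h ≤ (q.2.2 : ℕ))
    (g1 : (q.1 : ℕ) + 2 < k) (g2 : (q.2.1 : ℕ) + 2 < k) (g3 : (q.2.2 : ℕ) + 2 < k) :
    (4 : ℝ) ^ k / 800 ≤ ((Finset.univ.filter (fun x => Valid q x)).card : ℝ) := by
  set X := 2 ^ h with hX
  have hXge : 2 ^ 17 ≤ X := Nat.pow_le_pow_right (by norm_num) hh
  set α : (Fin k ⊕ Fin k → Bool) → ℕ := fun z => aOf (pt q z false false false) with hα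
  set ν : (Fin k ⊕ Fin k → Bool) → ℕ := fun z => nOf (pt q z false false false) with hν
  set I : (Fin k ⊕ Fin k → Bool) → Finset (ℕ × ℕ) := fun z =>
    (offs q).image (fun p => (p.1 + α z, p.2 + ν z)) with hI
  set G : (Fin k ⊕ Fin k → Bool) → Finset (ℕ × ℕ) := fun z =>
    (Finset.range X ×ˢ Finset.range X).filter (fun w : ℕ × ℕ =>
      (α z + w.1) % 3 = 1 ∧ (ν z + w.2) % 6 = 3 ∧
        ∀ p ∈ I z, ∀ q : ℕ, q.Prime → 5 ≤ q → ¬ (q ∣ p.1 + w.1 ∧ q ∣ p.2 + w.2)) with hG
  -- positions
  have kpos : 3 ≤ k := by omega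
  set top : Fin k := ⟨k - 1, by omega⟩ with htop
  set sub : Fin k := ⟨k - 2, by omega⟩ with hsub
  have far : ∀ (i : Fin k), k ≤ (i : ℕ) + 2 → i ≠ q.1 ∧ i ≠ q.2.1 ∧ i ≠ q.2.2 := by
    intro i hi
    refine ⟨fun e => ?_, fun e => ?_, fun e => ?_⟩ <;> rw [e] at hi <;> omega
  have ftop := far top (by simp [htop]; omega)
  have fsub := far sub (by simp [hsub]; omega)
  have lowl : ∀ z ∈ Zset k h, ∀ e1 e2 c, ∀ i : Fin k, (i : ℕ) < h →
      pt q z e1 e2 c (Sum.inl i) = false := by
    intro z hz e1 e2 c i hi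
    rw [pt_far q z e1 e2 c _ (fun e => by have := Sum.inl.inj e; rw [this] at hi; omega)
      (fun e => by have := Sum.inl.inj e; rw [this] at hi; omega) (by simp)]
    exact (mem_Zset hz).1 i hi
  have lowr : ∀ z ∈ Zset k h, ∀ e1 e2 c, ∀ i : Fin k, (i : ℕ) < h →
      pt q z e1 e2 c (Sum.inr i) = false := by
    intro z hz e1 e2 c i hi
    rw [pt_far q z e1 e2 c _ (by simp) (by simp)
      (fun e => by have := Sum.inr.inj e; rw [this] at hi; omega)]
    exact (mem_Zset hz).2.1 i hi
  have hcard : ∀ z ∈ Zset k h, (X : ℝ) ^ 2 / 100 ≤ ((G z).card : ℝ) := by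
    intro z hz
    refine cnt X hXge (α z) (ν z) (I z) (Finset.card_image_le.trans (card_offs q)) ?_
    intro p hp
    rw [hI, Finset.mem_image] at hp
    obtain ⟨p0, hp0, rfl⟩ := hp
    have hsubt : 2 ^ (k - 2) ≤ α z := by
      have := num_ge (fun i => pt q z false false false (Sum.inl i)) sub (by
        show pt q z false false false (Sum.inl sub) = true
        rw [pt_far q z _ _ _ _ (by simpa using fsub.1) (by simpa using fsub.2.1) (by simp)]
        exact (mem_Zset hz).2.2.2.1 sub (by simp [hsub]; omega) (by simp [hsub]; omega))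
      exact this
    have hpos : 1 ≤ 2 ^ (k - 2) := Nat.one_le_two_pow
    have hub : α z < 2 ^ k := num_lt _
    have b1 : 2 ^ (q.1 : ℕ) ≤ 2 ^ (k - 2) := Nat.pow_le_pow_right (by norm_num) (by omega)
    have b2 : 2 ^ (q.2.1 : ℕ) ≤ 2 ^ (k - 2) := Nat.pow_le_pow_right (by norm_num) (by omega)
    have b3 : 2 ^ (k - 2) + 2 ^ (k - 2) ≤ 2 ^ k := by
      have : 2 ^ k = 4 * 2 ^ (k - 2) := by
        rw [show k = (k - 2) + 2 by omega, pow_add]
        simp
        ring
      omega
    have b4 : p0.1 ≤ 2 ^ k := by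
      unfold offs at hp0
      simp only [Finset.mem_insert, Finset.mem_singleton] at hp0
      rcases hp0 with h | h | h | h | h | h <;> rw [h] <;> simp only <;> omega
    have b5 : 2 ^ k + 2 ^ k + 2 ^ h ≤ (2 ^ h) ^ 3 := by
      have e1 : 2 ^ k ≤ 2 ^ (2 * h + 1) := Nat.pow_le_pow_right (by norm_num) hk2
      have e2 : 2 ^ (2 * h + 1) = 2 * (2 ^ h) ^ 2 := by
        rw [pow_succ, pow_mul']
        ring
      have e3 : 8 ≤ 2 ^ h := by
        calc 8 = 2 ^ 3 := by norm_num
          _ ≤ 2 ^ h := Nat.pow_le_pow_right (by norm_num) (by omega)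
      have e4 : (2 ^ h) ^ 3 = (2 ^ h) ^ 2 * 2 ^ h := by ring
      rw [e2] at e1
      rw [e4]
      nlinarith [Nat.mul_le_mul_left ((2 ^ h) ^ 2) e3]
    refine ⟨?_, ?_⟩
    · show 1 ≤ p0.1 + α z
      omega
    · show p0.1 + α z + X ≤ X ^ 3
      rw [hX]
      omega
  have hinj : ((Zset k h).sigma G).card ≤ (Finset.univ.filter (fun x => Valid q x)).card := by
    refine Finset.card_le_card_of_injOn (fun w => put h w.1 w.2.1 w.2.2) ?_ ?_
    · rintro ⟨z, u, v⟩ hw
      simp only [Finset.coe_sigma, Set.mem_sigma_iff, Finset.mem_coe] at hw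
      obtain ⟨hz, hg⟩ := hw
      rw [hG, Finset.mem_filter, Finset.mem_product, Finset.mem_range, Finset.mem_range] at hg
      obtain ⟨⟨hu, hv⟩, m3, m6, hr⟩ := hg
      simp only at hu hv m3 m6 hr
      simp only [Finset.coe_filter, Finset.mem_univ, true_and, Set.mem_ofPred_eq]
      have ea : ∀ e1 e2 c, aOf (pt q (put h z u v) e1 e2 c) = u + aOf (pt q z e1 e2 c) := by
        intro e1 e2 c
        rw [pt_put q h1 h2 h3, aOf_put (by omega) _ _ _ hu (lowl z hz e1 e2 c)]
      have en : ∀ e1 e2 c, nOf (pt q (put h z u v) e1 e2 c) = v + nOf (pt q z e1 e2 c) := by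
        intro e1 e2 c
        rw [pt_put q h1 h2 h3, nOf_put (by omega) _ _ _ hv (lowr z hz e1 e2 c)]
      refine ⟨fun e1 e2 c => ?_, ?_, ?_, ?_⟩
      · set x' := pt q (put h z u v) e1 e2 c with hx'
        have d1 : x' (Sum.inl top) = false := by
          rw [hx', pt_far q _ _ _ _ _ (by simpa using ftop.1) (by simpa using ftop.2.1) (by simp)]
          have : ¬ ((top : ℕ) < h) := by simp [htop]; omega
          simp only [put, putb, Sum.elim_inl, if_neg this]
          exact (mem_Zset hz).2.2.1 top (by omega) (by simp [htop]; omega)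
        have d2 : x' (Sum.inl sub) = true := by
          rw [hx', pt_far q _ _ _ _ _ (by simpa using fsub.1) (by simpa using fsub.2.1) (by simp)]
          have : ¬ ((sub : ℕ) < h) := by simp [hsub]; omega
          simp only [put, putb, Sum.elim_inl, if_neg this]
          exact (mem_Zset hz).2.2.2.1 sub (by omega) (by simp [hsub]; omega)
        have d3 : x' (Sum.inr top) = true := by
          rw [hx', pt_far q _ _ _ _ _ (by simp) (by simp) (by simpa using ftop.2.2)]
          have : ¬ ((top : ℕ) < h) := by simp [htop]; omega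
          simp only [put, putb, Sum.elim_inr, if_neg this]
          exact (mem_Zset hz).2.2.2.2 top (by omega) (by simp [htop]; omega)
        have f1 := num_lt_top (fun i => x' (Sum.inl i)) top (by simp [htop]; omega) d1
        have f2 := num_ge (fun i => x' (Sum.inl i)) sub d2
        have f3 := num_ge (fun i => x' (Sum.inr i)) top d3
        have f4 : 3 < 2 ^ (sub : ℕ) := by
          calc 3 < 2 ^ 2 := by norm_num
            _ ≤ 2 ^ (sub : ℕ) := Nat.pow_le_pow_right (by norm_num) (by simp [hsub]; omega)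
        unfold aOf nOf
        omega
      · rw [ea]
        rw [add_comm]
        exact m3
      · rw [en, add_comm]
        exact m6
      · intro p hp r hrp h5 hrd
        apply hr (p.1 + α z, p.2 + ν z) (by
          rw [hI, Finset.mem_image]
          exact ⟨p, hp, rfl⟩) r hrp h5
        rw [ea, en] at hrd
        simp only
        rw [add_assoc, add_comm (α z), add_assoc, add_comm (ν z)]
        exact hrd
    · rintro ⟨z, u, v⟩ hw ⟨z', u', v'⟩ hw' heq
      simp only [Finset.coe_sigma, Set.mem_sigma_iff, Finset.mem_coe] at hw hw'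
      obtain ⟨hz, hg⟩ := hw
      obtain ⟨hz', hg'⟩ := hw'
      rw [hG, Finset.mem_filter, Finset.mem_product, Finset.mem_range, Finset.mem_range] at hg hg'
      obtain ⟨⟨hu, hv⟩, _⟩ := hg
      obtain ⟨⟨hu', hv'⟩, _⟩ := hg'
      simp only at hu hv hu' hv' heq
      have hzz : z = z' := by
        funext w
        rcases w with i | i
        · by_cases hi : (i : ℕ) < h
          · rw [(mem_Zset hz).1 i hi, (mem_Zset hz').1 i hi]
          · have := congrFun heq (Sum.inl i)
            simpa [put, putb, hi] using this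
        · by_cases hi : (i : ℕ) < h
          · rw [(mem_Zset hz).2.1 i hi, (mem_Zset hz').2.1 i hi]
          · have := congrFun heq (Sum.inr i)
            simpa [put, putb, hi] using this
      subst hzz
      have hea := congrArg aOf heq
      have hen := congrArg nOf heq
      rw [aOf_put (by omega) z u v hu (mem_Zset hz).1,
        aOf_put (by omega) z u' v' hu' (mem_Zset hz).1] at hea
      rw [nOf_put (by omega) z u v hv (mem_Zset hz).2.1,
        nOf_put (by omega) z u' v' hv' (mem_Zset hz).2.1] at hen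
      have e1 : u = u' := by omega
      have e2 : v = v' := by omega
      subst e1 e2
      rfl
  have hfin : ((Zset k h).card : ℝ) * ((X : ℝ) ^ 2 / 100) ≤
      ((Finset.univ.filter (fun x => Valid q x)).card : ℝ) := by
    calc ((Zset k h).card : ℝ) * ((X : ℝ) ^ 2 / 100)
        = ∑ z ∈ Zset k h, ((X : ℝ) ^ 2 / 100) := by rw [Finset.sum_const, nsmul_eq_mul]
      _ ≤ ∑ z ∈ Zset k h, ((G z).card : ℝ) := Finset.sum_le_sum hcard
      _ = (((Zset k h).sigma G).card : ℝ) := by rw [Finset.card_sigma]; push_cast; rfl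
      _ ≤ _ := by exact_mod_cast hinj
  refine le_trans (le_of_eq ?_) hfin
  rw [card_Zset k h (by omega), hX]
  push_cast
  have e : (4 : ℝ) ^ k = 2 ^ (2 * k - 2 * h - 3) * (2 ^ h) ^ 2 * 8 := by
    rw [← pow_mul, ← pow_add, show (8 : ℝ) = 2 ^ 3 by norm_num, ← pow_add,
      show (4 : ℝ) = 2 ^ 2 by norm_num, ← pow_mul]
    congr 1
    omega
  rw [e]
  ring

end PAP
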