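import Pool.Agent.helper36.PAP.Loc
import Pool.Agent.helper36.PAP.NT2
import Pool.Agent.helper36.PAP.Bad2
import Pool.Agent.helper36.PAP.ValidCnt

/-!
# The success density of bounded depth circuits tends to zero
-/

namespace PAP

open Finset

theorem thr (n : ℕ) (c ε : ℝ) (hc : 0 ≤ c) (hε : 0 < ε) : ∃ K0 : ℕ, ∀ t : ℕ, K0 ≤ t →
    c * (40 * (t : ℝ)) ^ n ≤ ε * 2 ^ t := by
  have h := tendsto_pow_const_div_const_pow_of_one_lt n (r := (2 : ℝ)) (by norm_num)
  have hpos : (0 : ℝ) < ε / (c * 40 ^ n + 1) := by positivity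
  obtain ⟨K0, hK0⟩ := (h.eventually (gt_mem_nhds hpos)).exists_forall_of_atTop
  refine ⟨K0, fun t ht => ?_⟩
  have h3 := hK0 t ht
  rw [div_lt_div_iff₀ (by positivity) (by positivity)] at h3
  have e : c * (40 * (t : ℝ)) ^ n = (c * 40 ^ n) * (t : ℝ) ^ n := by
    rw [mul_pow]
    ring
  rw [e]
  have h4 : (0 : ℝ) ≤ (t : ℝ) ^ n := by positivity
  nlinarith

/-- the classes of positions -/
def Ecl (k o r : ℕ) : Fin r ⊕ Fin r → Finset (Fin k ⊕ Fin k) :=
  Sum.elim
    (fun l => (Finset.univ.filter (fun i : Fin k => (i : ℕ) % (o * r) = o * l)).image Sum.inl)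
    (fun l => (Finset.univ.filter (fun i : Fin k => (i : ℕ) % (o * r) = o * l)).image Sum.inr)

theorem card_cls (k o r : ℕ) (ho : 1 ≤ o) (l : Fin r) :
    k / (o * r) ≤ (Finset.univ.filter (fun i : Fin k => (i : ℕ) % (o * r) = o * l)).card := by
  have hr : 1 ≤ r := by
    have := l.isLt
    omega
  have hD : 0 < o * r := Nat.mul_pos ho hr
  rcases Nat.eq_zero_or_pos k with hk0 | hkpos
  · rw [hk0, Nat.zero_div]
    exact Nat.zero_le _
  have hl : o * l < o * r := Nat.mul_lt_mul_of_pos_left l.isLt ho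
  have h1 : (Finset.range (k / (o * r))).card ≤
      (Finset.univ.filter (fun i : Fin k => (i : ℕ) % (o * r) = o * l)).card := by
    have hlt : ∀ i, i < k / (o * r) → (o * r) * i + o * l < k := by
      intro i hi
      have h2 : (o * r) * (i + 1) ≤ (o * r) * (k / (o * r)) := Nat.mul_le_mul_left _ hi
      have h3 := Nat.mul_div_le k (o * r)
      rw [mul_add, mul_one] at h2
      omega
    refine Finset.card_le_card_of_injOn
      (fun i => if hi : (o * r) * i + o * l < k then ⟨(o * r) * i + o * l, hi⟩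
        else ⟨0, hkpos⟩) ?_ ?_
    · intro i hi
      simp only [Finset.coe_range, Set.mem_Iio] at hi
      simp only [dif_pos (hlt i hi)]
      simp only [Finset.coe_filter, Finset.mem_univ, true_and, Set.mem_ofPred_eq]
      rw [Nat.mul_add_mod, Nat.mod_eq_of_lt hl]
    · intro i hi j hj hij
      simp only [Finset.coe_range, Set.mem_Iio] at hi hj
      simp only [dif_pos (hlt i hi), dif_pos (hlt j hj), Fin.mk.injEq] at hij
      exact Nat.eq_of_mul_eq_mul_left hD (by omega)
  rwa [Finset.card_range] at h1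

theorem card_Ecl (k o r : ℕ) (ho : 1 ≤ o) (l : Fin r ⊕ Fin r) :
    k / (o * r) ≤ (Ecl k o r l).card := by
  rcases l with l | l
  · show k / (o * r) ≤ ((Finset.univ.filter
      (fun i : Fin k => (i : ℕ) % (o * r) = o * l)).image Sum.inl).card
    rw [Finset.card_image_of_injective _ Sum.inl_injective]
    exact card_cls k o r ho l
  · show k / (o * r) ≤ ((Finset.univ.filter
      (fun i : Fin k => (i : ℕ) % (o * r) = o * l)).image Sum.inr).card
    rw [Finset.card_image_of_injective _ Sum.inr_injective]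
    exact card_cls k o r ho l

theorem mem_Ecl_inl {k o r : ℕ} {l : Fin r} {v : Fin k ⊕ Fin k}
    (h : v ∈ Ecl k o r (Sum.inl l)) : ∃ i : Fin k, v = Sum.inl i ∧ (i : ℕ) % (o * r) = o * l := by
  obtain ⟨i, hi, rfl⟩ := Finset.mem_image.mp h
  exact ⟨i, rfl, (Finset.mem_filter.mp hi).2⟩

theorem mem_Ecl_inr {k o r : ℕ} {l : Fin r} {v : Fin k ⊕ Fin k}
    (h : v ∈ Ecl k o r (Sum.inr l)) : ∃ i : Fin k, v = Sum.inr i ∧ (i : ℕ) % (o * r) = o * l := by
  obtain ⟨i, hi, rfl⟩ := Finset.mem_image.mp h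
  exact ⟨i, rfl, (Finset.mem_filter.mp hi).2⟩

theorem disj_Ecl (k o r : ℕ) (ho : 1 ≤ o) (l l' : Fin r ⊕ Fin r) (h : l ≠ l') :
    Disjoint (Ecl k o r l) (Ecl k o r l') := by
  rw [Finset.disjoint_left]
  intro v hv hv'
  rcases l with l | l <;> rcases l' with l' | l'
  · obtain ⟨i, rfl, hi⟩ := mem_Ecl_inl hv
    obtain ⟨i', hii, hi'⟩ := mem_Ecl_inl hv'
    rw [← Sum.inl.inj hii, hi] at hi'
    have := Nat.eq_of_mul_eq_mul_left ho hi'
    exact h (congrArg Sum.inl (Fin.ext this))
  · obtain ⟨i, rfl, _⟩ := mem_Ecl_inl hv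
    obtain ⟨i', hii, _⟩ := mem_Ecl_inr hv'
    cases hii
  · obtain ⟨i, rfl, _⟩ := mem_Ecl_inr hv
    obtain ⟨i', hii, _⟩ := mem_Ecl_inl hv'
    cases hii
  · obtain ⟨i, rfl, hi⟩ := mem_Ecl_inr hv
    obtain ⟨i', hii, hi'⟩ := mem_Ecl_inr hv'
    rw [← Sum.inr.inj hii, hi] at hi'
    have := Nat.eq_of_mul_eq_mul_left ho hi'
    exact h (congrArg Sum.inr (Fin.ext this))

/-- the order of two -/
def ordQ (Q : Finset ℕ) : ℕ := ∏ q ∈ Q, (q - 1)

theorem two_pow_rq (Q : Finset ℕ) (hQ : ∀ q ∈ Q, q.Prime ∧ q ≠ 2) (i : ℕ)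
    (hi : ordQ Q ∣ i) : (2 : RQ Q) ^ i = 1 := by
  funext q
  have : Fact (Nat.Prime (q : ℕ)) := ⟨(hQ q.1 q.2).1⟩
  have h2 : (2 : ZMod (q : ℕ)) ≠ 0 := by
    intro h
    have h3 : ((2 : ℕ) : ZMod (q : ℕ)) = 0 := by exact_mod_cast h
    rw [ZMod.natCast_eq_zero_iff] at h3
    exact (hQ q.1 q.2).2 ((Nat.prime_dvd_prime_iff_eq (hQ q.1 q.2).1 Nat.prime_two).mp h3)
  have h4 : (q : ℕ) - 1 ∣ i := (Finset.dvd_prod_of_mem (fun q => q - 1) q.2).trans hi
  obtain ⟨j, rfl⟩ := h4
  show (2 : ZMod (q : ℕ)) ^ (((q : ℕ) - 1) * j) = 1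
  rw [pow_mul, ZMod.pow_card_sub_one_eq_one h2, one_pow]

theorem ordQ_pos (Q : Finset ℕ) (hQ : ∀ q ∈ Q, q.Prime ∧ q ≠ 2) : 1 ≤ ordQ Q := by
  unfold ordQ
  refine Finset.one_le_prod' fun q hq => ?_
  have := (hQ q hq).1.two_le
  omega

theorem num_inj {k : ℕ} : Function.Injective (num : (Fin k → Bool) → ℕ) := by
  have key : ∀ (k : ℕ) (b : Fin k → Bool), num b =
      ∑ i ∈ Finset.range k, (if (fun i => if h : i < k then b ⟨i, h⟩ else false) i = true
        then 2 ^ i else 0) := by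
    intro k b
    unfold num
    rw [← Fin.sum_univ_eq_sum_range (fun i => if (fun i => if h : i < k then b ⟨i, h⟩
      else false) i = true then 2 ^ i else 0) k]
    refine Finset.sum_congr rfl fun i _ => ?_
    simp
  have h2 : ∀ (k : ℕ) (f g : ℕ → Bool), ∑ i ∈ Finset.range k, (if f i = true then 2 ^ i else 0) =
      ∑ i ∈ Finset.range k, (if g i = true then 2 ^ i else 0) → ∀ i, i < k → f i = g i := by
    intro k
    induction k with
    | zero =>
      intro f g _ i hi
      omega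
    | succ k ih =>
      intro f g h i hi
      rw [Finset.sum_range_succ', Finset.sum_range_succ'] at h
      have e : ∀ f : ℕ → Bool, ∑ i ∈ Finset.range k, (if f (i + 1) = true then 2 ^ (i + 1) else 0) =
          2 * ∑ i ∈ Finset.range k, (if f (i + 1) = true then 2 ^ i else 0) := by
        intro f
        rw [Finset.mul_sum]
        refine Finset.sum_congr rfl fun i _ => ?_
        split_ifs
        · rw [pow_succ]
          ring
        · rfl
      rw [e f, e g] at h
      have hb : f 0 = g 0 := by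
        cases hf : f 0 <;> cases hg : g 0 <;> simp [hf, hg] at h ⊢ <;> omega
      have hs : ∑ i ∈ Finset.range k, (if f (i + 1) = true then 2 ^ i else 0) =
          ∑ i ∈ Finset.range k, (if g (i + 1) = true then 2 ^ i else 0) := by
        rw [hb] at h
        omega
      rcases Nat.eq_zero_or_pos i with hi0 | hi0
      · rw [hi0, hb]
      · have := ih (fun i => f (i + 1)) (fun i => g (i + 1)) hs (i - 1) (by omega)
        rwa [Nat.sub_add_cancel hi0] at this
  intro b b' hbb
  rw [key, key] at hbb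
  funext i
  have := h2 k _ _ hbb i i.isLt
  simpa using this

open Classical in
theorem card_small (k B : ℕ) :
    (Finset.univ.filter (fun x : Fin k ⊕ Fin k → Bool => aOf x ≤ B)).card ≤ (B + 1) * 2 ^ k := by
  have h : (Finset.univ.filter (fun x : Fin k ⊕ Fin k → Bool => aOf x ≤ B)).card ≤
      (Finset.range (B + 1) ×ˢ (Finset.univ : Finset (Fin k → Bool))).card := by
    refine Finset.card_le_card_of_injOn (fun x => (aOf x, fun i => x (Sum.inr i))) ?_ ?_
    · intro x hx
      rw [Finset.mem_coe, Finset.mem_filter] at hx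
      rw [Finset.mem_coe, Finset.mem_product, Finset.mem_range]
      exact ⟨Nat.lt_succ_of_le hx.2, Finset.mem_univ _⟩
    · intro x _ x' _ hxx
      simp only [Prod.mk.injEq] at hxx
      have h1 := num_inj hxx.1
      funext v
      rcases v with i | i
      · exact congrFun h1 i
      · exact congrFun hxx.2 i
  rw [Finset.card_product, Finset.card_range, Finset.card_univ, Fintype.card_fun,
    Fintype.card_bool, Fintype.card_fin] at h
  exact h

end PAP
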