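import Pool.Agent.helper36.PAP.Equi
import Pool.Agent.helper36.PAP.Core

/-!
# Affine functions on subcubes and the local bound
-/

namespace PAP

open Finset

variable {A : Type} [CommRing A]

section aff

variable {V : Type} [DecidableEq V]

/-- on the subcube, `g` is an affine function of the bits with the coefficients `coef` -/
def Aff (g : (V → Bool) → A) (T : Finset V) (x : V → Bool) (coef : V → A) : Prop :=
  ∃ C : A, ∀ y, g (mix T y x) = C + ∑ v ∈ T, if y v = true then coef v else 0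

theorem Aff.sub {g : (V → Bool) → A} {T T' : Finset V} {x : V → Bool} {coef : V → A}
    (h : Aff g T x coef) (hT : T' ⊆ T) (y : V → Bool) : Aff g T' (mix T y x) coef := by
  obtain ⟨C, hC⟩ := h
  refine ⟨C + ∑ v ∈ T \ T', (if y v = true then coef v else 0), fun y' => ?_⟩
  rw [mix_mix hT, hC, add_assoc, ← Finset.sum_sdiff hT]
  congr 1
  congr 1
  · refine Finset.sum_congr rfl fun v hv => ?_
    have : mix T' y' y v = y v := if_neg (Finset.mem_sdiff.mp hv).2
    rw [this]
  · refine Finset.sum_congr rfl fun v hv => ?_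
    have : mix T' y' y v = y' v := if_pos hv
    rw [this]

theorem simple_aff {m : ℕ} (b : (V → Bool) → Fin m → Bool) (T : Finset V) (x : V → Bool)
    (hs : ∀ j, Simple (fun y => b y j) T x) :
    ∃ coef : V → A, Aff (fun y => ((num (b y) : ℕ) : A)) T x coef := by
  choose c hcT hc using hs
  set g : Bool → Fin m → A := fun β j =>
    if b (mix T (fun _ => β) x) j = true then (2 : A) ^ (j : ℕ) else 0 with hg
  have key : ∀ y j, b (mix T y x) j = b (mix T (fun _ => y (c j)) x) j := by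
    intro y j
    refine hc j _ _ (mix_cube _ _ _) (mix_cube _ _ _) ?_
    unfold mix
    rw [if_pos (hcT j)]
  refine ⟨fun v => ∑ j : Fin m, if c j = v then g true j - g false j else 0,
    ∑ j : Fin m, g false j, fun y => ?_⟩
  have h1 : ((num (b (mix T y x)) : ℕ) : A) = ∑ j : Fin m, g (y (c j)) j := by
    unfold num
    push_cast
    refine Finset.sum_congr rfl fun j _ => ?_
    rw [hg, key y j]
  have h2 : ∑ v ∈ T, (if y v = true then ∑ j : Fin m,
      (if c j = v then g true j - g false j else 0) else 0) =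
      ∑ j : Fin m, (if y (c j) = true then g true j - g false j else 0) := by
    have h3 : ∀ v ∈ T, (if y v = true then ∑ j : Fin m,
        (if c j = v then g true j - g false j else 0) else 0) =
        ∑ j : Fin m, (if c j = v then (if y (c j) = true then g true j - g false j else 0)
          else 0) := by
      intro v _
      by_cases hy : y v = true
      · rw [if_pos hy]
        refine Finset.sum_congr rfl fun j _ => ?_
        by_cases hcv : c j = v
        · rw [if_pos hcv, if_pos hcv, hcv, if_pos hy]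
        · rw [if_neg hcv, if_neg hcv]
      · rw [if_neg hy]
        symm
        refine Finset.sum_eq_zero fun j _ => ?_
        by_cases hcv : c j = v
        · rw [if_pos hcv, hcv, if_neg hy]
        · rw [if_neg hcv]
    rw [Finset.sum_congr rfl h3, Finset.sum_comm]
    refine Finset.sum_congr rfl fun j _ => ?_
    rw [Finset.sum_ite_eq, if_pos (hcT j)]
  show ((num (b (mix T y x)) : ℕ) : A) = _
  rw [h1, h2, ← Finset.sum_add_distrib]
  refine Finset.sum_congr rfl fun j _ => ?_
  cases y (c j)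
  · simp
  · simp

end aff

/-- the weights of the bits in the number `a` -/
def coefA (A : Type) [CommRing A] {k : ℕ} : Fin k ⊕ Fin k → A :=
  Sum.elim (fun i => (2 : A) ^ (i : ℕ)) (fun _ => 0)

/-- the weights of the bits in the number `n` -/
def coefN (A : Type) [CommRing A] {k : ℕ} : Fin k ⊕ Fin k → A :=
  Sum.elim (fun _ => 0) (fun i => (2 : A) ^ (i : ℕ))

theorem aff_aOf {k : ℕ} (T : Finset (Fin k ⊕ Fin k)) (x : Fin k ⊕ Fin k → Bool) :
    Aff (fun y => ((aOf y : ℕ) : A)) T x (coefA A) := by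
  refine ⟨∑ i : Fin k, if Sum.inl i ∈ T then 0 else
    (if x (Sum.inl i) = true then (2 : A) ^ (i : ℕ) else 0), fun y => ?_⟩
  have h1 : ∑ v ∈ T, (if y v = true then coefA A v else 0) =
      ∑ i : Fin k, (if Sum.inl i ∈ T then (if y (Sum.inl i) = true then (2 : A) ^ (i : ℕ) else 0)
        else 0) := by
    have h2 : ∑ v ∈ T, (if y v = true then coefA A v else 0) =
        ∑ v : Fin k ⊕ Fin k, (if v ∈ T then (if y v = true then coefA A v else 0) else 0) := by
      rw [Finset.sum_ite_mem, Finset.univ_inter]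
    rw [h2, Fintype.sum_sum_type]
    have h3 : ∑ i : Fin k, (if (Sum.inr i : Fin k ⊕ Fin k) ∈ T then
        (if y (Sum.inr i) = true then coefA A (Sum.inr i) else 0) else 0) = 0 := by
      refine Finset.sum_eq_zero fun i _ => ?_
      simp [coefA]
    rw [h3, add_zero]
    rfl
  show ((aOf (mix T y x) : ℕ) : A) = _
  rw [h1, ← Finset.sum_add_distrib]
  unfold aOf num
  push_cast
  refine Finset.sum_congr rfl fun i _ => ?_
  unfold mix
  by_cases hi : (Sum.inl i : Fin k ⊕ Fin k) ∈ T
  · simp [hi]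
  · simp [hi]

theorem aff_nOf {k : ℕ} (T : Finset (Fin k ⊕ Fin k)) (x : Fin k ⊕ Fin k → Bool) :
    Aff (fun y => ((nOf y : ℕ) : A)) T x (coefN A) := by
  refine ⟨∑ i : Fin k, if Sum.inr i ∈ T then 0 else
    (if x (Sum.inr i) = true then (2 : A) ^ (i : ℕ) else 0), fun y => ?_⟩
  have h1 : ∑ v ∈ T, (if y v = true then coefN A v else 0) =
      ∑ i : Fin k, (if Sum.inr i ∈ T then (if y (Sum.inr i) = true then (2 : A) ^ (i : ℕ) else 0)
        else 0) := by
    have h2 : ∑ v ∈ T, (if y v = true then coefN A v else 0) =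
        ∑ v : Fin k ⊕ Fin k, (if v ∈ T then (if y v = true then coefN A v else 0) else 0) := by
      rw [Finset.sum_ite_mem, Finset.univ_inter]
    rw [h2, Fintype.sum_sum_type]
    have h3 : ∑ i : Fin k, (if (Sum.inl i : Fin k ⊕ Fin k) ∈ T then
        (if y (Sum.inl i) = true then coefN A (Sum.inl i) else 0) else 0) = 0 := by
      refine Finset.sum_eq_zero fun i _ => ?_
      simp [coefN]
    rw [h3, zero_add]
    rfl
  show ((nOf (mix T y x) : ℕ) : A) = _
  rw [h1, ← Finset.sum_add_distrib]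
  unfold nOf num
  push_cast
  refine Finset.sum_congr rfl fun i _ => ?_
  unfold mix
  by_cases hi : (Sum.inr i : Fin k ⊕ Fin k) ∈ T
  · simp [hi]
  · simp [hi]

variable {V : Type} [Fintype V] [DecidableEq V] [Fintype A]

theorem sum_blocks (Y Z : Finset V) (hd : Disjoint Y Z) (coef : V → A) (cY cZ : A)
    (hY : ∀ v ∈ Y, coef v = cY) (hZ : ∀ v ∈ Z, coef v = cZ) (y : V → Bool) :
    ∑ v ∈ Y ∪ Z, (if y v = true then coef v else 0) = cY * cnts A Y y + cZ * cnts A Z y := by
  rw [Finset.sum_union hd]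
  unfold cnts
  rw [Finset.mul_sum, Finset.mul_sum]
  congr 1
  · refine Finset.sum_congr rfl fun v hv => ?_
    rw [hY v hv]
    split_ifs <;> simp
  · refine Finset.sum_congr rfl fun v hv => ?_
    rw [hZ v hv]
    split_ifs <;> simp

/-- the local bound -/
theorem local_bound {δ : ℝ} {r0 : ℕ}
    (hr : ∀ r, r0 ≤ r → ∀ g : A → ℝ, (∀ c, 0 ≤ g c) → (∀ c, g c ≤ 1) →
      ∀ c, (step^[r] g) c ≤ mean g + δ)
    (Ψ : A → A → A → ℝ) (h0 : ∀ a b c, 0 ≤ Ψ a b c) (h1 : ∀ a b c, Ψ a b c ≤ 1) (β : ℝ)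
    (hΨ : ∀ γ γ' f0 a0 n0 : A, ∑ s : A, ∑ u : A, Ψ (f0 + γ * s + γ' * u) (a0 + s) (n0 + u) ≤
      β * ((Fintype.card A : ℝ) * Fintype.card A))
    (T TY TZ : Finset V) (hTY : TY ⊆ T) (hTZ : TZ ⊆ T) (hd : Disjoint TY TZ)
    (hcY : Fintype.card A * r0 ≤ TY.card) (hcZ : Fintype.card A * r0 ≤ TZ.card)
    (x : V → Bool) (f a n : (V → Bool) → A) (cf ca cn : V → A)
    (hf : Aff f T x cf) (ha : Aff a T x ca) (hn : Aff n T x cn)
    (haY : ∀ v ∈ TY, ca v = 1) (haZ : ∀ v ∈ TZ, ca v = 0)
    (hnY : ∀ v ∈ TY, cn v = 0) (hnZ : ∀ v ∈ TZ, cn v = 1) :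
    ∑ y : V → Bool, Ψ (f (mix T y x)) (a (mix T y x)) (n (mix T y x)) ≤
      (Fintype.card (V → Bool) : ℝ) * (β + 2 * δ) := by
  classical
  have hA : (0 : ℝ) < Fintype.card A := by exact_mod_cast Fintype.card_pos
  obtain ⟨cY, _, hcY'⟩ := Finset.exists_le_card_fiber_of_mul_le_card_of_maps_to
    (s := TY) (t := (Finset.univ : Finset A)) (f := cf) (n := r0) (fun _ _ => Finset.mem_univ _)
    Finset.univ_nonempty (by rw [Finset.card_univ]; exact hcY)
  obtain ⟨cZ, _, hcZ'⟩ := Finset.exists_le_card_fiber_of_mul_le_card_of_maps_to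
    (s := TZ) (t := (Finset.univ : Finset A)) (f := cf) (n := r0) (fun _ _ => Finset.mem_univ _)
    Finset.univ_nonempty (by rw [Finset.card_univ]; exact hcZ)
  set Y := TY.filter (fun v => cf v = cY) with hY
  set Z := TZ.filter (fun v => cf v = cZ) with hZ
  have hYT : Y ⊆ TY := Finset.filter_subset _ _
  have hZT : Z ⊆ TZ := Finset.filter_subset _ _
  have hdYZ : Disjoint Y Z := Finset.disjoint_of_subset_left hYT
    (Finset.disjoint_of_subset_right hZT hd)
  have hT' : Y ∪ Z ⊆ T := Finset.union_subset (hYT.trans hTY) (hZT.trans hTZ)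
  set N : ℝ := (Fintype.card (V → Bool) : ℝ) with hN
  have hNpos : 0 < N := by
    rw [hN]
    exact_mod_cast Fintype.card_pos
  -- one inner average
  have inner : ∀ y : V → Bool, ∑ y' : V → Bool,
      Ψ (f (mix T (mix (Y ∪ Z) y' y) x)) (a (mix T (mix (Y ∪ Z) y' y) x))
        (n (mix T (mix (Y ∪ Z) y' y) x)) ≤ N * (β + 2 * δ) := by
    intro y
    obtain ⟨Cf, hCf⟩ := hf.sub hT' y
    obtain ⟨Ca, hCa⟩ := ha.sub hT' y
    obtain ⟨Cn, hCn⟩ := hn.sub hT' y
    have e : ∀ y' : V → Bool,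
        Ψ (f (mix T (mix (Y ∪ Z) y' y) x)) (a (mix T (mix (Y ∪ Z) y' y) x))
          (n (mix T (mix (Y ∪ Z) y' y) x)) =
        Ψ (Cf + cY * cnts A Y y' + cZ * cnts A Z y') (Ca + cnts A Y y')
          (Cn + cnts A Z y') := by
      intro y'
      rw [← mix_mix hT', hCf, hCa, hCn,
        sum_blocks Y Z hdYZ cf cY cZ (fun v hv => (Finset.mem_filter.mp hv).2)
          (fun v hv => (Finset.mem_filter.mp hv).2),
        sum_blocks Y Z hdYZ ca 1 0 (fun v hv => haY v (hYT hv)) (fun v hv => haZ v (hZT hv)),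
        sum_blocks Y Z hdYZ cn 0 1 (fun v hv => hnY v (hYT hv)) (fun v hv => hnZ v (hZT hv)),
        ← add_assoc, one_mul, zero_mul, add_zero, zero_mul, zero_add, one_mul]
    rw [Finset.sum_congr rfl (fun y' _ => e y')]
    have h2 := two_blocks hr Y Z hdYZ hcY' hcZ'
      (fun s u => Ψ (Cf + cY * s + cZ * u) (Ca + s) (Cn + u)) (fun _ _ => h0 _ _ _)
      (fun _ _ => h1 _ _ _)
    refine h2.trans ?_
    rw [← hN]
    refine mul_le_mul_of_nonneg_left ?_ hNpos.le
    have h3 : (∑ s : A, ∑ u : A, Ψ (Cf + cY * s + cZ * u) (Ca + s) (Cn + u)) /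
        ((Fintype.card A : ℝ) * Fintype.card A) ≤ β := by
      rw [div_le_iff₀ (by positivity)]
      exact hΨ cY cZ Cf Ca Cn
    linarith
  have houter := sum_mix (Y ∪ Z) (fun y => Ψ (f (mix T y x)) (a (mix T y x)) (n (mix T y x)))
  have h4 : N * ∑ y : V → Bool, Ψ (f (mix T y x)) (a (mix T y x)) (n (mix T y x)) ≤
      N * (N * (β + 2 * δ)) := by
    rw [hN, ← houter, ← hN]
    refine (Finset.sum_le_sum fun y _ => inner y).trans (le_of_eq ?_)
    rw [Finset.sum_const, Finset.card_univ, nsmul_eq_mul]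
  exact le_of_mul_le_mul_left h4 hNpos

end PAP
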