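import Pool.Agent.helper36.PAP.Final2

/-!
# The success density of bounded depth circuits tends to zero: assembly
-/

namespace PAP

open Finset

/-- the circuit's answer `F` is a prime congruent to `a` modulo `n` -/
def Right {k : ℕ} (F : (Fin k ⊕ Fin k → Bool) → ℕ) (x : Fin k ⊕ Fin k → Bool) : Prop :=
  aOf x < nOf x ∧ (F x).Prime ∧ F x ≡ aOf x [MOD nOf x]

theorem right_psi {k : ℕ} (Q : Finset ℕ) (hQ : ∀ q ∈ Q, q.Prime ∧ q ≠ 2)
    (F : (Fin k ⊕ Fin k → Bool) → ℕ) (x : Fin k ⊕ Fin k → Bool) (h : Right F x)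
    (hB : ∑ q ∈ Q, q < aOf x) :
    Psi Q ((F x : ℕ) : RQ Q) ((aOf x : ℕ) : RQ Q) ((nOf x : ℕ) : RQ Q) = 1 := by
  unfold Psi
  rw [if_pos]
  intro i
  obtain ⟨hlt, hp, hmod⟩ := h
  have hqp := (hQ i.1 i.2).1
  have hle : aOf x ≤ F x := by
    have h1 : F x % nOf x = aOf x := by
      have : F x % nOf x = aOf x % nOf x := hmod
      rw [this, Nat.mod_eq_of_lt hlt]
    rw [← h1]
    exact Nat.mod_le _ _
  have hqB : (i : ℕ) ≤ ∑ q ∈ Q, q :=
    Finset.single_le_sum (f := fun q => q) (fun _ _ => Nat.zero_le _) i.2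
  refine ⟨fun h0 => ?_, fun h0 => ?_⟩
  · rw [Pi.natCast_apply, ZMod.natCast_eq_zero_iff] at h0
    have := (Nat.prime_dvd_prime_iff_eq hqp hp).mp h0
    omega
  · rw [Pi.natCast_apply, ZMod.natCast_eq_zero_iff] at h0
    rw [Pi.natCast_apply, Pi.natCast_apply, ZMod.natCast_eq_natCast_iff]
    exact hmod.of_dvd h0

theorem psi_nonneg (Q : Finset ℕ) (f a n : RQ Q) : 0 ≤ Psi Q f a n := by
  unfold Psi
  split_ifs <;> norm_num

theorem psi_le_one (Q : Finset ℕ) (f a n : RQ Q) : Psi Q f a n ≤ 1 := by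
  unfold Psi
  split_ifs <;> norm_num

open Classical in
theorem main2 (d : ℕ) (ε : ℝ) (hε : 0 < ε) : ∃ K : ℕ, ∀ k t s m : ℕ, K ≤ k → K ≤ t →
    s ≤ 2 ^ t → K * m * t ^ (2 * d + 2) ≤ k ^ 2 → ∀ (W : Type) (C : Circuit W d s m)
      (inp : (Fin k ⊕ Fin k → Bool) → (W → Bool)) (_ : ∀ v, DT 1 (fun x => inp x v)),
      ((Finset.univ.filter (fun x => Right (fun y => num (C.bit (inp y))) x)).card : ℝ) ≤
        ε * 4 ^ k := by
  obtain ⟨Q, hQ, hdens⟩ := exists_Q (ε / 8) (by positivity)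
  have hFact : ∀ i : {q // q ∈ Q}, Fact (Nat.Prime (i : ℕ)) := fun i => ⟨(hQ i.1 i.2).1⟩
  obtain ⟨r0, hr0⟩ := equi (A := RQ Q) (rq_gen Q) (ε / 16) (by positivity)
  set r : ℕ := Fintype.card (RQ Q) * r0 + 1 with hr
  set o : ℕ := ordQ Q with ho
  have ho1 : 1 ≤ o := ordQ_pos Q hQ
  set D : ℕ := o * r with hD
  have hDpos : 1 ≤ D := Nat.mul_pos ho1 (by omega)
  set R : ℕ := r + r with hR
  have hcardΛ : Fintype.card (Fin r ⊕ Fin r) = R := by
    rw [Fintype.card_sum, Fintype.card_fin]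
  set B : ℕ := ∑ q ∈ Q, q with hB
  obtain ⟨K0, hK0⟩ := thr (d * R) ((d : ℝ) / 3) (ε / 16) (by positivity) (by positivity)
  set c1 : ℝ := 2 ^ R * (R : ℝ) ^ 2 * 40 ^ (2 * d) * (2 * D) ^ 2 * (16 / ε) with hc1
  obtain ⟨K1, hK1⟩ := exists_nat_ge c1
  obtain ⟨K2, hK2⟩ := exists_nat_ge (8 * ((B : ℝ) + 1) / ε)
  refine ⟨K0 + K1 + K2 + 2 * D + 1, fun k t s m hk ht hs hm W C inp hinp => ?_⟩
  set K := K0 + K1 + K2 + 2 * D + 1 with hK
  -- the family of transversals
  set E : Fin r ⊕ Fin r → Finset (Fin k ⊕ Fin k) := Ecl k o r with hE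
  have hEd : ∀ l l', l ≠ l' → Disjoint (E l) (E l') := fun l l' h => disj_Ecl k o r ho1 l l' h
  set e0 : ℕ := k / D with he0
  have he0c : ∀ l, e0 ≤ (E l).card := fun l => card_Ecl k o r ho1 l
  have he0pos : 1 ≤ e0 := by
    rw [he0, Nat.one_le_div_iff hDpos]
    omega
  have hne : ∀ l, (E l).Nonempty := fun l => by
    rw [← Finset.card_pos]
    have := he0c l
    omega
  choose e he using hne
  set 𝒯 := Fintype.piFinset E with h𝒯
  have hR1 : 1 ≤ R := by omega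
  have hRc : ∀ w ∈ 𝒯, (dirs w).card = R := fun w hw => by
    rw [card_dirs hEd hw, hcardΛ]
  have ht1 : 1 ≤ t := by omega
  set M : PA (Fin k ⊕ Fin k) → ℕ := fun ρ =>
    ∑ p ∈ (Finset.univ : Finset (Fin r ⊕ Fin r)).offDiag, t ^ 2 *
      ((W2 E e p).filter (fun w => ∀ l, l ≠ p.1 → l ≠ p.2 → ρ (w l) = none)).card with hM
  have hb := bad_sum2 dirs 𝒯 R hR1 hRc t ht1 M (fun ρ S hS => hM_trans e t ρ S hS) C
    inp hinp
  set N : ℝ := (Fintype.card (Fin k ⊕ Fin k → Bool) : ℝ) with hN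
  have hN4 : N = 4 ^ k := by
    rw [hN, Fintype.card_fun, Fintype.card_sum, Fintype.card_fin, Fintype.card_bool]
    push_cast
    rw [show (4 : ℝ) = 2 ^ 2 by norm_num, ← pow_mul]
    congr 1
    ring
  have hNpos : 0 < N := by rw [hN4]; positivity
  set Bad : (Fin r ⊕ Fin r → Fin k ⊕ Fin k) → Finset (Fin k ⊕ Fin k → Bool) := fun w =>
    Finset.univ.filter (fun x => ∃ j, ¬ Simple (fun x => C.bit (inp x) j) (dirs w) x) with hBad
  set Φ : ℝ := ∑ w ∈ 𝒯, ((Bad w).card : ℝ) with hΦ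
  have htpos : (1 : ℝ) ≤ t := by exact_mod_cast ht1
  set u : ℝ := 40 * (t : ℝ) with hu
  have hupos : 0 < u := by rw [hu]; positivity
  set P : ℝ := (1 / u) ^ d with hP
  have hPpos : 0 < P := by rw [hP]; positivity
  have h𝒯ne : 𝒯.Nonempty := ⟨e, Fintype.mem_piFinset.mpr he⟩
  have h𝒯pos : (0 : ℝ) < 𝒯.card := by exact_mod_cast h𝒯ne.card_pos
  have he0r : (0 : ℝ) < e0 := by exact_mod_cast he0pos
  -- expectation of the count
  have hexp : ∑ ρ : PA (Fin k ⊕ Fin k), wt P ρ * (M ρ : ℝ) ≤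
      (R : ℝ) ^ 2 * ((t : ℝ) ^ 2 * (((𝒯.card : ℝ) / (e0 : ℝ) ^ 2) * P ^ (R - 2))) := by
    have h1 : ∑ ρ : PA (Fin k ⊕ Fin k), wt P ρ * (M ρ : ℝ) =
        ∑ p ∈ (Finset.univ : Finset (Fin r ⊕ Fin r)).offDiag, (t : ℝ) ^ 2 *
          ∑ ρ : PA (Fin k ⊕ Fin k), wt P ρ * (((W2 E e p).filter
            (fun w => ∀ l, l ≠ p.1 → l ≠ p.2 → ρ (w l) = none)).card : ℝ) := by
      have h2 : ∀ ρ : PA (Fin k ⊕ Fin k), wt P ρ * (M ρ : ℝ) =
          ∑ p ∈ (Finset.univ : Finset (Fin r ⊕ Fin r)).offDiag, (t : ℝ) ^ 2 *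
            (wt P ρ * (((W2 E e p).filter
              (fun w => ∀ l, l ≠ p.1 → l ≠ p.2 → ρ (w l) = none)).card : ℝ)) := by
        intro ρ
        rw [hM]
        push_cast
        rw [Finset.mul_sum]
        refine Finset.sum_congr rfl fun p _ => ?_
        ring
      rw [Finset.sum_congr rfl (fun ρ _ => h2 ρ), Finset.sum_comm]
      refine Finset.sum_congr rfl fun p _ => ?_
      rw [Finset.mul_sum]
    rw [h1]
    have h3 : ∀ p ∈ (Finset.univ : Finset (Fin r ⊕ Fin r)).offDiag, (t : ℝ) ^ 2 *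
          ∑ ρ : PA (Fin k ⊕ Fin k), wt P ρ * (((W2 E e p).filter
            (fun w => ∀ l, l ≠ p.1 → l ≠ p.2 → ρ (w l) = none)).card : ℝ) ≤
        (t : ℝ) ^ 2 * (((𝒯.card : ℝ) / (e0 : ℝ) ^ 2) * P ^ (R - 2)) := by
      intro p hp
      rw [Finset.mem_offDiag] at hp
      refine mul_le_mul_of_nonneg_left ?_ (by positivity)
      rw [sum_W2 hEd e P p hp.2.2, hcardΛ]
      refine mul_le_mul_of_nonneg_right ?_ (by positivity)
      rw [le_div_iff₀ (by positivity)]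
      exact_mod_cast card_W2 e p hp.2.2 e0 he0c
    refine (Finset.sum_le_sum h3).trans ?_
    rw [Finset.sum_const, nsmul_eq_mul]
    refine mul_le_mul_of_nonneg_right ?_ (by positivity)
    have h4 : ((Finset.univ : Finset (Fin r ⊕ Fin r)).offDiag.card : ℝ) ≤ ((R * R : ℕ) : ℝ) := by
      rw [Finset.offDiag_card, Finset.card_univ, hcardΛ]
      exact_mod_cast Nat.sub_le _ _
    push_cast at h4
    rw [pow_two]
    exact h4
  -- the average number of bad points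
  have hPR : P ^ R * u ^ (d * R) = 1 := by
    rw [hP, ← pow_mul, ← mul_pow, one_div, inv_mul_cancel₀ hupos.ne', one_pow]
  have hR2 : 2 ≤ R := by omega
  have hP2 : P ^ (R - 2) * u ^ (d * R) = u ^ (2 * d) := by
    have h1 : d * R = d * (R - 2) + 2 * d := by
      obtain ⟨R', hR'⟩ : ∃ R', R = R' + 2 := ⟨R - 2, by omega⟩
      rw [hR', Nat.add_sub_cancel]
      ring
    rw [h1, pow_add, ← mul_assoc, hP, ← pow_mul, ← mul_pow, one_div,
      inv_mul_cancel₀ hupos.ne', one_pow, one_mul]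
  have ha1 : (d : ℝ) * (s * ((1 / 3) * (1 / 4) ^ t)) * u ^ (d * R) ≤ ε / 16 := by
    have h1 := hK0 t (by omega)
    have h2 : (s : ℝ) ≤ 2 ^ t := by exact_mod_cast hs
    have h3 : (s : ℝ) * (1 / 4) ^ t ≤ (1 / 2) ^ t := by
      calc (s : ℝ) * (1 / 4) ^ t ≤ 2 ^ t * (1 / 4) ^ t :=
            mul_le_mul_of_nonneg_right h2 (by positivity)
        _ = (1 / 2) ^ t := by rw [← mul_pow]; norm_num
    calc (d : ℝ) * (s * ((1 / 3) * (1 / 4) ^ t)) * u ^ (d * R)
        = ((d : ℝ) / 3 * u ^ (d * R)) * (s * (1 / 4) ^ t) := by ring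
      _ ≤ ((d : ℝ) / 3 * u ^ (d * R)) * (1 / 2) ^ t :=
          mul_le_mul_of_nonneg_left h3 (by positivity)
      _ ≤ (ε / 16 * 2 ^ t) * (1 / 2) ^ t :=
          mul_le_mul_of_nonneg_right h1 (by positivity)
      _ = ε / 16 * (2 ^ t * (1 / 2) ^ t) := by ring
      _ = ε / 16 := by rw [← mul_pow]; norm_num
  have ha2 : (m : ℝ) * (2 ^ R * ((R : ℝ) ^ 2 * ((t : ℝ) ^ 2 * ((1 / (e0 : ℝ) ^ 2) *
      u ^ (2 * d))))) ≤ ε / 16 := by
    have h1 : c1 * m * (t : ℝ) ^ (2 * d + 2) ≤ (k : ℝ) ^ 2 := by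
      have h2 : (K : ℝ) * m * (t : ℝ) ^ (2 * d + 2) ≤ (k : ℝ) ^ 2 := by exact_mod_cast hm
      refine le_trans ?_ h2
      refine mul_le_mul_of_nonneg_right (mul_le_mul_of_nonneg_right ?_ (by positivity))
        (by positivity)
      refine hK1.trans ?_
      have : K1 ≤ K := by omega
      exact_mod_cast this
    have h3 : (k : ℝ) ≤ 2 * D * e0 := by
      have h4 : k ≤ 2 * D * e0 := by
        have h5 := Nat.div_add_mod k D
        have h6 := Nat.mod_lt k hDpos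
        rw [← he0] at h5
        have h7 : D ≤ D * e0 := Nat.le_mul_of_pos_right D he0pos
        have h8 : 2 * D * e0 = D * e0 + D * e0 := by ring
        omega
      exact_mod_cast h4
    have h5 : (k : ℝ) ^ 2 ≤ (2 * D) ^ 2 * (e0 : ℝ) ^ 2 := by
      have h6 : (0 : ℝ) ≤ k := by positivity
      calc (k : ℝ) ^ 2 ≤ (2 * D * e0) ^ 2 := pow_le_pow_left₀ h6 h3 2
        _ = _ := by ring
    have hDr : (0 : ℝ) < (2 * D) ^ 2 := by
      have : (0 : ℝ) < D := by exact_mod_cast hDpos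
      positivity
    set w : ℝ := (m : ℝ) * (2 ^ R * ((R : ℝ) ^ 2 * ((t : ℝ) ^ 2 * u ^ (2 * d)))) with hw
    have h7 : c1 * m * (t : ℝ) ^ (2 * d + 2) = (2 * D) ^ 2 * (w * (16 / ε)) := by
      rw [hc1, hw, hu, mul_pow, pow_add]
      ring
    have h8 : w * (16 / ε) ≤ (e0 : ℝ) ^ 2 := by
      rw [h7] at h1
      exact le_of_mul_le_mul_left (h1.trans h5) hDr
    have h9 : w ≤ ε / 16 * (e0 : ℝ) ^ 2 := by
      have h10 : w = (w * (16 / ε)) * (ε / 16) := by
        field_simp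
      rw [h10, mul_comm (ε / 16)]
      exact mul_le_mul_of_nonneg_right h8 (by positivity)
    calc (m : ℝ) * (2 ^ R * ((R : ℝ) ^ 2 * ((t : ℝ) ^ 2 * ((1 / (e0 : ℝ) ^ 2) * u ^ (2 * d)))))
        = w / (e0 : ℝ) ^ 2 := by rw [hw]; ring
      _ ≤ ε / 16 := by
        rw [div_le_iff₀ (by positivity)]
        exact h9
  have hΦ2 : Φ ≤ (𝒯.card : ℝ) * (N * (ε / 8)) := by
    have h1 : P ^ R * Φ ≤ N * ((𝒯.card : ℝ) * (d * (s * ((1 / 3) * (1 / 4) ^ t))) +
        m * (2 ^ R * ((R : ℝ) ^ 2 * ((t : ℝ) ^ 2 * (((𝒯.card : ℝ) / (e0 : ℝ) ^ 2) *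
          P ^ (R - 2)))))) := by
      refine hb.trans ?_
      refine mul_le_mul_of_nonneg_left ?_ hNpos.le
      refine add_le_add_right ?_ _
      refine mul_le_mul_of_nonneg_left (mul_le_mul_of_nonneg_left hexp (by positivity))
        (by positivity)
    have h2 : Φ = (P ^ R * Φ) * u ^ (d * R) := by
      calc Φ = (P ^ R * u ^ (d * R)) * Φ := by rw [hPR, one_mul]
        _ = _ := by ring
    rw [h2]
    calc (P ^ R * Φ) * u ^ (d * R) ≤ (N * ((𝒯.card : ℝ) * (d * (s * ((1 / 3) * (1 / 4) ^ t))) +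
        m * (2 ^ R * ((R : ℝ) ^ 2 * ((t : ℝ) ^ 2 * (((𝒯.card : ℝ) / (e0 : ℝ) ^ 2) *
          P ^ (R - 2))))))) * u ^ (d * R) := mul_le_mul_of_nonneg_right h1 (by positivity)
      _ = N * ((𝒯.card : ℝ) * ((d : ℝ) * (s * ((1 / 3) * (1 / 4) ^ t)) * u ^ (d * R)) +
        (𝒯.card : ℝ) * (m * (2 ^ R * ((R : ℝ) ^ 2 * ((t : ℝ) ^ 2 * ((1 / (e0 : ℝ) ^ 2) *
          (P ^ (R - 2) * u ^ (d * R)))))))) := by ring
      _ ≤ N * ((𝒯.card : ℝ) * (ε / 16) + (𝒯.card : ℝ) * (ε / 16)) := by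
        rw [hP2]
        refine mul_le_mul_of_nonneg_left (add_le_add ?_ ?_) hNpos.le
        · exact mul_le_mul_of_nonneg_left ha1 h𝒯pos.le
        · exact mul_le_mul_of_nonneg_left ha2 h𝒯pos.le
      _ = _ := by ring
  -- a good choice of directions
  obtain ⟨w, hw, hwB⟩ : ∃ w ∈ 𝒯, ((Bad w).card : ℝ) ≤ N * (ε / 8) := by
    by_contra hc
    push Not at hc
    have h1 : ∑ _w ∈ 𝒯, (N * (ε / 8)) < ∑ w ∈ 𝒯, ((Bad w).card : ℝ) :=
      Finset.sum_lt_sum_of_nonempty h𝒯ne hc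
    rw [Finset.sum_const, nsmul_eq_mul] at h1
    linarith
  set T := dirs w with hT
  have hwE := Fintype.mem_piFinset.mp hw
  have hwinj := transversal_inj hEd hwE
  set TY : Finset (Fin k ⊕ Fin k) := Finset.univ.image (fun l : Fin r => w (Sum.inl l)) with hTY
  set TZ : Finset (Fin k ⊕ Fin k) := Finset.univ.image (fun l : Fin r => w (Sum.inr l)) with hTZ
  have hTYT : TY ⊆ T := by
    intro v hv
    obtain ⟨l, _, rfl⟩ := Finset.mem_image.mp hv
    exact Finset.mem_image_of_mem w (Finset.mem_univ _)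
  have hTZT : TZ ⊆ T := by
    intro v hv
    obtain ⟨l, _, rfl⟩ := Finset.mem_image.mp hv
    exact Finset.mem_image_of_mem w (Finset.mem_univ _)
  have hTYc : TY.card = r := by
    rw [hTY, Finset.card_image_of_injective _ (fun l l' h => Sum.inl.inj (hwinj h)),
      Finset.card_univ, Fintype.card_fin]
  have hTZc : TZ.card = r := by
    rw [hTZ, Finset.card_image_of_injective _ (fun l l' h => Sum.inr.inj (hwinj h)),
      Finset.card_univ, Fintype.card_fin]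
  have hdis : Disjoint TY TZ := by
    rw [Finset.disjoint_left]
    intro v hv hv'
    obtain ⟨l, _, rfl⟩ := Finset.mem_image.mp hv
    obtain ⟨l', _, h⟩ := Finset.mem_image.mp hv'
    cases hwinj h
  have hdvd : ∀ (i : ℕ) (l : Fin r), i % (o * r) = o * l → o ∣ i := by
    intro i l hi
    have h1 := Nat.div_add_mod i (o * r)
    rw [hi] at h1
    rw [← h1, mul_assoc, ← mul_add]
    exact Dvd.intro _ rfl
  have cY : ∀ v ∈ TY, coefA (RQ Q) v = 1 ∧ coefN (RQ Q) v = 0 := by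
    intro v hv
    obtain ⟨l, _, rfl⟩ := Finset.mem_image.mp hv
    obtain ⟨i, hi, hi2⟩ := mem_Ecl_inl (hwE (Sum.inl l))
    rw [hi]
    exact ⟨two_pow_rq Q hQ i (hdvd i l hi2), rfl⟩
  have cZ : ∀ v ∈ TZ, coefA (RQ Q) v = 0 ∧ coefN (RQ Q) v = 1 := by
    intro v hv
    obtain ⟨l, _, rfl⟩ := Finset.mem_image.mp hv
    obtain ⟨i, hi, hi2⟩ := mem_Ecl_inr (hwE (Sum.inr l))
    rw [hi]
    exact ⟨rfl, two_pow_rq Q hQ i (hdvd i l hi2)⟩
  -- the indicator of success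
  set F : (Fin k ⊕ Fin k → Bool) → ℕ := fun y => num (C.bit (inp y)) with hF
  set suc : (Fin k ⊕ Fin k → Bool) → ℝ := fun x => if Right F x then 1 else 0 with hsuc
  set psi : (Fin k ⊕ Fin k → Bool) → ℝ := fun x =>
    Psi Q ((F x : ℕ) : RQ Q) ((aOf x : ℕ) : RQ Q) ((nOf x : ℕ) : RQ Q) with hpsi
  set sm : (Fin k ⊕ Fin k → Bool) → ℝ := fun x => if aOf x ≤ B then 1 else 0 with hsm
  have hsp : ∀ x, suc x ≤ psi x + sm x := by
    intro x
    have h1 : 0 ≤ psi x := psi_nonneg Q _ _ _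
    have h2 : 0 ≤ sm x := by
      rw [hsm]
      simp only
      split_ifs <;> norm_num
    by_cases hx : Right F x
    · by_cases hB' : aOf x ≤ B
      · have e1 : suc x = 1 := if_pos hx
        have e2 : sm x = 1 := if_pos hB'
        rw [e1, e2]
        linarith
      · have e1 : suc x = 1 := if_pos hx
        have e2 : psi x = 1 := right_psi Q hQ F x hx (by omega)
        rw [e1, e2]
        linarith
    · have e1 : suc x = 0 := if_neg hx
      rw [e1]
      linarith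
  have hsuc1 : ∀ x, suc x ≤ 1 := by
    intro x
    rw [hsuc]
    simp only
    split_ifs <;> norm_num
  have hsm0 : ∀ x, 0 ≤ sm x := by
    intro x
    rw [hsm]
    simp only
    split_ifs <;> norm_num
  -- one subcube
  have hcube : ∀ x, ∑ y, suc (mix T y x) ≤ N * (if x ∈ Bad w then 1 else 0) +
      N * (ε / 8 + 2 * (ε / 16)) + ∑ y, sm (mix T y x) := by
    intro x
    have hsmn : 0 ≤ ∑ y, sm (mix T y x) := Finset.sum_nonneg fun y _ => hsm0 _
    by_cases hx : x ∈ Bad w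
    · rw [if_pos hx, mul_one]
      have h1 : ∑ y, suc (mix T y x) ≤ N := by
        refine (Finset.sum_le_sum fun y _ => hsuc1 _).trans (le_of_eq ?_)
        rw [Finset.sum_const, Finset.card_univ, nsmul_eq_mul, mul_one]
      have h2 : 0 ≤ N * (ε / 8 + 2 * (ε / 16)) := by positivity
      linarith
    · rw [if_neg hx, mul_zero, zero_add]
      have hs : ∀ j, Simple (fun y => C.bit (inp y) j) T x := by
        by_contra hc
        push Not at hc
        exact hx (Finset.mem_filter.mpr ⟨Finset.mem_univ _, hc⟩)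
      obtain ⟨cf, hcf⟩ := simple_aff (A := RQ Q) (fun y j => C.bit (inp y) j) T x hs
      have h1 := local_bound (A := RQ Q) hr0 (Psi Q) (psi_nonneg Q) (psi_le_one Q) (dens Q)
        (psi_sum Q) T TY TZ hTYT hTZT hdis (by omega) (by omega) x
        (fun y => ((F y : ℕ) : RQ Q)) (fun y => ((aOf y : ℕ) : RQ Q))
        (fun y => ((nOf y : ℕ) : RQ Q)) cf (coefA (RQ Q)) (coefN (RQ Q)) hcf (aff_aOf T x)
        (aff_nOf T x) (fun v hv => (cY v hv).1) (fun v hv => (cZ v hv).1)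
        (fun v hv => (cY v hv).2) (fun v hv => (cZ v hv).2)
      have h2 : ∑ y, psi (mix T y x) ≤ N * (ε / 8 + 2 * (ε / 16)) := by
        refine h1.trans ?_
        refine mul_le_mul_of_nonneg_left ?_ hNpos.le
        linarith
      have h3 : ∑ y, suc (mix T y x) ≤ ∑ y, psi (mix T y x) + ∑ y, sm (mix T y x) := by
        rw [← Finset.sum_add_distrib]
        exact Finset.sum_le_sum fun y _ => hsp _
      linarith
  have htot : N * ∑ x, suc x ≤ N * (N * (ε / 8)) + N * (N * (ε / 8 + 2 * (ε / 16))) +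
      N * ∑ x, sm x := by
    have h1 := Finset.sum_le_sum (fun x (_ : x ∈ (Finset.univ : Finset _)) => hcube x)
    rw [Finset.sum_add_distrib, Finset.sum_add_distrib, ← Finset.mul_sum, sum_mix, sum_mix,
      Finset.sum_const, Finset.card_univ, nsmul_eq_mul, ← hN] at h1
    have h2 : ∑ x, (if x ∈ Bad w then (1 : ℝ) else 0) ≤ N * (ε / 8) := by
      rw [Finset.sum_boole]
      have : Finset.univ.filter (fun x => x ∈ Bad w) = Bad w := by
        ext x
        simp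
      rw [this]
      exact hwB
    have h3 := mul_le_mul_of_nonneg_left h2 hNpos.le
    linarith
  have hsmall : ∑ x, sm x ≤ N * (ε / 8) := by
    rw [hsm, Finset.sum_boole]
    have h1 : ((Finset.univ.filter (fun x : Fin k ⊕ Fin k → Bool => aOf x ≤ B)).card : ℝ) ≤
        ((B : ℝ) + 1) * 2 ^ k := by exact_mod_cast card_small k B
    have h2 : ((B : ℝ) + 1) ≤ (ε / 8) * 2 ^ k := by
      have h3 : 8 * ((B : ℝ) + 1) / ε ≤ 2 ^ k := by
        refine hK2.trans ?_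
        have h4 : K2 ≤ 2 ^ k := by
          have : k < 2 ^ k := Nat.lt_two_pow_self
          omega
        exact_mod_cast h4
      rw [div_le_iff₀ hε] at h3
      linarith
    calc ((Finset.univ.filter (fun x : Fin k ⊕ Fin k → Bool => aOf x ≤ B)).card : ℝ)
        ≤ ((B : ℝ) + 1) * 2 ^ k := h1
      _ ≤ ((ε / 8) * 2 ^ k) * 2 ^ k := mul_le_mul_of_nonneg_right h2 (by positivity)
      _ = (2 ^ k * 2 ^ k) * (ε / 8) := by ring
      _ = N * (ε / 8) := by rw [hN4, ← mul_pow]; norm_num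
  have hfin : ∑ x, suc x ≤ N * (ε / 8) + N * (ε / 8 + 2 * (ε / 16)) + N * (ε / 8) := by
    have h1 : N * ∑ x, suc x ≤ N * (N * (ε / 8) + N * (ε / 8 + 2 * (ε / 16)) + N * (ε / 8)) := by
      have h2 := mul_le_mul_of_nonneg_left hsmall hNpos.le
      linarith
    exact le_of_mul_le_mul_left h1 hNpos
  have hcount : ∑ x, suc x = ((Finset.univ.filter (fun x => Right F x)).card : ℝ) := by
    rw [hsuc, Finset.sum_boole]
  rw [← hcount, ← hN4]
  have hNε : 0 ≤ N * ε := by positivity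
  linarith

end PAP
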