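import Pool.Agent.helper36.PAP.Main2

/-!
# Random bits and advice, and the number of coprime pairs
-/

namespace PAP

open Finset

open Classical in
theorem card_cop {k : ℕ} (hk : 40 ≤ k) :
    (4 : ℝ) ^ k / 6400 ≤ ((Finset.univ.filter (fun x : Fin k ⊕ Fin k → Bool =>
      aOf x < nOf x ∧ Nat.Coprime (aOf x) (nOf x))).card : ℝ) := by
  set h := k / 2 with hh
  have hk1 : 2 * h ≤ k := by omega
  have hk2 : k ≤ 2 * h + 1 := by omega
  set q : Fin k × Fin k × Fin k := (⟨h, by omega⟩, ⟨h + 1, by omega⟩, ⟨h, by omega⟩) with hq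
  have hne : q.1 ≠ q.2.1 := by
    rw [hq]
    intro hc
    have := congrArg Fin.val hc
    simp at this
  have c1 := card_valid hk1 hk2 (by omega) q (le_refl h) (Nat.le_succ h) (le_refl h)
    (by show h + 2 < k; omega) (by show h + 1 + 2 < k; omega) (by show h + 2 < k; omega)
  have hsub : (Finset.univ.filter (fun x => Valid q x)) ⊆
      (Finset.univ.filter (fun x => ∃ y, Cube (tri q) x y ∧
        (aOf y < nOf y ∧ Nat.Coprime (aOf y) (nOf y)))) := by
    intro x hx
    rw [Finset.mem_filter] at hx ⊢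
    obtain ⟨_, hlt, hA, hN, hr⟩ := hx
    refine ⟨Finset.mem_univ _, pt q x false false false, pt_cube q x _ _ _,
      (hlt false false false).2, coprime_of ?_ ?_ ?_⟩
    · intro h2
      have := Nat.mod_eq_zero_of_dvd h2
      omega
    · rintro ⟨h3, _⟩
      have := Nat.mod_eq_zero_of_dvd h3
      omega
    · intro r hrp h5 hrd
      have h0 := hr (0, 0) (by
        unfold offs
        exact Finset.mem_insert_self _ _) r hrp h5
      apply h0
      simpa using hrd
  have c2 := Finset.card_le_card hsub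
  have c3 := card_cube (tri q) (fun y : Fin k ⊕ Fin k → Bool =>
    aOf y < nOf y ∧ Nat.Coprime (aOf y) (nOf y))
  rw [card_tri q hne] at c3
  have c4 : ((Finset.univ.filter (fun x => Valid q x)).card : ℝ) ≤
      8 * ((Finset.univ.filter (fun x : Fin k ⊕ Fin k → Bool =>
        aOf x < nOf x ∧ Nat.Coprime (aOf x) (nOf x))).card : ℝ) := by
    have := c2.trans c3
    exact_mod_cast this
  linarith

theorem const_dt {V : Type} [DecidableEq V] (b : Bool) : DT 1 (fun _ : V → Bool => b) :=
  DT.const 1 _ b (fun _ => rfl)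

theorem var_dt {V : Type} [DecidableEq V] (v : V) : DT 1 (fun x : V → Bool => x v) := by
  have := DT.lit v false
  simpa using this

open Classical in
theorem main3 (d g : ℕ) (ε : ℝ) (hε : 0 < ε) : ∃ K : ℕ, ∀ k t s m r : ℕ, K ≤ k → K ≤ t →
    s ≤ 2 ^ t → K * m * t ^ (2 * d + 2) ≤ k ^ 2 →
    ∀ (C : Circuit (((Fin k ⊕ Fin k) ⊕ Fin r) ⊕ Fin g) d s m)
      (adv : (Fin k ⊕ Fin k → Bool) → (Fin r → Bool) → (Fin g → Bool)),
      ((Finset.univ.filter (fun p : (Fin k ⊕ Fin k → Bool) × (Fin r → Bool) =>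
        Right (fun x => num (C.bit (Sum.elim (Sum.elim x p.2) (adv x p.2)))) p.1)).card : ℝ) ≤
        ε * (2 ^ r * ((Finset.univ.filter (fun x : Fin k ⊕ Fin k → Bool =>
          aOf x < nOf x ∧ Nat.Coprime (aOf x) (nOf x))).card : ℝ)) := by
  obtain ⟨K, hK⟩ := main2 d (ε / (6400 * 2 ^ g)) (by positivity)
  refine ⟨K + 40, fun k t s m r hk ht hs hm C adv => ?_⟩
  have hm' : K * m * t ^ (2 * d + 2) ≤ k ^ 2 := by
    refine le_trans ?_ hm
    exact Nat.mul_le_mul_right _ (Nat.mul_le_mul_right _ (by omega))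
  -- fixed random bits and fixed advice
  have h1 : ∀ (ω : Fin r → Bool) (σ : Fin g → Bool),
      ((Finset.univ.filter (fun x => Right (fun y => num (C.bit
        (Sum.elim (Sum.elim y ω) σ))) x)).card : ℝ) ≤ ε / (6400 * 2 ^ g) * 4 ^ k := by
    intro ω σ
    refine hK k t s m (by omega) (by omega) hs hm' _ C
      (fun y => Sum.elim (Sum.elim y ω) σ) (fun v => ?_)
    rcases v with (v | v) | v
    · exact var_dt v
    · exact const_dt _
    · exact const_dt _
  have h2 : ∀ ω : Fin r → Bool, ((Finset.univ.filter (fun x =>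
      Right (fun y => num (C.bit (Sum.elim (Sum.elim y ω) (adv y ω)))) x)).card : ℝ) ≤
      ε * (4 ^ k / 6400) := by
    intro ω
    have hsub : (Finset.univ.filter (fun x =>
        Right (fun y => num (C.bit (Sum.elim (Sum.elim y ω) (adv y ω)))) x)) ⊆
        (Finset.univ : Finset (Fin g → Bool)).biUnion (fun σ =>
          Finset.univ.filter (fun x => Right (fun y => num (C.bit
            (Sum.elim (Sum.elim y ω) σ))) x)) := by
      intro x hx
      rw [Finset.mem_biUnion]
      refine ⟨adv x ω, Finset.mem_univ _, ?_⟩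
      rw [Finset.mem_filter] at hx ⊢
      exact hx
    have h3 : ((Finset.univ.filter (fun x =>
        Right (fun y => num (C.bit (Sum.elim (Sum.elim y ω) (adv y ω)))) x)).card : ℝ) ≤
        ∑ σ : Fin g → Bool, ((Finset.univ.filter (fun x => Right (fun y => num (C.bit
            (Sum.elim (Sum.elim y ω) σ))) x)).card : ℝ) := by
      exact_mod_cast (Finset.card_le_card hsub).trans Finset.card_biUnion_le
    refine h3.trans ((Finset.sum_le_sum fun σ _ => h1 ω σ).trans (le_of_eq ?_))
    rw [Finset.sum_const, Finset.card_univ, Fintype.card_fun, Fintype.card_bool,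
      Fintype.card_fin, nsmul_eq_mul]
    push_cast
    field_simp
  have h4 : ((Finset.univ.filter (fun p : (Fin k ⊕ Fin k → Bool) × (Fin r → Bool) =>
        Right (fun x => num (C.bit (Sum.elim (Sum.elim x p.2) (adv x p.2)))) p.1)).card : ℝ) =
      ∑ ω : Fin r → Bool, ((Finset.univ.filter (fun x =>
        Right (fun y => num (C.bit (Sum.elim (Sum.elim y ω) (adv y ω)))) x)).card : ℝ) := by
    rw [Finset.card_filter, Fintype.sum_prod_type, Finset.sum_comm]
    push_cast
    refine Finset.sum_congr rfl fun ω _ => ?_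
    rw [Finset.sum_boole]
  rw [h4]
  refine (Finset.sum_le_sum fun ω _ => h2 ω).trans ?_
  rw [Finset.sum_const, Finset.card_univ, Fintype.card_fun, Fintype.card_bool,
    Fintype.card_fin, nsmul_eq_mul]
  push_cast
  have h5 := card_cop (k := k) (by omega)
  calc (2 : ℝ) ^ r * (ε * (4 ^ k / 6400)) = ε * (2 ^ r * (4 ^ k / 6400)) := by ring
    _ ≤ _ := mul_le_mul_of_nonneg_left (mul_le_mul_of_nonneg_left h5 (by positivity)) hε.le

end PAP
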