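import Mathlib

/-!
# Random restrictions

`PA V` is the type of partial assignments (restrictions); `app ρ x` fills the free coordinates of
`ρ` with `x`; `wt p ρ` is the probability of `ρ` when every coordinate is free with probability `p`
and otherwise a fair coin.
-/

namespace PAP

open Finset

variable {V : Type} [Fintype V] [DecidableEq V]

/-- partial assignments -/
abbrev PA (V : Type) := V → Option Bool

/-- fill the free coordinates of `ρ` with `x` -/
def app (ρ : PA V) (x : V → Bool) : V → Bool := fun v => (ρ v).getD (x v)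

/-- first `ρ`, then `σ` -/
def cmp (ρ σ : PA V) : PA V := fun v => (ρ v).or (σ v)

omit [Fintype V] [DecidableEq V] in
theorem app_cmp (ρ σ : PA V) (x : V → Bool) : app (cmp ρ σ) x = app ρ (app σ x) := by
  funext v
  unfold app cmp
  cases ρ v <;> simp

/-- the law of one coordinate -/
noncomputable def th (p : ℝ) (o : Option Bool) : ℝ := if o = none then p else (1 - p) / 2

/-- the law of a random restriction -/
noncomputable def wt (p : ℝ) (ρ : PA V) : ℝ := ∏ v, th p (ρ v)

theorem th_nonneg {p : ℝ} (h0 : 0 ≤ p) (h1 : p ≤ 1) (o : Option Bool) : 0 ≤ th p o := by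
  unfold th
  split_ifs
  · exact h0
  · linarith

omit [DecidableEq V] in
theorem wt_nonneg {p : ℝ} (h0 : 0 ≤ p) (h1 : p ≤ 1) (ρ : PA V) : 0 ≤ wt p ρ :=
  Finset.prod_nonneg fun _ _ => th_nonneg h0 h1 _

/-- coordinatewise push-forward of a product measure -/
theorem push {α β γ : Type} [Fintype α] [Fintype β] [Fintype γ] [DecidableEq α] [DecidableEq β]
    [DecidableEq γ]
    (u : V → α → ℝ) (w : V → β → ℝ) (z : V → γ → ℝ) (h : α → β → γ)
    (H : ∀ v c, ∑ q : α × β, (if h q.1 q.2 = c then u v q.1 * w v q.2 else 0) = z v c)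
    (g : (V → γ) → ℝ) :
    ∑ ρ : V → α, ∑ σ : V → β,
      (∏ v, u v (ρ v)) * (∏ v, w v (σ v)) * g (fun v => h (ρ v) (σ v)) =
    ∑ τ : V → γ, (∏ v, z v (τ v)) * g τ := by
  have e1 : ∀ τ : V → γ, (∏ v, z v (τ v)) =
      ∑ q : V → α × β, (if (fun v => h (q v).1 (q v).2) = τ then
        (∏ v, u v (q v).1) * (∏ v, w v (q v).2) else 0) := by
    intro τ
    have : (∏ v, z v (τ v)) =
        ∏ v, ∑ q : α × β, (if h q.1 q.2 = τ v then u v q.1 * w v q.2 else 0) := by
      refine Finset.prod_congr rfl fun v _ => (H v (τ v)).symm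
    rw [this, Finset.prod_univ_sum, Fintype.piFinset_univ]
    refine Finset.sum_congr rfl fun q _ => ?_
    by_cases hq : (fun v => h (q v).1 (q v).2) = τ
    · rw [if_pos hq, ← Finset.prod_mul_distrib]
      refine Finset.prod_congr rfl fun v _ => ?_
      rw [if_pos (congrFun hq v)]
    · rw [if_neg hq]
      obtain ⟨v, hv⟩ : ∃ v, h (q v).1 (q v).2 ≠ τ v := by
        by_contra hc
        push Not at hc
        exact hq (funext hc)
      exact Finset.prod_eq_zero (Finset.mem_univ v) (if_neg hv)
  have e2 : ∑ τ : V → γ, (∏ v, z v (τ v)) * g τ =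
      ∑ q : V → α × β, (∏ v, u v (q v).1) * (∏ v, w v (q v).2) *
        g (fun v => h (q v).1 (q v).2) := by
    calc ∑ τ : V → γ, (∏ v, z v (τ v)) * g τ
        = ∑ τ : V → γ, ∑ q : V → α × β, (if (fun v => h (q v).1 (q v).2) = τ then
          (∏ v, u v (q v).1) * (∏ v, w v (q v).2) * g τ else 0) := by
          refine Finset.sum_congr rfl fun τ _ => ?_
          rw [e1, Finset.sum_mul]
          refine Finset.sum_congr rfl fun q _ => ?_
          split_ifs <;> simp
      _ = ∑ q : V → α × β, ∑ τ : V → γ, (if (fun v => h (q v).1 (q v).2) = τ then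
          (∏ v, u v (q v).1) * (∏ v, w v (q v).2) * g τ else 0) := Finset.sum_comm
      _ = _ := by
          refine Finset.sum_congr rfl fun q _ => ?_
          rw [Finset.sum_ite_eq]
          simp
  rw [e2, ← Fintype.sum_prod_type' (f := fun (ρ : V → α) (σ : V → β) =>
    (∏ v, u v (ρ v)) * (∏ v, w v (σ v)) * g (fun v => h (ρ v) (σ v)))]
  refine (Equiv.sum_comp (Equiv.arrowProdEquivProdArrow V (fun _ => α) (fun _ => β))
    (fun q : (V → α) × (V → β) =>
      (∏ v, u v (q.1 v)) * (∏ v, w v (q.2 v)) * g (fun v => h (q.1 v) (q.2 v)))).symm.trans ?_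
  rfl

theorem sum_wt (p : ℝ) : ∑ ρ : PA V, wt p ρ = 1 := by
  have h := Finset.prod_univ_sum (fun _ : V => (Finset.univ : Finset (Option Bool)))
    (fun _ o => th p o)
  rw [Fintype.piFinset_univ] at h
  unfold wt
  rw [← h]
  refine Finset.prod_eq_one fun v _ => ?_
  rw [Fintype.sum_option]
  simp [th]
  ring

/-- composing a `p`-restriction with a `q`-restriction gives a `p*q`-restriction -/
theorem sum_cmp (p q : ℝ) (g : PA V → ℝ) :
    ∑ ρ : PA V, ∑ σ : PA V, wt p ρ * wt q σ * g (cmp ρ σ) = ∑ τ : PA V, wt (p * q) τ * g τ := by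
  refine push (V := V) (fun _ o => th p o) (fun _ o => th q o) (fun _ o => th (p * q) o)
    (fun a b => a.or b) (fun v c => ?_) g
  rw [Fintype.sum_prod_type, Fintype.sum_option]
  simp only [Fintype.sum_option, Fintype.sum_bool]
  rcases c with _ | b
  · simp [th]
  · cases b <;> simp [th] <;> ring

/-- the subcube identity: averaging over restrictions that leave `T` free -/
theorem sum_app (p : ℝ) (T : Finset V) (φ : (V → Bool) → ℝ) :
    ∑ ρ : PA V, ∑ x : V → Bool,
      (if ∀ v ∈ T, ρ v = none then wt p ρ * φ (app ρ x) else 0) =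
    p ^ T.card * ∑ x : V → Bool, φ x := by
  have h := push (V := V) (fun v o => if v ∈ T then (if o = none then p else 0) else th p o)
    (fun _ (_ : Bool) => (1 : ℝ)) (fun v _ => if v ∈ T then p else 1)
    (fun (o : Option Bool) b => o.getD b) (fun v c => by
      rw [Fintype.sum_prod_type, Fintype.sum_option]
      simp only [Fintype.sum_bool]
      by_cases hv : v ∈ T
      · cases c <;> simp [hv]
      · cases c <;> simp [hv, th]) φ
  have h2 : ∀ x : V → Bool, (∏ v, if v ∈ T then p else (1 : ℝ)) = p ^ T.card := by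
    intro x
    rw [Finset.prod_ite_mem, Finset.univ_inter, Finset.prod_const]
  have h3 : ∑ τ : V → Bool, (∏ v, if v ∈ T then p else (1 : ℝ)) * φ τ =
      p ^ T.card * ∑ x : V → Bool, φ x := by
    rw [Finset.mul_sum]
    refine Finset.sum_congr rfl fun x _ => ?_
    rw [h2 x]
  rw [← h3, ← h]
  refine Finset.sum_congr rfl fun ρ _ => Finset.sum_congr rfl fun x _ => ?_
  rw [Finset.prod_const_one, mul_one]
  by_cases hT : ∀ v ∈ T, ρ v = none
  · rw [if_pos hT]
    congr 1
    unfold wt
    refine Finset.prod_congr rfl fun v _ => ?_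
    by_cases hv : v ∈ T
    · simp [hv, hT v hv, th]
    · simp [hv]
  · rw [if_neg hT]
    push Not at hT
    obtain ⟨v, hv, hne⟩ := hT
    rw [Finset.prod_eq_zero (Finset.mem_univ v), zero_mul]
    simp [hv, hne]

end PAP
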