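import Pool.Agent.helper36.PAP.DT

/-!
# The switching lemma

A Boolean function whose value `true` is certified by at most `w` coordinates becomes, under a
random restriction with star probability `1/(40w)`, a decision tree of depth `t` except with
probability `(1/3) 4^(-t)`.
-/

namespace PAP

open Finset

variable {V : Type} [Fintype V] [DecidableEq V]

/-- the two partial assignments do not contradict each other -/
def compatb (ρ τ : PA V) : Bool := decide (∀ v, ρ v = none ∨ τ v = none ∨ ρ v = τ v)

theorem compatb_iff (ρ τ : PA V) :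
    compatb ρ τ = true ↔ ∀ v, ρ v = none ∨ τ v = none ∨ ρ v = τ v := by
  unfold compatb
  rw [decide_eq_true_iff]

/-- the first term of the list that is compatible with `ρ` -/
def nxt (L : List (PA V)) (ρ : PA V) : Option (PA V) := L.find? (fun τ => compatb ρ τ)

/-- `Enc L t ρ ρs`: some path of the canonical tree of `L` under `ρ` has length `t` and
satisfying encoding `ρs` -/
inductive Enc (L : List (PA V)) : ℕ → PA V → PA V → Prop
  | nil (ρ : PA V) : Enc L 0 ρ ρ
  | cons (t t' : ℕ) (ρ τ ρ1 ρs' ρs : PA V) (β : Finset V) (hτ : nxt L ρ = some τ)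
      (hβ : ∀ v, v ∈ β ↔ (τ v ≠ none ∧ ρ v = none)) (hne : β.Nonempty)
      (h1 : ∀ v, v ∉ β → ρ1 v = ρ v) (h2 : ∀ v ∈ β, ρ1 v ≠ none)
      (hE : Enc L t ρ1 ρs') (ht : t' = t + β.card)
      (hs : ∀ v, ρs v = if v ∈ β then τ v else ρs' v) : Enc L t' ρ ρs

theorem Enc.ext {L : List (PA V)} {t : ℕ} {ρ ρs : PA V} (h : Enc L t ρ ρs) :
    ∀ v, ρ v ≠ none → ρs v = ρ v := by
  induction h with
  | nil ρ => exact fun _ _ => rfl
  | cons t t' ρ τ ρ1 ρs' ρs β hτ hβ hne h1 h2 hE ht hs ih =>
    intro v hv
    have hvβ : v ∉ β := fun hh => hv ((hβ v).mp hh).2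
    rw [hs v, if_neg hvβ, ih v (by rw [h1 v hvβ]; exact hv), h1 v hvβ]

theorem th_some (p : ℝ) {o : Option Bool} (h : o ≠ none) : th p o = (1 - p) / 2 := by
  unfold th
  rw [if_neg h]

theorem Enc.wt_eq {L : List (PA V)} {t : ℕ} {ρ ρs : PA V} (h : Enc L t ρ ρs) (p : ℝ) :
    wt p ρ * ((1 - p) / 2) ^ t = wt p ρs * p ^ t := by
  induction h with
  | nil ρ => simp
  | cons t t' ρ τ ρ1 ρs' ρs β hτ hβ hne h1 h2 hE ht hs ih =>
    have e1 : wt p ρs = wt p ρs' := by
      unfold wt
      refine Finset.prod_congr rfl fun v _ => ?_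
      rw [hs v]
      split_ifs with hv
      · rw [th_some p ((hβ v).mp hv).1, th_some p]
        rw [hE.ext v (h2 v hv)]
        exact h2 v hv
      · rfl
    have e2 : wt p ρ * ((1 - p) / 2) ^ β.card = wt p ρ1 * p ^ β.card := by
      unfold wt
      have a1 : ((1 - p) / 2) ^ β.card = ∏ v : V, (if v ∈ β then ((1 - p) / 2) else 1) := by
        rw [Finset.prod_ite_mem, Finset.univ_inter, Finset.prod_const]
      have a2 : p ^ β.card = ∏ v : V, (if v ∈ β then p else 1) := by
        rw [Finset.prod_ite_mem, Finset.univ_inter, Finset.prod_const]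
      rw [a1, a2, ← Finset.prod_mul_distrib, ← Finset.prod_mul_distrib]
      refine Finset.prod_congr rfl fun v _ => ?_
      by_cases hv : v ∈ β
      · rw [if_pos hv, if_pos hv, th_some p (h2 v hv), ((hβ v).mp hv).2]
        unfold th
        rw [if_pos rfl]
        ring
      · rw [if_neg hv, if_neg hv, h1 v hv]
    rw [ht, e1, pow_add, pow_add]
    calc wt p ρ * (((1 - p) / 2) ^ t * ((1 - p) / 2) ^ β.card)
        = (wt p ρ * ((1 - p) / 2) ^ β.card) * ((1 - p) / 2) ^ t := by ring
      _ = (wt p ρ1 * ((1 - p) / 2) ^ t) * p ^ β.card := by rw [e2]; ring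
      _ = _ := by rw [ih]; ring

theorem Enc.le_card {L : List (PA V)} {t : ℕ} {ρ ρs : PA V} (h : Enc L t ρ ρs) :
    t ≤ Fintype.card V := by
  have key : t ≤ (Finset.univ.filter (fun v => ρ v = none)).card := by
    induction h with
    | nil ρ => exact Nat.zero_le _
    | cons t t' ρ τ ρ1 ρs' ρs β hτ hβ hne h1 h2 hE ht hs ih =>
      have hd : Disjoint (Finset.univ.filter (fun v => ρ1 v = none)) β := by
        rw [Finset.disjoint_left]
        intro v hv hvβ
        exact h2 v hvβ (Finset.mem_filter.mp hv).2
      have hsub : (Finset.univ.filter (fun v => ρ1 v = none)) ∪ β ⊆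
          Finset.univ.filter (fun v => ρ v = none) := by
        intro v hv
        rw [Finset.mem_filter]
        refine ⟨Finset.mem_univ _, ?_⟩
        by_cases hvβ : v ∈ β
        · exact ((hβ v).mp hvβ).2
        · rcases Finset.mem_union.mp hv with hv | hv
          · rw [← h1 v hvβ]
            exact (Finset.mem_filter.mp hv).2
          · exact absurd hv hvβ
      have := Finset.card_le_card hsub
      rw [Finset.card_union_of_disjoint hd] at this
      omega
  exact key.trans (Finset.card_le_univ _)

/-- the first compatible term can be read off from the encoding -/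
theorem nxt_enc {L : List (PA V)} {ρ ρs τ : PA V} (h : nxt L ρ = some τ)
    (hext : ∀ v, ρ v ≠ none → ρs v = ρ v) (hτ : ∀ v, τ v ≠ none → ρ v = none → ρs v = τ v) :
    nxt L ρs = some τ := by
  unfold nxt at h ⊢
  rw [List.find?_eq_some_iff_append] at h ⊢
  obtain ⟨hc, as, bs, hL, has⟩ := h
  rw [compatb_iff] at hc
  refine ⟨?_, as, bs, hL, fun σ hσ => ?_⟩
  · rw [compatb_iff]
    intro v
    by_cases h1 : τ v = none
    · exact Or.inr (Or.inl h1)
    · right; right
      by_cases h2 : ρ v = none
      · exact hτ v h1 h2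
      · rw [hext v h2]
        rcases hc v with h3 | h3 | h3
        · exact absurd h3 h2
        · exact absurd h3 h1
        · exact h3
  · have h1 := has σ hσ
    simp only [Bool.not_eq_true', ← Bool.not_eq_true] at h1 ⊢
    intro h2
    apply h1
    rw [compatb_iff] at h2 ⊢
    intro v
    by_cases h3 : ρ v = none
    · exact Or.inl h3
    · rcases h2 v with h4 | h4 | h4
      · rw [hext v h3] at h4
        exact absurd h4 h3
      · exact Or.inr (Or.inl h4)
      · rw [hext v h3] at h4
        exact Or.inr (Or.inr h4)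

theorem Enc.nxt_eq {L : List (PA V)} {t : ℕ} {ρ ρs : PA V} (h : Enc L t ρ ρs) (ht : 0 < t) :
    ∃ (τ ρ1 ρs' : PA V) (β : Finset V) (t0 : ℕ), nxt L ρs = some τ ∧ (∀ v ∈ β, τ v ≠ none) ∧
      β.Nonempty ∧ (∀ v, v ∉ β → ρ1 v = ρ v) ∧ (∀ v ∈ β, ρ v = none) ∧ (∀ v ∈ β, ρ1 v ≠ none) ∧
      Enc L t0 ρ1 ρs' ∧ t = t0 + β.card ∧ (∀ v, v ∉ β → ρs v = ρs' v) := by
  have hx := h.ext
  cases h with
  | nil => exact absurd ht (lt_irrefl 0)
  | cons t0 t' ρ τ ρ1 ρs' ρs β hτ hβ hne h1 h2 hE ht hs =>
    refine ⟨τ, ρ1, ρs', β, t0, nxt_enc hτ hx (fun v h3 h4 => ?_), fun v hv => ((hβ v).mp hv).1,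
      hne, h1, fun v hv => ((hβ v).mp hv).2, h2, hE, ht, fun v hv => ?_⟩
    · rw [hs v, if_pos ((hβ v).mpr ⟨h3, h4⟩)]
    · rw [hs v, if_neg hv]

/-- the assignments with domain `β` -/
def PI (β : Finset V) : Finset (PA V) :=
  Fintype.piFinset (fun v => if v ∈ β then {some true, some false} else {none})

theorem card_PI (β : Finset V) : (PI β).card = 2 ^ β.card := by
  unfold PI
  rw [Fintype.card_piFinset]
  have : ∀ v : V, (if v ∈ β then ({some true, some false} : Finset (Option Bool))
      else {none}).card = if v ∈ β then 2 else 1 := by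
    intro v
    split_ifs <;> rfl
  rw [Finset.prod_congr rfl (fun v _ => this v), Finset.prod_ite_mem, Finset.univ_inter,
    Finset.prod_const]

/-- the domain of a partial assignment -/
def dom (τ : PA V) : Finset V := Finset.univ.filter (fun v => τ v ≠ none)

theorem half_pow_le (w : ℕ) (hw : 1 ≤ w) (D : ℕ) (hD : D ≤ w) :
    (1 / (2 * (w : ℝ)) + 1) ^ D ≤ 2 := by
  have hw' : (1 : ℝ) ≤ w := by exact_mod_cast hw
  have h1 : (1 / (2 * (w : ℝ)) + 1) ^ D ≤ (1 / (2 * (w : ℝ)) + 1) ^ w := by
    refine pow_le_pow_right₀ ?_ hD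
    have : 0 ≤ 1 / (2 * (w : ℝ)) := by positivity
    linarith
  have h2 : (1 / (2 * (w : ℝ)) + 1) ^ w ≤ Real.exp (1 / 2) := by
    have h3 : 1 / (2 * (w : ℝ)) + 1 ≤ Real.exp (1 / (2 * (w : ℝ))) := Real.add_one_le_exp _
    calc (1 / (2 * (w : ℝ)) + 1) ^ w ≤ Real.exp (1 / (2 * (w : ℝ))) ^ w := by
          refine pow_le_pow_left₀ (by positivity) h3 _
      _ = Real.exp (1 / 2) := by
          rw [← Real.exp_nat_mul]
          congr 1
          field_simp
  have h4 : Real.exp (1 / 2) ≤ 2 := by
    have h5 : Real.exp (1 / 2) ^ 2 = Real.exp 1 := by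
      rw [← Real.exp_nat_mul]
      norm_num
    have h6 : Real.exp 1 < 2.7182818286 := Real.exp_one_lt_d9
    nlinarith [Real.exp_pos (1 / 2)]
  linarith

open Classical in
/-- the number of restrictions with a given encoding -/
theorem card_enc (L : List (PA V)) (w : ℕ) (hw : 1 ≤ w) (hL : ∀ τ ∈ L, (dom τ).card ≤ w) :
    ∀ (t : ℕ) (ρs : PA V), ((Finset.univ.filter (fun ρ => Enc L t ρ ρs)).card : ℝ) ≤
      (4 * (w : ℝ)) ^ t := by
  intro t
  induction t using Nat.strong_induction_on with
  | _ t ih =>
  intro ρs
  have hw' : (1 : ℝ) ≤ w := by exact_mod_cast hw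
  rcases Nat.eq_zero_or_pos t with h0 | hpos
  · subst h0
    rw [pow_zero]
    have : (Finset.univ.filter (fun ρ => Enc L 0 ρ ρs)) ⊆ {ρs} := by
      intro ρ hρ
      rw [Finset.mem_filter] at hρ
      rw [Finset.mem_singleton]
      have := hρ.2
      cases this with
      | nil => rfl
      | cons t0 t' ρ τ ρ1 ρs' ρs β hτ hβ hne h1 h2 hE ht hs =>
        have := hne.card_pos
        omega
    have := Finset.card_le_card this
    rw [Finset.card_singleton] at this
    exact_mod_cast this
  · cases hn : nxt L ρs with
    | none =>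
      have : (Finset.univ.filter (fun ρ => Enc L t ρ ρs)) = ∅ := by
        rw [Finset.filter_eq_empty_iff]
        intro ρ _ hρ
        obtain ⟨τ, ρ1, ρs', β, t0, h1, _⟩ := hρ.nxt_eq hpos
        rw [hn] at h1
        cases h1
      rw [this, Finset.card_empty, Nat.cast_zero]
      positivity
    | some τ =>
      have hτL : τ ∈ L := List.mem_of_find?_eq_some hn
      have hD := hL τ hτL
      set Bs : Finset (Finset V) :=
        (dom τ).powerset.filter (fun β => β.Nonempty ∧ β.card ≤ t) with hBs
      have hsub : (Finset.univ.filter (fun ρ => Enc L t ρ ρs)) ⊆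
          Bs.biUnion (fun β => (PI β).biUnion (fun π =>
            (Finset.univ.filter (fun ρ => Enc L (t - β.card) ρ
              (fun v => if v ∈ β then π v else ρs v))).image
                (fun ρ1 v => if v ∈ β then none else ρ1 v))) := by
        intro ρ hρ
        rw [Finset.mem_filter] at hρ
        obtain ⟨τ', ρ1, ρs', β, t0, h1, h2, h3, h4, h5, h6, h7, h8, h9⟩ := hρ.2.nxt_eq hpos
        have hτ' : τ' = τ := by
          rw [hn] at h1
          exact (Option.some.inj h1).symm
        subst hτ'
        rw [Finset.mem_biUnion]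
        refine ⟨β, ?_, ?_⟩
        · rw [hBs, Finset.mem_filter, Finset.mem_powerset]
          refine ⟨fun v hv => ?_, h3, by omega⟩
          rw [dom, Finset.mem_filter]
          exact ⟨Finset.mem_univ _, h2 v hv⟩
        · rw [Finset.mem_biUnion]
          refine ⟨fun v => if v ∈ β then ρ1 v else none, ?_, ?_⟩
          · unfold PI
            rw [Fintype.mem_piFinset]
            intro v
            by_cases hv : v ∈ β
            · rw [if_pos hv, if_pos hv]
              have := h6 v hv
              cases hc : ρ1 v with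
              | none => exact absurd hc this
              | some b => cases b <;> simp
            · rw [if_neg hv, if_neg hv, Finset.mem_singleton]
          · rw [Finset.mem_image]
            refine ⟨ρ1, ?_, ?_⟩
            · rw [Finset.mem_filter]
              refine ⟨Finset.mem_univ _, ?_⟩
              have e1 : t - β.card = t0 := by omega
              have e2 : (fun v => if v ∈ β then (if v ∈ β then ρ1 v else none) else ρs v) =
                  ρs' := by
                funext v
                by_cases hv : v ∈ β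
                · rw [if_pos hv, if_pos hv]
                  exact (h7.ext v (h6 v hv)).symm
                · rw [if_neg hv]
                  exact h9 v hv
              rw [e1, e2]
              exact h7
            · funext v
              by_cases hv : v ∈ β
              · rw [if_pos hv, h5 v hv]
              · rw [if_neg hv, h4 v hv]
      have hcard : ((Finset.univ.filter (fun ρ => Enc L t ρ ρs)).card : ℝ) ≤
          ∑ β ∈ Bs, (2 : ℝ) ^ β.card * (4 * (w : ℝ)) ^ (t - β.card) := by
        have h1 := (Finset.card_le_card hsub).trans Finset.card_biUnion_le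
        have h2 : ((Finset.univ.filter (fun ρ => Enc L t ρ ρs)).card : ℝ) ≤
            ((∑ β ∈ Bs, ((PI β).biUnion (fun π =>
            (Finset.univ.filter (fun ρ => Enc L (t - β.card) ρ
              (fun v => if v ∈ β then π v else ρs v))).image
                (fun ρ1 v => if v ∈ β then none else ρ1 v))).card : ℕ) : ℝ) := by
          exact_mod_cast h1
        refine h2.trans ?_
        rw [Nat.cast_sum]
        refine Finset.sum_le_sum fun β hβ => ?_
        have h3 : (((PI β).biUnion (fun π =>
            (Finset.univ.filter (fun ρ => Enc L (t - β.card) ρ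
              (fun v => if v ∈ β then π v else ρs v))).image
                (fun ρ1 v => if v ∈ β then none else ρ1 v))).card : ℝ) ≤
            ∑ π ∈ PI β, (((Finset.univ.filter (fun ρ => Enc L (t - β.card) ρ
              (fun v => if v ∈ β then π v else ρs v))).card : ℕ) : ℝ) := by
          rw [← Nat.cast_sum]
          have := (Finset.card_biUnion_le (s := PI β) (t := fun π =>
            (Finset.univ.filter (fun ρ => Enc L (t - β.card) ρ
              (fun v => if v ∈ β then π v else ρs v))).image
                (fun ρ1 v => if v ∈ β then none else ρ1 v))).trans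
            (Finset.sum_le_sum fun π _ => Finset.card_image_le)
          exact_mod_cast this
        refine h3.trans ?_
        rw [hBs, Finset.mem_filter] at hβ
        have hlt : t - β.card < t := by
          have := hβ.2.1.card_pos
          omega
        refine (Finset.sum_le_sum fun π _ => ih (t - β.card) hlt _).trans ?_
        rw [Finset.sum_const, card_PI, nsmul_eq_mul]
        push_cast
        exact le_refl _
      refine hcard.trans ?_
      have e1 : ∀ β ∈ Bs, (2 : ℝ) ^ β.card * (4 * (w : ℝ)) ^ (t - β.card) =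
          (4 * (w : ℝ)) ^ t * (1 / (2 * (w : ℝ))) ^ β.card := by
        intro β hβ
        rw [hBs, Finset.mem_filter] at hβ
        have h1 : (4 * (w : ℝ)) ^ t = (4 * (w : ℝ)) ^ (t - β.card) * (4 * (w : ℝ)) ^ β.card := by
          rw [← pow_add, Nat.sub_add_cancel hβ.2.2]
        rw [h1, mul_assoc, ← mul_pow]
        have h2 : 4 * (w : ℝ) * (1 / (2 * (w : ℝ))) = 2 := by
          field_simp
          norm_num
        rw [h2, mul_comm]
      rw [Finset.sum_congr rfl e1, ← Finset.mul_sum]
      have h5 : ∑ β ∈ Bs, (1 / (2 * (w : ℝ))) ^ β.card ≤ 1 := by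
        have h6 : ∑ β ∈ (dom τ).powerset, (1 / (2 * (w : ℝ))) ^ β.card =
            (1 / (2 * (w : ℝ)) + 1) ^ (dom τ).card := by
          rw [← Finset.sum_pow_mul_eq_add_pow]
          refine Finset.sum_congr rfl fun β _ => ?_
          rw [one_pow, mul_one]
        have h7 := half_pow_le w hw _ hD
        have h8 : insert ∅ Bs ⊆ (dom τ).powerset := by
          intro β hβ
          rcases Finset.mem_insert.mp hβ with rfl | hβ
          · exact Finset.empty_mem_powerset _
          · exact (Finset.mem_filter.mp hβ).1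
        have h9 : (∅ : Finset V) ∉ Bs := by
          rw [hBs, Finset.mem_filter]
          rintro ⟨_, h, _⟩
          exact Finset.not_nonempty_empty h
        have h10 := Finset.sum_le_sum_of_subset_of_nonneg h8
          (f := fun β => (1 / (2 * (w : ℝ))) ^ β.card) (fun _ _ _ => by positivity)
        rw [Finset.sum_insert h9, Finset.card_empty, pow_zero, h6] at h10
        linarith
      calc (4 * (w : ℝ)) ^ t * ∑ β ∈ Bs, (1 / (2 * (w : ℝ))) ^ β.card
          ≤ (4 * (w : ℝ)) ^ t * 1 := mul_le_mul_of_nonneg_left h5 (by positivity)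
        _ = _ := mul_one _

end PAP
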